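import Pool.Agent.MGT.Defs

set_option autoImplicit false

/-!
# MGT, part 2: from (MG) to the case `s = 3` of MP_1b96da_co
-/

open Finset

namespace Pool.Agent.MGT

variable {V : Type}

open scoped Classical in
/-- Missing arcs: number of the two arcs between `u` and `v` that are not in `D`. -/
noncomputable def mis (D : Digraph V) (u v : V) : ℕ :=
  if u = v then 0 else (if D.Adj u v then 0 else 1) + (if D.Adj v u then 0 else 1)

/-- A tournament. -/
def Tour {W : Type} (T : Digraph W) : Prop :=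
  (∀ a, ¬ T.Adj a a) ∧ ∀ a b, a ≠ b → (T.Adj a b ↔ ¬ T.Adj b a)

/-- `T i`, `i ∈ I`, are contained in `D` as vertex disjoint copies with vertices in `S`. -/
def Tiles {ι : Type} (D : Digraph V) (T : ι → Digraph (Fin 3)) (I : Finset ι) (S : Finset V) :
    Prop :=
  ∃ f : ι → Fin 3 → V, (∀ i ∈ I, ∀ a, f i a ∈ S) ∧
    (∀ i ∈ I, ∀ j ∈ I, ∀ a b, f i a = f j b → i = j ∧ a = b) ∧
    ∀ i ∈ I, ∀ a b, (T i).Adj a b → D.Adj (f i a) (f i b)

/-- A transitive tournament on three vertices: some vertex dominates the others. -/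
def Trs (T : Digraph (Fin 3)) : Prop := ∃ i, ∀ j, j ≠ i → T.Adj i j

/-- The situation of a barrier; `|X| = 2α + β + 3 ≡ 1`, `|Y| = α + 2β + 3 ≡ 2 (mod 3)`,
`k = α + β + 2`. -/
structure Bar [DecidableEq V] (e : V → V → ℕ) (X Y : Finset V) (α β : ℕ) : Prop where
  sym : Sym e
  disj : Disjoint X Y
  cX : X.card = 2 * α + β + 3
  cY : Y.card = α + 2 * β + 3
  hmod : (2 * α + β + 3) % 3 = 1
  cpl : Cpl e X Y
  dX : ∀ x ∈ X, dg e X x + (Y.filter fun y => 2 ≤ e x y).card ≤ α
  dY : ∀ y ∈ Y, dg e Y y + (X.filter fun x => 2 ≤ e x y).card ≤ β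

end Pool.Agent.MGT
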