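import Pool.Agent.MGT.Targets2

set_option autoImplicit false

open Finset

namespace Pool.Agent.MGT

theorem p_MIS : T_MIS := by
  intro V _ _ D
  refine ⟨⟨?_, ?_⟩, ?_, ?_, ?_, ?_⟩
  · intro a b
    unfold mis
    by_cases h : a = b
    · subst h; rfl
    · rw [if_neg h, if_neg (Ne.symm h), add_comm]
  · intro a
    unfold mis
    rw [if_pos rfl]
  · intro u v
    unfold mis
    by_cases h : u = v
    · rw [if_pos h]; omega
    · by_cases h1 : D.Adj u v <;> by_cases h2 : D.Adj v u <;> simp [h, h1, h2]
  · intro u v h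
    unfold mis
    by_cases h1 : D.Adj u v <;> by_cases h2 : D.Adj v u <;> simp [h, h1, h2]
  · intro u v h
    unfold mis
    by_cases h1 : D.Adj u v <;> by_cases h2 : D.Adj v u <;> simp [h, h1, h2]
  · intro u v h
    unfold mis
    by_cases h1 : D.Adj u v <;> by_cases h2 : D.Adj v u <;> simp [h, h1, h2]

end Pool.Agent.MGT
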