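import Pool.Agent.MGT.Targets2

set_option autoImplicit false

/-!
# MGT: MISD, the degrees of the graph of missing arcs
-/

open Finset

namespace Pool.Agent.MGT

open scoped Classical in
theorem MISD_.point {V : Type} [DecidableEq V] (D : Digraph V) (v w : V) (hl : ∀ a, ¬ D.Adj a a) :
    mis D v w + ((if D.Adj v w then 1 else 0) + (if D.Adj w v then 1 else 0)) +
      (if w = v then 2 else 0) = 2 := by
  unfold mis
  by_cases h : v = w
  · subst h
    simp [hl v]
  · have h' : w ≠ v := fun e => h e.symm
    rw [if_neg h, if_neg h']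
    by_cases h1 : D.Adj v w <;> by_cases h2 : D.Adj w v <;> simp [h1, h2]

open scoped Classical in
theorem p_MISD : T_MISD := by
  intro V _ _ D v hl
  have h : ∑ w : V, (mis D v w + ((if D.Adj v w then 1 else 0) +
      (if D.Adj w v then 1 else 0)) + (if w = v then 2 else 0)) = ∑ w : V, 2 :=
    Finset.sum_congr rfl fun w _ => by
      have := MISD_.point D v w hl
      convert this
  rw [Finset.sum_add_distrib, Finset.sum_add_distrib, Finset.sum_add_distrib] at h
  have h2 : ∑ w : V, (if w = v then 2 else 0) = 2 := by
    rw [Finset.sum_ite_eq' univ v (fun _ => 2)]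
    simp
  have h3 : ∑ w : V, 2 = 2 * Fintype.card V := by
    rw [Finset.sum_const, Finset.card_univ, smul_eq_mul, mul_comm]
  rw [h2, h3] at h
  rw [Finset.card_filter, Finset.card_filter]
  unfold dg
  exact h

end Pool.Agent.MGT
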