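import Pool.Agent.MGT.Targets

set_option autoImplicit false

/-!
# MGT POS: reduction to multigraphs with a cut of positive value
-/

open Finset

namespace Pool.Agent.MGT

namespace POS_

variable {V : Type} [DecidableEq V]

/-- The indicator of the pair `v v'`. -/
def ind (v v' a b : V) : ℕ := if (a = v ∧ b = v') ∨ (a = v' ∧ b = v) then 1 else 0

/-- One more edge between `v` and `v'`. -/
def addE (e : V → V → ℕ) (v v' : V) : V → V → ℕ := fun a b => e a b + ind v v' a b

/-- The total deficiency. -/
def defi (e : V → V → ℕ) (S : Finset V) (k : ℕ) : ℕ := ∑ v ∈ S, (2 * k - (dg e S v + 1))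

lemma sym_addE {e : V → V → ℕ} (h : Sym e) {v v' : V} (hne : v ≠ v') : Sym (addE e v v') := by
  constructor
  · intro a b
    unfold addE ind
    rw [h.1 a b]
    congr 1
    apply if_congr _ rfl rfl
    tauto
  · intro a
    unfold addE ind
    rw [h.2 a, if_neg, add_zero]
    rintro (⟨h1, h2⟩ | ⟨h1, h2⟩)
    · exact hne (h1.symm.trans h2)
    · exact hne (h2.symm.trans h1)

lemma sum_ind_ne (S : Finset V) {v v' a : V} (h1 : a ≠ v) (h2 : a ≠ v') :
    ∑ w ∈ S, ind v v' a w = 0 := by
  apply Finset.sum_eq_zero
  intro w _
  unfold ind
  rw [if_neg]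
  rintro (⟨h, _⟩ | ⟨h, _⟩)
  · exact h1 h
  · exact h2 h

lemma sum_ind_le (S : Finset V) {v v' : V} (hne : v ≠ v') (a : V) :
    ∑ w ∈ S, ind v v' a w ≤ 1 := by
  by_cases h1 : a = v
  · subst h1
    calc ∑ w ∈ S, ind a v' a w = ∑ w ∈ S, (if w = v' then 1 else 0) := by
          apply Finset.sum_congr rfl
          intro w _
          unfold ind
          apply if_congr _ rfl rfl
          constructor
          · rintro (⟨_, h⟩ | ⟨h, _⟩)
            · exact h
            · exact absurd h hne
          · intro h
            exact Or.inl ⟨rfl, h⟩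
      _ ≤ 1 := by
          rw [Finset.sum_ite_eq' S v' (fun _ => 1)]
          split <;> omega
  · by_cases h2 : a = v'
    · subst h2
      calc ∑ w ∈ S, ind v a a w = ∑ w ∈ S, (if w = v then 1 else 0) := by
            apply Finset.sum_congr rfl
            intro w _
            unfold ind
            apply if_congr _ rfl rfl
            constructor
            · rintro (⟨h, _⟩ | ⟨_, h⟩)
              · exact absurd h h1
              · exact h
            · intro h
              exact Or.inr ⟨rfl, h⟩
        _ ≤ 1 := by
            rw [Finset.sum_ite_eq' S v (fun _ => 1)]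
            split <;> omega
    · rw [sum_ind_ne S h1 h2]
      omega

lemma sum_ind_v (S : Finset V) {v v' : V} (hne : v ≠ v') (hv' : v' ∈ S) :
    1 ≤ ∑ w ∈ S, ind v v' v w := by
  have : ind v v' v v' ≤ ∑ w ∈ S, ind v v' v w :=
    Finset.single_le_sum (f := fun w => ind v v' v w) (fun _ _ => Nat.zero_le _) hv'
  refine le_trans ?_ this
  unfold ind
  rw [if_pos (Or.inl ⟨rfl, rfl⟩)]

lemma dg_addE (e : V → V → ℕ) (S : Finset V) (v v' a : V) :
    dg (addE e v v') S a = dg e S a + ∑ w ∈ S, ind v v' a w := by
  unfold dg addE
  rw [Finset.sum_add_distrib]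

lemma defi_addE {e : V → V → ℕ} {S : Finset V} {k : ℕ} {v v' : V} (hne : v ≠ v')
    (hv : v ∈ S) (hv' : v' ∈ S) (hd : dg e S v + 2 ≤ 2 * k) :
    defi (addE e v v') S k < defi e S k := by
  unfold defi
  apply Finset.sum_lt_sum
  · intro a _
    rw [dg_addE]
    omega
  · refine ⟨v, hv, ?_⟩
    rw [dg_addE]
    have := sum_ind_v S hne hv'
    omega

lemma sum_ind_AB {A B : Finset V} (hd : Disjoint A B) {v v' : V} (hne : v ≠ v') :
    ∑ a ∈ A, ∑ b ∈ B, ind v v' a b ≤ 1 := by
  by_cases h1 : v ∈ A
  · by_cases h2 : v' ∈ A
    · -- both in A : nothing in B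
      have : ∑ a ∈ A, ∑ b ∈ B, ind v v' a b = 0 := by
        apply Finset.sum_eq_zero
        intro a _
        apply Finset.sum_eq_zero
        intro b hb
        unfold ind
        rw [if_neg]
        rintro (⟨_, h⟩ | ⟨_, h⟩)
        · rw [h] at hb
          exact (Finset.disjoint_left.mp hd h2) hb
        · rw [h] at hb
          exact (Finset.disjoint_left.mp hd h1) hb
      omega
    · calc ∑ a ∈ A, ∑ b ∈ B, ind v v' a b = ∑ b ∈ B, ind v v' v b := by
            apply Finset.sum_eq_single_of_mem v h1
            intro a ha hav
            apply sum_ind_ne B hav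
            intro h
            exact h2 (h ▸ ha)
        _ ≤ 1 := sum_ind_le B hne v
  · by_cases h2 : v' ∈ A
    · calc ∑ a ∈ A, ∑ b ∈ B, ind v v' a b = ∑ b ∈ B, ind v v' v' b := by
            apply Finset.sum_eq_single_of_mem v' h2
            intro a ha hav
            apply sum_ind_ne B _ hav
            intro h
            exact h1 (h ▸ ha)
        _ ≤ 1 := sum_ind_le B hne v'
    · have : ∑ a ∈ A, ∑ b ∈ B, ind v v' a b = 0 := by
        apply Finset.sum_eq_zero
        intro a ha
        apply sum_ind_ne B
        · intro h
          exact h1 (h ▸ ha)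
        · intro h
          exact h2 (h ▸ ha)
      omega

lemma barrier_pos {e : V → V → ℕ} {S : Finset V} {k : ℕ} (hk : 2 ≤ k) (hS : S.card = 3 * k)
    {v v' : V} (hne : v ≠ v') (hb : Barrier (addE e v v') S) : HasPos e S := by
  obtain ⟨A, B, ⟨hA, hB, hdis, hun, hcpl⟩, _⟩ := hb
  have hcard : A.card + B.card = 3 * k := by
    rw [← hS, ← hun, Finset.card_union_of_disjoint hdis]
  have hsd : S \ A = B := by
    rw [← hun]
    exact Finset.union_sdiff_cancel_left hdis
  have h1 : A.card * B.card ≤ E (addE e v v') A B := by
    unfold E
    calc A.card * B.card = ∑ a ∈ A, ∑ _b ∈ B, 1 := by simp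
      _ ≤ ∑ a ∈ A, ∑ b ∈ B, addE e v v' a b :=
          Finset.sum_le_sum (fun a ha => Finset.sum_le_sum (fun b hb => hcpl a ha b hb))
  have h2 : E (addE e v v') A B = E e A B + ∑ a ∈ A, ∑ b ∈ B, ind v v' a b := by
    unfold E addE
    simp only [Finset.sum_add_distrib]
  have h3 := sum_ind_AB hdis hne
  refine ⟨A, by rw [← hun]; exact Finset.subset_union_left, ?_⟩
  rw [hsd]
  have hA1 : 1 ≤ A.card := hA.card_pos
  have hB1 : 1 ≤ B.card := hB.card_pos
  have h4 : A.card + B.card ≤ A.card * B.card + 1 := by nlinarith
  have h5 : 2 * A.card * B.card = 2 * (A.card * B.card) := by ring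
  rw [h5]
  omega

end POS_

open POS_ in
theorem p_POS (h_EB : T_EB) (h_FU : T_FU) : T_POS := by
  intro V _ S k hk hS H
  suffices hmain : ∀ n : ℕ, ∀ e : V → V → ℕ, defi e S k = n → Sym e →
      (∀ v ∈ S, dg e S v + 1 ≤ 2 * k) → ¬ Barrier e S → Fact e S by
    intro e he hd hb
    exact hmain _ e rfl he hd hb
  intro n
  induction n using Nat.strong_induction_on with
  | _ n ih =>
    intro e hn he hd hb
    by_cases hpos : HasPos e S
    · exact H e he hd hb hpos
    · set D : Finset V := S.filter (fun v => dg e S v + 2 ≤ 2 * k) with hD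
      by_cases hDc : 1 < D.card
      · obtain ⟨v, hv, v', hv', hne⟩ := Finset.one_lt_card.mp hDc
        rw [hD, Finset.mem_filter] at hv hv'
        have hsym := sym_addE he hne
        have hlt : defi (addE e v v') S k < n := by
          rw [← hn]
          exact defi_addE hne hv.1 hv'.1 hv.2
        have hdeg : ∀ a ∈ S, dg (addE e v v') S a + 1 ≤ 2 * k := by
          intro a ha
          rw [dg_addE]
          by_cases h1 : a = v
          · have := sum_ind_le S hne a
            rw [h1] at this ⊢
            have := hv.2
            omega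
          · by_cases h2 : a = v'
            · have := sum_ind_le S hne a
              rw [h2] at this ⊢
              have := hv'.2
              omega
            · rw [sum_ind_ne S h1 h2]
              exact hd a ha
        have hbar : ¬ Barrier (addE e v v') S := fun h => hpos (barrier_pos hk hS hne h)
        have hfact := ih _ hlt (addE e v v') rfl hsym hdeg hbar
        exact (h_FU V e (addE e v v')).2.1 S (fun a b => Nat.le_add_right _ _) hfact
      · exfalso
        apply hpos
        -- a full vertex
        have hfull : ∃ x ∈ S, x ∉ D := by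
          by_contra hcon
          push Not at hcon
          have : S.card ≤ D.card := Finset.card_le_card hcon
          omega
        obtain ⟨x, hxS, hxD⟩ := hfull
        have hx : dg e S x + 1 = 2 * k := by
          have h1 := hd x hxS
          rw [hD, Finset.mem_filter] at hxD
          by_contra hcon
          exact hxD ⟨hxS, by omega⟩
        -- non-neighbours
        set NB : Finset V := S.filter (fun w => 1 ≤ e x w) with hNB
        have hNBc : NB.card ≤ dg e S x := by
          unfold dg
          calc NB.card = ∑ w ∈ NB, 1 := by simp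
            _ ≤ ∑ w ∈ NB, e x w := Finset.sum_le_sum (fun w hw => (Finset.mem_filter.mp hw).2)
            _ ≤ ∑ w ∈ S, e x w :=
                Finset.sum_le_sum_of_subset (Finset.filter_subset _ _)
        have hex : ∃ x' ∈ S, x' ≠ x ∧ e x x' = 0 ∧ x' ∉ D := by
          by_contra hcon
          push Not at hcon
          have hsub : S ⊆ NB ∪ (insert x D) := by
            intro w hw
            by_cases h1 : 1 ≤ e x w
            · exact Finset.mem_union_left _ (Finset.mem_filter.mpr ⟨hw, h1⟩)
            · apply Finset.mem_union_right
              rw [Finset.mem_insert]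
              by_cases h2 : w = x
              · exact Or.inl h2
              · exact Or.inr (hcon w hw h2 (by omega))
          have h3 : S.card ≤ NB.card + (D.card + 1) :=
            (Finset.card_le_card hsub).trans ((Finset.card_union_le _ _).trans
              (Nat.add_le_add_left (Finset.card_insert_le _ _) _))
          omega
        obtain ⟨x', hx'S, hx'x, hexx, hx'D⟩ := hex
        have hx' : dg e S x' + 1 = 2 * k := by
          have h1 := hd x' hx'S
          rw [hD, Finset.mem_filter] at hx'D
          by_contra hcon
          exact hx'D ⟨hx'S, by omega⟩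
        -- the cut
        set X : Finset V := {x, x'} with hX
        have hXS : X ⊆ S := by
          intro w hw
          rw [hX, Finset.mem_insert, Finset.mem_singleton] at hw
          rcases hw with h | h <;> rw [h] <;> assumption
        have hXc : X.card = 2 := Finset.card_pair hx'x.symm
        obtain ⟨-, -, -, hEd, hdgU, -, -, -, -⟩ := h_EB V e he
        have hsplit : ∀ v, dg e S v = dg e X v + dg e (S \ X) v := by
          intro v
          rw [← hdgU X (S \ X) v Finset.disjoint_sdiff, Finset.union_sdiff_of_subset hXS]
        have hXx : dg e X x = 0 := by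
          unfold dg
          rw [hX, Finset.sum_pair hx'x.symm, he.2 x, hexx]
        have hXx' : dg e X x' = 0 := by
          unfold dg
          rw [hX, Finset.sum_pair hx'x.symm, he.2 x', he.1 x' x, hexx]
        have hE : E e X (S \ X) = dg e (S \ X) x + dg e (S \ X) x' := by
          rw [hEd X (S \ X), hX, Finset.sum_pair hx'x.symm]
        have h1 := hsplit x
        have h2 := hsplit x'
        have hsd : (S \ X).card = 3 * k - 2 := by
          rw [Finset.card_sdiff_of_subset hXS, hXc, hS]
        refine ⟨X, hXS, ?_⟩
        rw [hE, hXc, hsd]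
        omega

end Pool.Agent.MGT
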