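import Mathlib

set_option autoImplicit false

/-!
# MGT: partition of a multigraph with `3k` vertices and maximum degree at most `2k - 1` into
`k` triples spanning at most one edge each (MP_1b96da_co, case `s = 3`).

`e : V → V → ℕ` is the multiplicity function (the edges are the MISSING arcs of the digraph).
-/

open Finset

namespace Pool.Agent.MGT

variable {V : Type}

/-- Number of edges between `A` and `B` (ordered pairs; `E e P P` is twice the number of edges
inside `P`). -/
def E (e : V → V → ℕ) (A B : Finset V) : ℕ := ∑ a ∈ A, ∑ b ∈ B, e a b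

/-- Degree of `v` into `S`. -/
def dg (e : V → V → ℕ) (S : Finset V) (v : V) : ℕ := ∑ w ∈ S, e v w

/-- Symmetric and loopless. -/
def Sym (e : V → V → ℕ) : Prop := (∀ a b, e a b = e b a) ∧ ∀ a, e a a = 0

/-- Good triple: three different vertices spanning at most one edge. -/
def Good (e : V → V → ℕ) (a b c : V) : Prop :=
  a ≠ b ∧ a ≠ c ∧ b ≠ c ∧ e a b + e a c + e b c ≤ 1

/-- `Fact e S`: the set `S` can be partitioned into good triples. -/
inductive Fact [DecidableEq V] (e : V → V → ℕ) : Finset V → Prop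
  | nil : Fact e ∅
  | add (S : Finset V) (a b c : V) : Fact e S → a ∉ S → b ∉ S → c ∉ S → Good e a b c →
      Fact e (insert a (insert b (insert c S)))

/-- All pairs between `A` and `B` are adjacent. -/
def Cpl (e : V → V → ℕ) (A B : Finset V) : Prop := ∀ a ∈ A, ∀ b ∈ B, 1 ≤ e a b

/-- Complete partition of `S`: two non-empty parts, all cross pairs adjacent. -/
def CP [DecidableEq V] (e : V → V → ℕ) (S A B : Finset V) : Prop :=
  A.Nonempty ∧ B.Nonempty ∧ Disjoint A B ∧ A ∪ B = S ∧ Cpl e A B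

/-- Barrier: a complete partition with a part of size not divisible by three. -/
def Barrier [DecidableEq V] (e : V → V → ℕ) (S : Finset V) : Prop :=
  ∃ A B, CP e S A B ∧ ¬ 3 ∣ A.card

/-- The inequality (*) of the maximum cut. -/
def Star [DecidableEq V] (e : V → V → ℕ) (X : Finset V) : Prop :=
  ∀ P ⊆ X, 3 * E e P P + 6 * E e P (X \ P) + 3 * P.card
    ≤ P.card * (2 * P.card + 4 * (X \ P).card)

/-- The theorem (MG) for one `k` (and the vertex type `V`). -/
def MGk (V : Type) [DecidableEq V] (k : ℕ) : Prop :=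
  ∀ (e : V → V → ℕ) (S : Finset V), Sym e → S.card = 3 * k →
    (∀ v ∈ S, dg e S v + 1 ≤ 2 * k) → ¬ Barrier e S → Fact e S

/-- A cut with positive value of `3 e(X,Y) - 2 |X| |Y|`. -/
def HasPos [DecidableEq V] (e : V → V → ℕ) (S : Finset V) : Prop :=
  ∃ X ⊆ S, 2 * X.card * (S \ X).card < 3 * E e X (S \ X)

/-- The situation of type (2,1). -/
structure Cfg [DecidableEq V] (e : V → V → ℕ) (X Y : Finset V) (p q : ℕ) : Prop where
  sym : Sym e
  disj : Disjoint X Y
  cX : X.card = 3 * p + 2
  cY : Y.card = 3 * q + 1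
  dt : ∀ v ∈ X ∪ Y, dg e X v + dg e Y v ≤ 2 * p + 2 * q + 1
  dX : ∀ v ∈ X, dg e X v ≤ 2 * p
  dY : ∀ v ∈ Y, dg e Y v + 1 ≤ 2 * q
  sX : Star e X
  fY : ∀ y ∈ Y, Fact e (Y.erase y)
  ihp : MGk V p

end Pool.Agent.MGT
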