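import Pool.Agent.MGT.Defs

set_option autoImplicit false

/-!
# MGT targets. Every target has its proof in the docstring. `e(A,B)` is `E e A B`, `d_S(v)` is
`dg e S v`, `E e P P = 2 e(P)` in the notation of the paper proof.
-/

open Finset

namespace Pool.Agent.MGT

/-- FU. Basic facts on `Fact`. PROOF. (1) induction on the first `Fact`. (2) induction. (3) `X ∪ Y`
is `insert x (insert x' (insert y (((X.erase x).erase x') ∪ (Y.erase y))))`. (4) immediate. -/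
def T_FU : Prop := ∀ (V : Type) [DecidableEq V] (e e' : V → V → ℕ),
  (∀ S T, Fact e S → Fact e T → Disjoint S T → Fact e (S ∪ T)) ∧
  (∀ S, (∀ a b, e a b ≤ e' a b) → Fact e' S → Fact e S) ∧
  (∀ (X Y : Finset V) (x x' y : V), Disjoint X Y → x ∈ X → x' ∈ X → y ∈ Y → Good e x x' y →
    Fact e ((X.erase x).erase x') → Fact e (Y.erase y) → Fact e (X ∪ Y)) ∧
  MGk V 0

/-- EB. Basic facts on `E` and `dg`. PROOF. Sums over disjoint unions, `Finset.sum_comm`. -/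
def T_EB : Prop := ∀ (V : Type) [DecidableEq V] (e : V → V → ℕ), Sym e →
  (∀ A B, E e A B = E e B A) ∧
  (∀ A B C, Disjoint B C → E e A (B ∪ C) = E e A B + E e A C) ∧
  (∀ A B C, Disjoint A B → E e (A ∪ B) C = E e A C + E e B C) ∧
  (∀ A B, E e A B = ∑ a ∈ A, dg e B a) ∧
  (∀ A B v, Disjoint A B → dg e (A ∪ B) v = dg e A v + dg e B v) ∧
  (∀ A v w, w ∈ A → dg e A v = dg e (A.erase w) v + e v w) ∧
  (∀ A B, Cpl e A B → A.card * B.card ≤ E e A B) ∧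
  (∀ A B v, A ⊆ B → dg e A v ≤ dg e B v) ∧
  (∀ A B v, v ∈ A → Cpl e A B → B.card ≤ dg e B v)

/-- STAR. Maximality gives `Star` on both sides. PROOF. `P ⊆ X`, `P' = X \ P`. The cut
`(P', Y ∪ P)` has `e(P', Y ∪ P) = e(X,Y) - e(P,Y) + e(P,P')` and
`|P'| |Y ∪ P| = |X||Y| + |P|(|P'| - |Y|)`, so `3(e(P,P') - e(P,Y)) ≤ 2|P|(|P'| - |Y|)`. Degrees:
`E e P P + e(P,P') + e(P,Y) = ∑ v ∈ P, dg e (X ∪ Y) v ≤ |P|(2k - 1)` and
`6k = 2(|P| + |P'| + |Y|)`; add three times this. `Star e Y` by symmetry. -/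
def T_STAR : Prop := ∀ (V : Type) [DecidableEq V] (e : V → V → ℕ) (X Y : Finset V) (k : ℕ),
  Sym e → Disjoint X Y → (X ∪ Y).card = 3 * k →
  (∀ v ∈ X ∪ Y, dg e (X ∪ Y) v + 1 ≤ 2 * k) →
  (∀ X' ⊆ X ∪ Y, 3 * (E e X' ((X ∪ Y) \ X') : ℤ) - 2 * X'.card * ((X ∪ Y) \ X').card
    ≤ 3 * (E e X Y : ℤ) - 2 * X.card * Y.card) →
  Star e X ∧ Star e Y

/-- DEG. PROOF. `Star` with `P = {x}`. -/
def T_DEG : Prop := ∀ (V : Type) [DecidableEq V] (e : V → V → ℕ) (X : Finset V) (x : V),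
  Sym e → Star e X → x ∈ X → 6 * dg e X x + 5 ≤ 4 * X.card

/-- NCP. No complete partition. PROOF. `Star` with `P = A`, `X \ A = B`, `e(A,B) ≥ |A||B|` gives
`6|B| ≤ 2|A| + 4|B| - 3`, so `|B| < |A|`; by symmetry `|A| < |B|`. -/
def T_NCP : Prop := ∀ (V : Type) [DecidableEq V] (e : V → V → ℕ) (X A B : Finset V),
  Sym e → Star e X → ¬ CP e X A B

/-- ER. Complete partition of `X - x`. PROOF. `Star` with `P = A`, `X \ P = B + x`:
`3 E(A,A) + 6 d_A(x) + 6|A||B| ≤ |A|(2|A| + 4|B| + 1)`, so `2(|B| - |A|) ≤ 1`; symmetrically, so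
`|A| = |B|`, and the sum of the two inequalities gives `6 d_X(x) ≤ 2|A|`. Second part:
`|Y - y| = 3q = 2|A|` gives `3 ∣ |A|`. -/
def T_ER : Prop := ∀ (V : Type) [DecidableEq V] (e : V → V → ℕ) (X : Finset V) (x : V),
  Sym e → Star e X → x ∈ X →
  (∀ A B, CP e (X.erase x) A B → A.card = B.card ∧ 6 * dg e X x ≤ 2 * A.card) ∧
  (∀ q, X.card = 3 * q + 1 → ¬ Barrier e (X.erase x))

/-- DOM. Among three vertices of `X` with inner degree `2p` there is an edge. PROOF. `Star` with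
`P = {u1,u2,u3}`: if `E e P P = 0` then `e(P, X \ P) = 6p` and
`36p + 9 ≤ 3(6 + 4(3p - 1)) = 36p + 6`, contradiction. -/
def T_DOM : Prop := ∀ (V : Type) [DecidableEq V] (e : V → V → ℕ) (X : Finset V) (p : ℕ)
  (u1 u2 u3 : V), Sym e → Star e X → X.card = 3 * p + 2 → u1 ∈ X → u2 ∈ X → u3 ∈ X →
  u1 ≠ u2 → u1 ≠ u3 → u2 ≠ u3 → dg e X u1 = 2 * p → dg e X u2 = 2 * p → dg e X u3 = 2 * p →
  1 ≤ e u1 u2 + e u1 u3 + e u2 u3

/-- PAIR. PROOF. Let `X - u1 - u2 = A + B` be complete, sizes `a + b = 3p`. `Star` with `P = A`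
and `X \ P = B + u1 + u2`: `6 e(A,{u1,u2}) + 6ab + 3a ≤ a(2a + 4(b + 2))`, so `2(b - a) ≤ 5`, and
symmetrically, so `|a - b| ≤ 2`. Sum of the two, with `e({u1,u2}, A ∪ B) = 4p` (as `e u1 u2 = 0`):
`24p + 12ab ≤ 2a² + 2b² + 8ab + 15p`, i.e. `9p ≤ 2(a - b)² ≤ 8`. -/
def T_PAIR : Prop := ∀ (V : Type) [DecidableEq V] (e : V → V → ℕ) (X : Finset V) (p : ℕ)
  (u1 u2 : V) (A B : Finset V), Sym e → Star e X → X.card = 3 * p + 2 → 1 ≤ p → u1 ∈ X →
  u2 ∈ X → u1 ≠ u2 → e u1 u2 = 0 → dg e X u1 = 2 * p → dg e X u2 = 2 * p →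
  ¬ CP e ((X.erase u1).erase u2) A B

/-- A. Case A. PROOF. `X' = X - u1 - u2` has `3p` vertices. Degrees in `X'`: if `d_X(v) ≤ 2p - 1`
fine, else `d_X(v) = 2p` and by DOM `e v u1 + e v u2 ≥ 1`. No complete partition of `X'` by PAIR
(for `p = 0`, `X' = ∅`). `q ≥ 1` (from `dY`, `Y` is non-empty) and
`∑ y ∈ Y, (e u1 y + e u2 y) = d_Y(u1) + d_Y(u2) ≤ 2(2q + 1) < 2(3q + 1) = 2|Y|`, so some `y ∈ Y`
has `e u1 y + e u2 y ≤ 1`. `Fact e X'` by `ihp`, `Fact e (Y.erase y)` by `fY`; FU (3). -/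
def T_A : Prop := ∀ (V : Type) [DecidableEq V] (e : V → V → ℕ) (X Y : Finset V) (p q : ℕ)
  (u1 u2 : V), Cfg e X Y p q → u1 ∈ X → u2 ∈ X → u1 ≠ u2 → e u1 u2 = 0 → dg e X u1 = 2 * p →
  dg e X u2 = 2 * p → Fact e (X ∪ Y)

/-- BA. PROOF. `R - b = A + B` complete, `3 ∤ |A|`, `|A| + |B| = 3p`. A vertex of `A` is adjacent
to all of `B`, so `|B| ≤ d_{R-b} ≤ 2p - 1` and `|A| ≥ p + 1`; symmetrically. So `p ≥ 2`, and
`p = 2` gives `|A| = |B| = 3`. -/
def T_BA : Prop := ∀ (V : Type) [DecidableEq V] (e : V → V → ℕ) (R A B : Finset V) (p : ℕ)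
  (b : V), Sym e → R.card = 3 * p + 1 → (∀ v ∈ R, dg e R v + 1 ≤ 2 * p) → b ∈ R →
  CP e (R.erase b) A B → ¬ 3 ∣ A.card →
  3 ≤ p ∧ p + 1 ≤ A.card ∧ p + 1 ≤ B.card ∧ ∀ v ∈ R.erase b, p + 1 ≤ dg e R v

/-- BB. Two barriers. PROOF. `R - b = A + B`, `R - b' = C + D` complete, `b' ∈ A`. One of `C`, `D`
contains `b`, say `D` (else exchange the names). The sets `A ∩ C`, `A ∩ D`, `B ∩ C`, `B ∩ D`
partition `R - b - b'` (`3p - 1` vertices) and are pairwise completely joined. A vertex of `R` has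
at least `3p - (2p - 1) = p + 1` non-neighbours in `R` (other than itself), so a vertex of
`R - b - b'` has at least `p - 1` non-neighbours in `R - b - b'`, all in its own part: a non-empty
part has at least `p` vertices, and at most two parts are non-empty (`3p > 3p - 1`). `A - b'`,
`B`, `C`, `D - b` are non-empty (BA, sizes at least `p + 1 ≥ 2`), so `{A - b', B} = {C, D - b}`.
If `B = C` then `b ∈ D` is completely joined to `C = B`, and `R = (A + b) + B` is a complete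
partition, excluded. So `A - b' = C`, and `b ∈ D` is completely joined to `C = A - b'`. -/
def T_BB : Prop := ∀ (V : Type) [DecidableEq V] (e : V → V → ℕ) (R A B C D : Finset V) (p : ℕ)
  (b b' : V), Sym e → R.card = 3 * p + 1 → (∀ v ∈ R, dg e R v + 1 ≤ 2 * p) → b ∈ R → b' ∈ R →
  b ≠ b' → (∀ P Q, ¬ CP e R P Q) → CP e (R.erase b) A B → ¬ 3 ∣ A.card → CP e (R.erase b') C D →
  ¬ 3 ∣ C.card → b' ∈ A → Cpl e {b} (A.erase b')

/-- BC. At most two barriers. PROOF. `R - b1 = A + B` complete with `3 ∤ |A|` (then also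
`3 ∤ |B|`). Say `b2 ∈ A` (else exchange). BB: `b1` is completely joined to `A - b2`. If `b3 ∈ A`
also to `A - b3`, so to `A`, and `R = A + (B + b1)` is a complete partition, excluded. If
`b3 ∈ B`: BB for the partition `B + A`: `b1` is completely joined to `B - b3`, so it has at most
two non-neighbours in `R - b1`, but it has at least `3p - (2p - 1) = p + 1 ≥ 4` (BA). -/
def T_BC : Prop := ∀ (V : Type) [DecidableEq V] (e : V → V → ℕ) (R : Finset V) (p : ℕ)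
  (b1 b2 b3 : V), Sym e → R.card = 3 * p + 1 → (∀ v ∈ R, dg e R v + 1 ≤ 2 * p) → b1 ∈ R →
  b2 ∈ R → b3 ∈ R → b1 ≠ b2 → b1 ≠ b3 → b2 ≠ b3 → (∀ P Q, ¬ CP e R P Q) →
  Barrier e (R.erase b1) → Barrier e (R.erase b2) → ¬ Barrier e (R.erase b3)

/-- C1. Claim 1. PROOF. Let `R = X - x` and `Bad` the set of `b ∈ R` with `Barrier e (R.erase b)`;
`|Bad| ≤ 2` (BC); if `b ∈ Bad` then `p ≥ 3` and `d_X(v) ≥ p + 1 ≥ 4` for `v ∈ R - b` (BA). For
`x' ∈ R \ Bad` and `y ∈ Y` with `Good e x x' y` we are done (`ihp` for `R.erase x'`, `fY`, FU (3)).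
So assume `e x x' + e x y + e x' y ≥ 2` for all `x' ∈ R \ Bad`, `y ∈ Y`. With `y = y0`, sum over
`x'`: `d_X(x) + d_X(y0) ≥ 2(3p + 1 - |Bad|)`, and `d_X(y0) ≤ 2p + 2q + 1`, so
`d_X(x) ≥ 4p - 2q + 1 - 2|Bad|`. `x` has at least `3p + 1 - 2p = p + 1` non-neighbours in `R`, and
`p + 1 > |Bad|` (`p ≥ 1` if `Bad = ∅`, `p ≥ 3` else); take a non-neighbour `x' ∈ R \ Bad`. Sum over
`y`: `d_Y(x) + d_Y(x') ≥ 2(3q + 1)`, so `d_X(x) + d_X(x') ≤ 2(2p + 2q + 1) - 2(3q + 1) = 4p - 2q`.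
So `d_X(x') ≤ 2|Bad| - 1`: impossible if `Bad = ∅`, and if `b ∈ Bad`, `x' ∈ R - b` has
`d_X(x') ≥ 4 > 3`. -/
def T_C1 : Prop := ∀ (V : Type) [DecidableEq V] (e : V → V → ℕ) (X Y : Finset V) (p q : ℕ)
  (x y0 : V), Cfg e X Y p q → 1 ≤ p → x ∈ X → y0 ∈ Y → e x y0 = 0 →
  (∀ v ∈ X.erase x, dg e (X.erase x) v + 1 ≤ 2 * p) → (∀ A B, ¬ CP e (X.erase x) A B) →
  Fact e (X ∪ Y)

/-- B. Case B. PROOF. C1 with `x = u`: `d_Y(u) ≤ 2p + 2q + 1 - 2p = 2q + 1 < 3q + 1 = |Y|`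
(`q ≥ 1` from `dY`), so `u` has a non-neighbour in `Y`. Degrees in `X - u`: `d_X(v) ≤ 2p - 1`, or
`d_X(v) = 2p` and `e u v ≥ 1`. No complete partition of `X - u`: by ER `|A| = |B|`,
`2|A| = 3p + 1` and `12p ≤ 3p + 1`. -/
def T_B : Prop := ∀ (V : Type) [DecidableEq V] (e : V → V → ℕ) (X Y : Finset V) (p q : ℕ)
  (u : V), Cfg e X Y p q → 1 ≤ p → u ∈ X → dg e X u = 2 * p →
  (∀ v ∈ X, dg e X v = 2 * p → v ≠ u → 1 ≤ e u v) → Fact e (X ∪ Y)

/-- CC. Two cut vertices of `X`. PROOF. Let `X - x0 = A + B` and `X - x1 = C + D` be complete,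
`x0 ≠ x1`. By ER all four sets have the same size `z` with `2z = 3p + 1` and
`6 d_X(x0) ≤ 2z`, so `d_X(x0) < z`. Say `x1 ∈ A` and `x0 ∈ D` (else exchange names). `A ∩ C`,
`A ∩ D`, `B ∩ C`, `B ∩ D` partition `X - x0 - x1` (`3p` vertices), pairwise completely joined; a
vertex of `X` has at least `3p + 1 - (2p - 1) = p + 2` non-neighbours in `X` other than itself, so
a vertex of `X - x0 - x1` has at least `p` in `X - x0 - x1`, all in its own part: a non-empty part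
has at least `p + 1` vertices, at most two are non-empty. `A - x1`, `B`, `C`, `D - x0` are
non-empty (`z ≥ 2`). So `C = A - x1` (impossible, sizes `z` and `z - 1`) or `C = B`; then
`x0 ∈ D` is completely joined to `B`, so `d_X(x0) ≥ z`, contradiction. -/
def T_CC : Prop := ∀ (V : Type) [DecidableEq V] (e : V → V → ℕ) (X A B C D : Finset V) (p : ℕ)
  (x0 x1 : V), Sym e → Star e X → X.card = 3 * p + 2 → 1 ≤ p →
  (∀ v ∈ X, dg e X v + 1 ≤ 2 * p) → x0 ∈ X → x1 ∈ X → x0 ≠ x1 → CP e (X.erase x0) A B →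
  ¬ CP e (X.erase x1) C D

/-- C. Case C. PROOF. `3 ∤ |X|` and there is no barrier, so `e x0 y0 = 0` for some `x0 ∈ X`,
`y0 ∈ Y`. If `X - x0` has no complete partition, C1. Else `X - x0 = A + B`. If some
`x1 ∈ X - x0` has a non-neighbour in `Y`: by CC `X - x1` has no complete partition, C1 with `x1`.
Else `A`, `B`, `Y` are pairwise completely joined (`A`, `B` non-empty), so `|B| + |Y|`,
`|A| + |Y|`, `|A| + |B|` are at most `2p + 2q + 1` (degrees of vertices of `A`, `B`, `Y`), but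
their sum is `2(3p + 1 + 3q + 1) = 6p + 6q + 4 > 3(2p + 2q + 1)`. -/
def T_C : Prop := ∀ (V : Type) [DecidableEq V] (e : V → V → ℕ) (X Y : Finset V) (p q : ℕ),
  Cfg e X Y p q → 1 ≤ p → (∀ v ∈ X, dg e X v + 1 ≤ 2 * p) → ¬ Barrier e (X ∪ Y) →
  Fact e (X ∪ Y)

/-- D21. PROOF. If two non-adjacent vertices of `X` have inner degree `2p`: A. For `p = 0` this
holds (`|X| = 2`, `dX`). Else if some `u ∈ X` has `d_X(u) = 2p`: B. Else C. -/
def T_D21 : Prop := ∀ (V : Type) [DecidableEq V] (e : V → V → ℕ) (X Y : Finset V) (p q : ℕ),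
  Cfg e X Y p q → ¬ Barrier e (X ∪ Y) → Fact e (X ∪ Y)

/-- MAIN. One step from a maximum cut. PROOF. `X`, `Y` both non-empty. `|X| + |Y| = 3k`.
If `3 ∣ |X|`, `|X| = 3p`, `|Y| = 3q`, `p, q ≥ 1`, `p, q < k`: by DEG the degrees are at most
`2p - 1`, `2q - 1`, by NCP there is no barrier, so both sides are `Fact` by `ih`; FU (1). Else
exchange `X` and `Y` such that `|X| = 3p + 2`, `|Y| = 3q + 1`, `k = p + q + 1`: `Cfg` holds (DEG:
`6d + 5 ≤ 12p + 8` gives `d ≤ 2p`, `6d + 5 ≤ 12q + 4` gives `d ≤ 2q - 1`; `fY` by ER and `ih q`),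
D21. -/
def T_MAIN : Prop := ∀ (V : Type) [DecidableEq V] (e : V → V → ℕ) (X Y : Finset V) (k : ℕ),
  Sym e → Disjoint X Y → X.Nonempty → Y.Nonempty → (X ∪ Y).card = 3 * k →
  (∀ v ∈ X ∪ Y, dg e (X ∪ Y) v + 1 ≤ 2 * k) → Star e X → Star e Y → ¬ Barrier e (X ∪ Y) →
  (∀ j < k, MGk V j) → Fact e (X ∪ Y)

/-- POS. It is enough to treat multigraphs with a cut of positive value. PROOF. Induction on the
total deficiency `∑ v ∈ S, (2k - 1 - d_S(v))`. If `HasPos e S` use the hypothesis. Else, if two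
different vertices `v, v' ∈ S` have `d_S ≤ 2k - 2`, let `e'` be `e` with one more edge `v v'`
(`e' v v' = e v v' + 1 = e' v' v`). `Barrier e' S` would give a partition `A + B` with `3 ∤ |A|`,
all cross pairs but one adjacent in `e`, so `3 e(A,B) ≥ 3(|A||B| - 1) > 2|A||B|` (as
`|A||B| ≥ |A| + |B| - 1 = 3k - 1 ≥ 5`), i.e. `HasPos e S`, contradiction. So `Fact e' S` by
induction, hence `Fact e S` (FU (2)). Else at most one vertex has `d_S ≤ 2k - 2`; take a full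
vertex `x` (`d_S(x) = 2k - 1`); it has at most `2k - 1` neighbours, so at least
`3k - 1 - (2k - 1) = k ≥ 2` other vertices are non-neighbours, one of them full, say `x'`. The
cut `{x, x'}` has value `3(4k - 2) - 4(3k - 2) = 2 > 0`, contradiction. -/
def T_POS : Prop := ∀ (V : Type) [DecidableEq V] (S : Finset V) (k : ℕ), 2 ≤ k →
  S.card = 3 * k →
  (∀ e' : V → V → ℕ, Sym e' → (∀ v ∈ S, dg e' S v + 1 ≤ 2 * k) → ¬ Barrier e' S →
    HasPos e' S → Fact e' S) →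
  ∀ e : V → V → ℕ, Sym e → (∀ v ∈ S, dg e S v + 1 ≤ 2 * k) → ¬ Barrier e S → Fact e S

/-- MG. PROOF. Strong induction on `k`. `k = 0`: FU (4). `k = 1`: three vertices with degrees at
most `1`: `2(e a b + e a c + e b c) ≤ 3`. `k ≥ 2`: by POS assume `HasPos e S`. Take `X ⊆ S`
maximising the integer `3 E e X (S \ X) - 2 |X| |S \ X|` (`Finset.exists_max_image` on
`S.powerset`); the maximum is positive, so `X` and `S \ X` are non-empty. `Star` for both by STAR,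
then MAIN. -/
def T_MG : Prop := ∀ (V : Type) [DecidableEq V] (k : ℕ), MGk V k

end Pool.Agent.MGT
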