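import Pool.Agent.MGT.Targets2
import Pool.Agent.MGT.Targets

set_option autoImplicit false

/-!
# MGT: the target T_BAR
-/

open Finset

namespace Pool.Agent.MGT

namespace BAR_

theorem dg_ge {V : Type} (e : V → V → ℕ) (Y : Finset V) (x : V) (h : ∀ y ∈ Y, 1 ≤ e x y) :
    Y.card + (Y.filter fun y => 2 ≤ e x y).card ≤ dg e Y x := by
  unfold dg
  rw [card_eq_sum_ones, card_filter, ← Finset.sum_add_distrib]
  apply Finset.sum_le_sum
  intro y hy
  have h1 := h y hy
  split_ifs with h2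
  · omega
  · omega

theorem aux {V : Type} [DecidableEq V] (h_EB : T_EB) (e : V → V → ℕ) (X Y : Finset V) (k : ℕ)
    (hs : Sym e) (hcard : (X ∪ Y).card = 3 * k) (hd : ∀ v ∈ X ∪ Y, dg e (X ∪ Y) v + 1 ≤ 2 * k)
    (hX : X.Nonempty) (hY : Y.Nonempty) (hdisj : Disjoint X Y) (hcpl : Cpl e X Y)
    (hmod : X.card % 3 = 1) : ∃ α β, k = α + β + 2 ∧ Bar e X Y α β := by
  obtain ⟨-, -, -, -, hadd, -, -, -, -⟩ := h_EB V e hs
  have hc : X.card + Y.card = 3 * k := by
    rw [← hcard, card_union_of_disjoint hdisj]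
  have hXx : ∀ x ∈ X, dg e X x + (Y.card + (Y.filter fun y => 2 ≤ e x y).card) + 1 ≤ 2 * k := by
    intro x hx
    have h1 := hd x (mem_union_left _ hx)
    rw [hadd X Y x hdisj] at h1
    have h2 := dg_ge e Y x (fun y hy => hcpl x hx y hy)
    omega
  have hYy : ∀ y ∈ Y, dg e Y y + (X.card + (X.filter fun x => 2 ≤ e x y).card) + 1 ≤ 2 * k := by
    intro y hy
    have h1 := hd y (mem_union_right _ hy)
    rw [hadd X Y y hdisj] at h1
    have h2 := dg_ge e X y (fun x hx => by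
      rw [hs.1 y x]
      exact hcpl x hx y hy)
    have h3 : (X.filter fun x => 2 ≤ e x y) = X.filter fun x => 2 ≤ e y x := by
      apply Finset.filter_congr
      intro x _
      rw [hs.1 x y]
    rw [h3]
    omega
  obtain ⟨x0, hx0⟩ := hX
  obtain ⟨y0, hy0⟩ := hY
  have h1 := hXx x0 hx0
  have h2 := hYy y0 hy0
  refine ⟨2 * k - 1 - Y.card, 2 * k - 1 - X.card, by omega, hs, hdisj, by omega, by omega,
    by omega, hcpl, ?_, ?_⟩
  · intro x hx
    have := hXx x hx
    omega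
  · intro y hy
    have := hYy y hy
    omega

end BAR_

open BAR_

theorem p_BAR (h_EB : T_EB) : T_BAR := by
  rintro V _ e S k hs hcard hd ⟨A, B, ⟨hA, hB, hdisj, rfl, hcpl⟩, h3⟩
  have hc : A.card + B.card = 3 * k := by
    rw [← hcard, card_union_of_disjoint hdisj]
  rcases (by omega : A.card % 3 = 1 ∨ B.card % 3 = 1) with h | h
  · obtain ⟨α, β, h1, h2⟩ := aux h_EB e A B k hs hcard hd hA hB hdisj hcpl h
    exact ⟨A, B, α, β, rfl, h1, h2⟩
  · have hcpl' : Cpl e B A := by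
      intro b hb a ha
      rw [hs.1 b a]
      exact hcpl a ha b hb
    obtain ⟨α, β, h1, h2⟩ := aux h_EB e B A k hs (by rw [union_comm]; exact hcard)
      (by rw [union_comm]; exact hd) hB hA hdisj.symm hcpl' h
    exact ⟨B, A, α, β, union_comm _ _, h1, h2⟩

end Pool.Agent.MGT
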