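import Pool.Agent.MGT.Targets2

set_option autoImplicit false

/-!
# MGT: the target T_BARR
-/

open Finset

namespace Pool.Agent.MGT

/-- The common end of all cases: two crossing cyclic triangles. -/
lemma BARR_fin (h_MIS : T_MIS) (h_CYC2 : T_CYC2) (V : Type) [DecidableEq V] [Fintype V]
    (D : Digraph V) (X Y P M : Finset V) (α β k : ℕ) (T : Fin k → Digraph (Fin 3))
    (hl : ∀ v, ¬ D.Adj v v) (hB : Bar (mis D) X Y α β) (hXY : X ∪ Y = univ)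
    (hc : Fintype.card V = 3 * k) (hT : ∀ i, Tour (T i)) (hn : ∀ j, ¬ Trs (T j))
    (hPM : P ∪ M = X) (hd : Disjoint P M)
    (hP : ∀ x ∈ P, ∀ y ∈ Y, ¬ D.Adj y x) (hM : ∀ x ∈ M, ∀ y ∈ Y, ¬ D.Adj x y)
    (u1 u2 w1 w2 y1 y2 : V) (hu1 : u1 ∈ M) (hu2 : u2 ∈ M) (hw1 : w1 ∈ P) (hw2 : w2 ∈ P)
    (hy1 : y1 ∈ Y) (hy2 : y2 ∈ Y) (hu : u1 ≠ u2) (hw : w1 ≠ w2) (hy : y1 ≠ y2)
    (h1 : mis D u1 w1 = 0) (h2 : mis D u2 w2 = 0)
    (h3 : mis D u1 y1 ≤ 1) (h4 : mis D w1 y1 ≤ 1) (h5 : mis D u2 y2 ≤ 1) (h6 : mis D w2 y2 ≤ 1)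
    (hF : Fact (mis D) (X \ {u1, u2, w1, w2})) : Tiles D T univ univ := by
  obtain ⟨-, -, m3, m4, -⟩ := h_MIS V D
  have hPX : ∀ w ∈ P, w ∈ X := fun w hw' => by rw [← hPM]; exact mem_union_left _ hw'
  have hMX : ∀ w ∈ M, w ∈ X := fun w hw' => by rw [← hPM]; exact mem_union_right _ hw'
  have hne : ∀ u ∈ M, ∀ w ∈ P, u ≠ w := fun u hu' w hw' h =>
    (Finset.disjoint_left.mp hd) hw' (h ▸ hu')
  have hxy : ∀ x ∈ X, ∀ y ∈ Y, x ≠ y := fun x hx y hy' h =>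
    (Finset.disjoint_left.mp hB.disj) hx (h ▸ hy')
  have hA : ∀ u ∈ M, ∀ y ∈ Y, mis D u y ≤ 1 → D.Adj y u := by
    intro u hu' y hy' h
    have e1 : mis D u y = 1 := le_antisymm h (hB.cpl u (hMX u hu') y hy')
    rcases m4 u y (hxy u (hMX u hu') y hy') e1 with h' | h'
    · exact absurd h'.1 (hM u hu' y hy')
    · exact h'.1
  have hA' : ∀ w ∈ P, ∀ y ∈ Y, mis D w y ≤ 1 → D.Adj w y := by
    intro w hw' y hy' h
    have e1 : mis D w y = 1 := le_antisymm h (hB.cpl w (hPX w hw') y hy')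
    rcases m4 w y (hxy w (hPX w hw') y hy') e1 with h' | h'
    · exact h'.1
    · exact absurd h'.1 (hP w hw' y hy')
  exact h_CYC2 V D X Y α β k T u1 u2 w1 w2 y1 y2 hl hB hXY hc hT hn (hMX _ hu1) (hMX _ hu2)
    (hPX _ hw1) (hPX _ hw2) hy1 hy2 hu hw (hne _ hu1 _ hw1) (hne _ hu1 _ hw2) (hne _ hu2 _ hw1)
    (hne _ hu2 _ hw2) hy (hA _ hu1 _ hy1 h3) (m3 _ _ (hne _ hu1 _ hw1) h1).1
    (hA' _ hw1 _ hy1 h4) (hA _ hu2 _ hy2 h5) (m3 _ _ (hne _ hu2 _ hw2) h2).1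
    (hA' _ hw2 _ hy2 h6) hF

theorem p_BARR (h_MIS : T_MIS) (h_TRI : T_TRI) (h_CYC1 : T_CYC1) (h_CYC2 : T_CYC2)
    (h_SPL : T_SPL) (h_TWO : T_TWO) (h_RE2 : T_RE2) (h_SPE : T_SPE) (h_SMA : T_SMA) :
    T_BARR := by
  intro V _ _ D X Y α β k T hl hB hXY hc hT hS
  by_cases hn : ∃ j, Trs (T j)
  · exact h_TRI V D X Y α β k T hl hB hXY hc hT hn
  have hn' : ∀ j, ¬ Trs (T j) := fun j h => hn ⟨j, h⟩
  by_cases hx : ∃ x ∈ X, ∃ y ∈ Y, ∃ y' ∈ Y, y ≠ y' ∧ D.Adj x y ∧ D.Adj y y' ∧ D.Adj y' x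
  · exact h_CYC1 V D X Y α β k T hl hB hXY hc hT hn' hx
  obtain ⟨P, M, hPM, hd, hP2, hM2, hP, hM⟩ := h_SPL V D X Y α β hl hB hXY hS hx
  have hPX : ∀ w ∈ P, w ∈ X := fun w hw' => by rw [← hPM]; exact mem_union_left _ hw'
  have hMX : ∀ w ∈ M, w ∈ X := fun w hw' => by rw [← hPM]; exact mem_union_right _ hw'
  have hne : ∀ u ∈ M, ∀ w ∈ P, u ≠ w := fun u hu' w hw' h =>
    (Finset.disjoint_left.mp hd) hw' (h ▸ hu')
  obtain ⟨u1, hu1, u2, hu2, w1, hw1, w2, hw2, y1, hy1, y2, hy2, hu, hw, hy, h1, h2, h3, h4, h5,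
    h6⟩ := h_TWO V (mis D) X Y P M α β hB hPM hd hP2 hM2
  have key := BARR_fin h_MIS h_CYC2 V D X Y P M α β k T hl hB hXY hc hT hn' hPM hd hP hM
  rcases Nat.eq_zero_or_pos β with hb | hb
  · subst hb
    -- all cross pairs have multiplicity at most one
    have hle : ∀ x ∈ X, ∀ y ∈ Y, mis D x y ≤ 1 := by
      intro x hx' y hy'
      have hdY := hB.dY y hy'
      have h0 : (X.filter fun x => 2 ≤ mis D x y).card = 0 := by omega
      rw [Finset.card_eq_zero, Finset.filter_eq_empty_iff] at h0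
      have := h0 hx'
      omega
    have hmod := hB.hmod
    have key2 : (∃ a1 ∈ M, ∃ a2 ∈ M, ∃ b1 ∈ P, ∃ b2 ∈ P, a1 ≠ a2 ∧ b1 ≠ b2 ∧
        mis D a1 b1 = 0 ∧ mis D a2 b2 = 0 ∧ Fact (mis D) (X \ {a1, a2, b1, b2})) →
        Tiles D T univ univ := by
      rintro ⟨a1, ha1, a2, ha2, b1, hb1, b2, hb2, ha, hb, e1, e2, hF⟩
      exact key a1 a2 b1 b2 y1 y2 ha1 ha2 hb1 hb2 hy1 hy2 ha hb hy e1 e2
        (hle _ (hMX _ ha1) _ hy1) (hle _ (hPX _ hb1) _ hy1)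
        (hle _ (hMX _ ha2) _ hy2) (hle _ (hPX _ hb2) _ hy2) hF
    rcases lt_or_ge α 5 with ha | ha
    · have ha2 : α = 2 := by omega
      subst ha2
      apply key2
      refine h_SMA V (mis D) X P M hB.sym hB.cX ?_ hPM hd hP2 hM2
      intro x hx'
      have := hB.dX x hx'
      omega
    · exact key2 (h_SPE V (mis D) X Y P M α u1 u2 w1 w2 hB ha hPM hd hu1 hu2 hw1 hw2 hu hw h1 h2)
  · have hR : ({u1, u2, w1, w2} : Finset V) ⊆ X := by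
      intro z hz
      simp only [mem_insert, mem_singleton] at hz
      rcases hz with rfl | rfl | rfl | rfl
      · exact hMX _ hu1
      · exact hMX _ hu2
      · exact hPX _ hw1
      · exact hPX _ hw2
    have hcard : ({u1, u2, w1, w2} : Finset V).card = 4 := by
      rw [Finset.card_insert_of_notMem, Finset.card_insert_of_notMem, Finset.card_pair hw]
      · simp only [mem_insert, mem_singleton, not_or]
        exact ⟨hne _ hu2 _ hw1, hne _ hu2 _ hw2⟩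
      · simp only [mem_insert, mem_singleton, not_or]
        exact ⟨hu, hne _ hu1 _ hw1, hne _ hu1 _ hw2⟩
    exact key u1 u2 w1 w2 y1 y2 hu1 hu2 hw1 hw2 hy1 hy2 hu hw hy h1 h2 h3 h4 h5 h6
      (h_RE2 V (mis D) X Y _ α β hB hb hR hcard)

end Pool.Agent.MGT
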