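import Pool.Agent.MGT.Targets2

set_option autoImplicit false

open Finset

namespace Pool.Agent.MGT

theorem p_CYC1 (h_RE1 : T_RE1) (h_EMB : T_EMB) (h_FTI : T_FTI) (h_TIL : T_TIL) : T_CYC1 := by
  intro V _ _ D X Y α β k T hl hB hXY hcard hT hnT hex
  obtain ⟨x, hx, y, hy, y', hy', hyy, a1, a2, a3⟩ := hex
  obtain ⟨t1, t2, t3, -⟩ := h_TIL V (Fin k) D T
  have hxy : x ≠ y := fun h => (Finset.disjoint_left.mp hB.disj hx) (h ▸ hy)
  have hxy' : x ≠ y' := fun h => (Finset.disjoint_left.mp hB.disj hx) (h ▸ hy')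
  have hk : k = α + β + 2 := by
    have h1 : (X ∪ Y).card = X.card + Y.card := Finset.card_union_of_disjoint hB.disj
    rw [hXY, Finset.card_univ, hcard, hB.cX, hB.cY] at h1
    omega
  have hk0 : 0 < k := by omega
  obtain ⟨r1, r2⟩ := h_RE1 V (mis D) X Y α β hB
  have f1 := r1 x hx
  have f2 := r2 y hy y' hy' hyy
  have c1 : (X.erase x).card = 2 * α + β + 2 := by
    rw [Finset.card_erase_of_mem hx, hB.cX]; omega
  have c2 : ((Y.erase y).erase y').card = α + 2 * β + 1 := by
    rw [Finset.card_erase_of_mem (Finset.mem_erase.mpr ⟨hyy.symm, hy'⟩),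
      Finset.card_erase_of_mem hy, hB.cY]; omega
  have hmod := hB.hmod
  set j : Fin k := ⟨0, hk0⟩ with hj
  have cI : (univ.erase j : Finset (Fin k)).card = α + β + 1 := by
    rw [Finset.card_erase_of_mem (Finset.mem_univ j), Finset.card_univ, Fintype.card_fin]; omega
  obtain ⟨I1, hI1, cI1⟩ := Finset.exists_subset_card_eq
    (s := (univ.erase j : Finset (Fin k))) (n := (2 * α + β + 2) / 3) (by omega)
  have cI2 : ((univ.erase j : Finset (Fin k)) \ I1).card = α + β + 1 - (2 * α + β + 2) / 3 := by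
    rw [Finset.card_sdiff_of_subset hI1, cI, cI1]
  haveI : Nonempty V := ⟨x⟩
  have T1 : Tiles D T I1 (X.erase x) := h_FTI V (Fin k) D T hT _ f1 I1 (by rw [c1, cI1]; omega)
  have T2 : Tiles D T ((univ.erase j : Finset (Fin k)) \ I1) ((Y.erase y).erase y') :=
    h_FTI V (Fin k) D T hT _ f2 _ (by rw [c2, cI2]; omega)
  obtain ⟨-, -, e3⟩ := h_EMB V D (T j) (hT j)
  obtain ⟨g, g1, g2, g3⟩ := e3 x y y' (hnT j) hxy hxy' hyy a1 a2 a3
  have T3 : Tiles D T {j} ({x, y, y'} : Finset V) := t3 j g _ g1 g2 g3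
  have T4 : Tiles D T (I1 ∪ ((univ.erase j : Finset (Fin k)) \ I1))
      ((X.erase x) ∪ ((Y.erase y).erase y')) := by
    refine t1 _ _ _ _ T1 T2 Finset.disjoint_sdiff ?_
    rw [Finset.disjoint_left]
    intro v hv hv2
    exact (Finset.disjoint_left.mp hB.disj (Finset.mem_of_mem_erase hv))
      (Finset.mem_of_mem_erase (Finset.mem_of_mem_erase hv2))
  have hI : I1 ∪ ((univ.erase j : Finset (Fin k)) \ I1) = univ.erase j :=
    Finset.union_sdiff_of_subset hI1
  rw [hI] at T4
  have T5 := t1 _ _ _ _ T3 T4 (by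
      rw [Finset.disjoint_singleton_left]; exact Finset.notMem_erase j univ) (by
      rw [Finset.disjoint_left]
      intro v hv hv2
      rw [Finset.mem_union] at hv2
      simp only [Finset.mem_insert, Finset.mem_singleton] at hv
      rcases hv with h | h | h
      · subst h
        rcases hv2 with h2 | h2
        · exact (Finset.notMem_erase v X) h2
        · exact (Finset.disjoint_left.mp hB.disj hx)
            (Finset.mem_of_mem_erase (Finset.mem_of_mem_erase h2))
      · subst h
        rcases hv2 with h2 | h2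
        · exact (Finset.disjoint_left.mp hB.disj (Finset.mem_of_mem_erase h2)) hy
        · exact (Finset.notMem_erase v Y) (Finset.mem_of_mem_erase h2)
      · subst h
        rcases hv2 with h2 | h2
        · exact (Finset.disjoint_left.mp hB.disj (Finset.mem_of_mem_erase h2)) hy'
        · exact (Finset.notMem_erase v (Y.erase y)) h2)
  have hU : ({j} : Finset (Fin k)) ∪ univ.erase j = univ := by
    ext i
    simp only [Finset.mem_union, Finset.mem_singleton, Finset.mem_erase, Finset.mem_univ, and_true,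
      iff_true]
    exact em _
  rw [hU] at T5
  exact t2 _ _ _ T5 (Finset.subset_univ _)

end Pool.Agent.MGT
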