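import Pool.Agent.MGT.Targets2

set_option autoImplicit false

/-!
# MGT, part 2: two crossing cyclic triangles
-/

open Finset

namespace Pool.Agent.MGT

namespace CYC2_

/-- Splitting `Fin k` into two single indices and two sets of prescribed sizes. -/
theorem split_indices {k a b : ℕ} (hk : k = a + b + 2) :
    ∃ (i j : Fin k) (I J : Finset (Fin k)), i ≠ j ∧ I.card = a ∧ J.card = b ∧
      Disjoint ({i} : Finset (Fin k)) {j} ∧ Disjoint ({i} ∪ {j}) I ∧
      Disjoint ({i} ∪ {j} ∪ I) J ∧ {i} ∪ {j} ∪ I ∪ J = univ := by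
  classical
  have h0 : 0 < k := by omega
  have h1 : 1 < k := by omega
  have hij : (⟨0, h0⟩ : Fin k) ≠ ⟨1, h1⟩ := by
    intro h
    have := congrArg Fin.val h
    simp at this
  set i : Fin k := ⟨0, h0⟩ with hi
  set j : Fin k := ⟨1, h1⟩ with hj
  have hR : ((univ.erase i).erase j).card = a + b := by
    have hj' : j ∈ univ.erase i := mem_erase.2 ⟨fun h => hij h.symm, mem_univ _⟩
    rw [card_erase_of_mem hj', card_erase_of_mem (mem_univ i), card_univ, Fintype.card_fin]
    omega
  obtain ⟨I, hI, hIc⟩ := exists_subset_card_eq (s := (univ.erase i).erase j) (n := a)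
    (by rw [hR]; omega)
  refine ⟨i, j, I, ((univ.erase i).erase j) \ I, hij, hIc, ?_, ?_, ?_, ?_, ?_⟩
  · rw [card_sdiff_of_subset hI, hR, hIc]
    omega
  · rw [disjoint_singleton]
    exact hij
  · rw [disjoint_left]
    intro x hx hxI
    have := hI hxI
    simp only [mem_erase, mem_univ, and_true] at this
    simp only [mem_union, mem_singleton] at hx
    tauto
  · rw [disjoint_left]
    intro x hx hxJ
    simp only [mem_sdiff, mem_erase, mem_univ, and_true] at hxJ
    simp only [mem_union, mem_singleton] at hx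
    tauto
  · ext x
    simp only [mem_union, mem_singleton, mem_sdiff, mem_erase, mem_univ, and_true, iff_true]
    tauto

end CYC2_

theorem p_CYC2 (h_RE1 : T_RE1) (h_EMB : T_EMB) (h_FTI : T_FTI) (h_TIL : T_TIL) : T_CYC2 := by
  intro V _ _ D X Y α β k T u1 u2 w1 w2 y1 y2 hD hB hXY hcard hT hTr hu1 hu2 hw1 hw2 hy1 hy2
    huu hww h11 h12 h21 h22 hyy a1 b1 c1 a2 b2 c2 hF
  obtain ⟨-, hRY⟩ := h_RE1 V (mis D) X Y α β hB
  have hFY := hRY y1 hy1 y2 hy2 hyy
  obtain ⟨hT1, hT2, hT3, -⟩ := h_TIL V (Fin k) D T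
  have hdis := hB.disj
  have hX := hB.cX
  have hY := hB.cY
  have hmod := hB.hmod
  -- the number of vertices
  have hk : 3 * k = (2 * α + β + 3) + (α + 2 * β + 3) := by
    rw [← hcard, ← card_univ, ← hXY, card_union_of_disjoint hdis, hX, hY]
  -- the four vertices of `X`
  have hR4 : ({u1, u2, w1, w2} : Finset V).card = 4 := by
    rw [card_insert_of_notMem, card_insert_of_notMem, card_insert_of_notMem, card_singleton]
    · simpa using hww
    · simp only [mem_insert, mem_singleton, not_or]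
      exact ⟨h21, h22⟩
    · simp only [mem_insert, mem_singleton, not_or]
      exact ⟨huu, h11, h12⟩
  have hRX : ({u1, u2, w1, w2} : Finset V) ⊆ X := by
    intro v hv
    simp only [mem_insert, mem_singleton] at hv
    rcases hv with rfl | rfl | rfl | rfl <;> assumption
  have hXR : (X \ {u1, u2, w1, w2}).card + 4 = 2 * α + β + 3 := by
    have := card_sdiff_add_card_eq_card hRX
    rw [hR4, hX] at this
    exact this
  have hYR : ((Y.erase y1).erase y2).card + 2 = α + 2 * β + 3 := by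
    have hy2' : y2 ∈ Y.erase y1 := mem_erase.2 ⟨fun h => hyy h.symm, hy2⟩
    rw [card_erase_of_mem hy2', card_erase_of_mem hy1, hY]
    omega
  obtain ⟨i, j, I, J, hij, hI, hJ, d1, d2, d3, hun⟩ :=
    CYC2_.split_indices (k := k) (a := (2 * α + β + 3 - 4) / 3)
      (b := (α + 2 * β + 3 - 2) / 3) (by omega)
  -- the four pieces
  have ny1 : ∀ v ∈ X, y1 ≠ v := fun v hv h => disjoint_left.1 hdis (h ▸ hv) hy1
  have ny2 : ∀ v ∈ X, y2 ≠ v := fun v hv h => disjoint_left.1 hdis (h ▸ hv) hy2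
  obtain ⟨g1, g1i, g1m, g1a⟩ := (h_EMB V D (T i) (hT i)).2.2 y1 u1 w1 (hTr i)
    (ny1 u1 hu1) (ny1 w1 hw1) h11 a1 b1 c1
  obtain ⟨g2, g2i, g2m, g2a⟩ := (h_EMB V D (T j) (hT j)).2.2 y2 u2 w2 (hTr j)
    (ny2 u2 hu2) (ny2 w2 hw2) h22 a2 b2 c2
  have t1 : Tiles D T {i} ({y1, u1, w1} : Finset V) := hT3 i g1 _ g1i g1m g1a
  have t2 : Tiles D T {j} ({y2, u2, w2} : Finset V) := hT3 j g2 _ g2i g2m g2a
  haveI : Nonempty V := ⟨y1⟩
  have t3 : Tiles D T I (X \ {u1, u2, w1, w2}) :=
    h_FTI V (Fin k) D T hT _ hF I (by omega)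
  have t4 : Tiles D T J ((Y.erase y1).erase y2) :=
    h_FTI V (Fin k) D T hT _ hFY J (by omega)
  have s1 : Disjoint ({y1, u1, w1} : Finset V) {y2, u2, w2} := by
    rw [disjoint_left]
    intro v hv hv'
    simp only [mem_insert, mem_singleton] at hv hv'
    rcases hv with rfl | rfl | rfl <;> rcases hv' with h | h | h
    · exact hyy h
    · exact ny1 u2 hu2 h
    · exact ny1 w2 hw2 h
    · exact ny2 _ hu1 h.symm
    · exact huu h
    · exact h12 h
    · exact ny2 _ hw1 h.symm
    · exact h21 h.symm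
    · exact hww h
  have s2 : Disjoint (({y1, u1, w1} : Finset V) ∪ {y2, u2, w2}) (X \ {u1, u2, w1, w2}) := by
    rw [disjoint_left]
    intro v hv hv'
    simp only [mem_union, mem_insert, mem_singleton] at hv
    simp only [mem_sdiff, mem_insert, mem_singleton, not_or] at hv'
    obtain ⟨hvX, n1, n2, n3, n4⟩ := hv'
    rcases hv with (h | h | h) | (h | h | h)
    · exact ny1 v hvX h.symm
    · exact n1 h
    · exact n3 h
    · exact ny2 v hvX h.symm
    · exact n2 h
    · exact n4 h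
  have s3 : Disjoint (({y1, u1, w1} : Finset V) ∪ {y2, u2, w2} ∪ (X \ {u1, u2, w1, w2}))
      ((Y.erase y1).erase y2) := by
    rw [disjoint_left]
    intro v hv hv'
    simp only [mem_union, mem_insert, mem_singleton, mem_sdiff, not_or] at hv
    simp only [mem_erase, ne_eq] at hv'
    obtain ⟨n2, n1, hvY⟩ := hv'
    have nX : v ∉ X := fun h => disjoint_left.1 hdis h hvY
    rcases hv with ((h | h | h) | (h | h | h)) | h
    · exact n1 h
    · exact nX (h ▸ hu1)
    · exact nX (h ▸ hw1)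
    · exact n2 h
    · exact nX (h ▸ hu2)
    · exact nX (h ▸ hw2)
    · exact nX h.1
  have t12 := hT1 _ _ _ _ t1 t2 d1 s1
  have t123 := hT1 _ _ _ _ t12 t3 d2 s2
  have t1234 := hT1 _ _ _ _ t123 t4 d3 s3
  rw [hun] at t1234
  exact hT2 _ _ _ t1234 (subset_univ _)

end Pool.Agent.MGT
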