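import Pool.Agent.MGT.Targets2

set_option autoImplicit false

/-!
# MGT, target EMB: embeddings of tournaments on three vertices
-/

open Finset

namespace Pool.Agent.MGT

namespace EMB_

/-- The tournament with the arcs given by three truth values. -/
def ta (t01 t12 t20 : Bool) : Fin 3 → Fin 3 → Bool :=
  ![![false, t01, !t20], ![!t01, false, t12], ![t20, !t12, false]]

/-- The digraph with the arcs given by six truth values. -/
def da (d01 d02 d10 d12 d20 d21 : Bool) : Fin 3 → Fin 3 → Bool :=
  ![![false, d01, d02], ![d10, false, d12], ![d20, d21, false]]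

/-- The six permutations. -/
def pe : Fin 6 → Fin 3 → Fin 3 :=
  ![![0, 1, 2], ![0, 2, 1], ![1, 0, 2], ![1, 2, 0], ![2, 0, 1], ![2, 1, 0]]

/-- A permutation embeds the tournament. -/
def ok (t01 t12 t20 d01 d02 d10 d12 d20 d21 : Bool) : Bool :=
  decide (∃ p : Fin 6, ∀ i j : Fin 3, ta t01 t12 t20 i j = true →
    da d01 d02 d10 d12 d20 d21 (pe p i) (pe p j) = true)

/-- At most one of six truth values is false. -/
def am (d01 d02 d10 d12 d20 d21 : Bool) : Bool :=
  decide (d01.toNat + d02.toNat + d10.toNat + d12.toNat + d20.toNat + d21.toNat ≥ 5)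

set_option maxRecDepth 100000 in
lemma key1 : ∀ t01 t12 t20 d01 d02 d10 d12 d20 d21 : Bool,
    am d01 d02 d10 d12 d20 d21 = true → ok t01 t12 t20 d01 d02 d10 d12 d20 d21 = true := by
  decide

set_option maxRecDepth 100000 in
lemma key2 : ∀ t01 t12 t20 d01 d02 d10 d20 : Bool, ¬ (t01 = t12 ∧ t12 = t20) →
    (d01 || d10) = true → (d02 || d20) = true →
      ok t01 t12 t20 d01 d02 d10 true d20 true = true := by
  decide

set_option maxRecDepth 100000 in
lemma key3 : ∀ t01 d02 d10 d21 : Bool,
    ok t01 t01 t01 true d02 d10 true true d21 = true := by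
  decide

lemma pe_inj : ∀ p, Function.Injective (pe p) := by decide

variable {V : Type} [DecidableEq V]

open scoped Classical in
/-- From truth values to the digraph. -/
lemma transfer (D : Digraph V) (T : Digraph (Fin 3)) (hT : Tour T) (a b c : V) (hab : a ≠ b)
    (hac : a ≠ c) (hbc : b ≠ c)
    (h : ok (decide (T.Adj 0 1)) (decide (T.Adj 1 2)) (decide (T.Adj 2 0)) (decide (D.Adj a b))
      (decide (D.Adj a c)) (decide (D.Adj b a)) (decide (D.Adj b c)) (decide (D.Adj c a))
      (decide (D.Adj c b)) = true) :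
    ∃ g : Fin 3 → V, Function.Injective g ∧
      (∀ i, g i ∈ ({a, b, c} : Finset V)) ∧ ∀ i j, T.Adj i j → D.Adj (g i) (g j) := by
  obtain ⟨p, hp⟩ := of_decide_eq_true h
  have hv : Function.Injective (![a, b, c] : Fin 3 → V) := by
    intro i j hij
    fin_cases i <;> fin_cases j <;> simp_all
  have hd : ∀ i j : Fin 3, da (decide (D.Adj a b)) (decide (D.Adj a c)) (decide (D.Adj b a))
      (decide (D.Adj b c)) (decide (D.Adj c a)) (decide (D.Adj c b)) i j = true →
      D.Adj ((![a, b, c] : Fin 3 → V) i) ((![a, b, c] : Fin 3 → V) j) := by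
    intro i j
    fin_cases i <;> fin_cases j <;> simp [da]
  have ht : ∀ i j : Fin 3, T.Adj i j → ta (decide (T.Adj 0 1)) (decide (T.Adj 1 2))
      (decide (T.Adj 2 0)) i j = true := by
    intro i j hij
    have h10 := hT.2 1 0 (by decide)
    have h21 := hT.2 2 1 (by decide)
    have h02 := hT.2 0 2 (by decide)
    have h00 := hT.1 0
    have h11 := hT.1 1
    have h22 := hT.1 2
    fin_cases i <;> fin_cases j <;> simp_all [ta]
  refine ⟨fun i => (![a, b, c] : Fin 3 → V) (pe p i), hv.comp (pe_inj p), ?_, ?_⟩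
  · intro i
    have : ∀ j : Fin 3, (![a, b, c] : Fin 3 → V) j ∈ ({a, b, c} : Finset V) := by
      intro j
      fin_cases j <;> simp
    exact this _
  · intro i j hij
    exact hd _ _ (hp i j (ht i j hij))

open scoped Classical in
lemma mis_eq (D : Digraph V) (u v : V) (h : u ≠ v) :
    mis D u v = (1 - (decide (D.Adj u v)).toNat) + (1 - (decide (D.Adj v u)).toNat) := by
  unfold mis
  rw [if_neg h]
  by_cases h1 : D.Adj u v <;> by_cases h2 : D.Adj v u <;> simp [h1, h2]

open scoped Classical in
/-- Transitivity in terms of truth values. -/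
lemma trs_iff (T : Digraph (Fin 3)) (hT : Tour T) : Trs T ↔
    ¬ (decide (T.Adj 0 1) = decide (T.Adj 1 2) ∧ decide (T.Adj 1 2) = decide (T.Adj 2 0)) := by
  have h10 := hT.2 1 0 (by decide)
  have h21 := hT.2 2 1 (by decide)
  have h02 := hT.2 0 2 (by decide)
  unfold Trs
  constructor
  · rintro ⟨i, hi⟩ ⟨h1, h2⟩
    fin_cases i
    · have a1 := hi 1 (by decide)
      have a2 := hi 2 (by decide)
      simp_all
    · have a1 := hi 0 (by decide)
      have a2 := hi 2 (by decide)
      simp_all
    · have a1 := hi 0 (by decide)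
      have a2 := hi 1 (by decide)
      simp_all
  · intro h
    by_cases a : T.Adj 0 1 <;> by_cases b : T.Adj 1 2 <;> by_cases c : T.Adj 2 0
    · exact absurd ⟨by simp [a, b], by simp [b, c]⟩ h
    · exact ⟨0, fun j hj => by fin_cases j <;> simp_all⟩
    · exact ⟨2, fun j hj => by fin_cases j <;> simp_all⟩
    · exact ⟨0, fun j hj => by fin_cases j <;> simp_all⟩
    · exact ⟨1, fun j hj => by fin_cases j <;> simp_all⟩
    · exact ⟨1, fun j hj => by fin_cases j <;> simp_all⟩
    · exact ⟨2, fun j hj => by fin_cases j <;> simp_all⟩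
    · exact absurd ⟨by simp [a, b], by simp [b, c]⟩ h

end EMB_

open EMB_ in
open scoped Classical in
/-- EMB. Embeddings into triples. -/
theorem p_EMB : T_EMB := by
  intro V _ D T hT
  refine ⟨?_, ?_, ?_⟩
  · rintro a b c ⟨hab, hac, hbc, h⟩
    apply transfer D T hT a b c hab hac hbc
    apply key1
    rw [mis_eq D a b hab, mis_eq D a c hac, mis_eq D b c hbc] at h
    apply decide_eq_true
    have l1 := Bool.toNat_le (decide (D.Adj a b))
    have l2 := Bool.toNat_le (decide (D.Adj a c))
    have l3 := Bool.toNat_le (decide (D.Adj b a))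
    have l4 := Bool.toNat_le (decide (D.Adj b c))
    have l5 := Bool.toNat_le (decide (D.Adj c a))
    have l6 := Bool.toNat_le (decide (D.Adj c b))
    omega
  · intro x y y' hTr hxy hxy' hyy' h1 h2 h3
    apply transfer D T hT x y y' hxy hxy' hyy'
    rw [mis_eq D x y hxy] at h1
    rw [mis_eq D x y' hxy'] at h2
    rw [mis_eq D y y' hyy'] at h3
    have a1 : decide (D.Adj y y') = true := by
      cases h : decide (D.Adj y y') with
      | true => rfl
      | false => simp [h] at h3
    have a2 : decide (D.Adj y' y) = true := by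
      cases h : decide (D.Adj y' y) with
      | true => rfl
      | false => simp [h] at h3
    rw [a1, a2]
    apply key2
    · exact (trs_iff T hT).mp hTr
    · cases h : decide (D.Adj x y) <;> cases h' : decide (D.Adj y x) <;> simp [h, h'] at h1 ⊢
    · cases h : decide (D.Adj x y') <;> cases h' : decide (D.Adj y' x) <;> simp [h, h'] at h2 ⊢
  · intro x y z hTr hxy hxz hyz h1 h2 h3
    apply transfer D T hT x y z hxy hxz hyz
    have h4 : decide (T.Adj 0 1) = decide (T.Adj 1 2) ∧
        decide (T.Adj 1 2) = decide (T.Adj 2 0) := by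
      by_contra hc
      exact hTr ((trs_iff T hT).mpr hc)
    rw [← h4.2, ← h4.1]
    simp only [h1, h2, h3, decide_true]
    exact key3 _ _ _ _

end Pool.Agent.MGT
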