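import Pool.Agent.MGT.Targets2

set_option autoImplicit false

open Finset

namespace Pool.Agent.MGT

theorem p_FINx (h_MG : T_MG') (h_MIS : T_MIS) (h_MISD : T_MISD) (h_FTI : T_FTI) (h_TIL : T_TIL)
    (h_BAR : T_BAR) (h_BARR : T_BARR) : T_FIN := by
  intro k D hloop hk hconn hdeg T hT
  haveI : Nonempty (Fin (3 * k)) := ⟨⟨0, by omega⟩⟩
  have hd : ∀ v ∈ (Finset.univ : Finset (Fin (3 * k))), dg (mis D) Finset.univ v + 1 ≤ 2 * k := by
    intro v _
    have h1 := h_MISD (Fin (3 * k)) D v hloop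
    have h2 := hdeg v
    rw [Fintype.card_fin] at h1
    omega
  have hsym := (h_MIS (Fin (3 * k)) D).1
  have ht : Tiles D T Finset.univ Finset.univ := by
    by_cases hB : Barrier (mis D) Finset.univ
    · obtain ⟨X, Y, α, β, hXY, -, hb⟩ :=
        h_BAR (Fin (3 * k)) (mis D) Finset.univ k hsym (by simp) hd hB
      exact h_BARR (Fin (3 * k)) D X Y α β k T hloop hb hXY (by simp) hT hconn
    · have hF := h_MG (Fin (3 * k)) k (mis D) Finset.univ hsym (by simp) hd hB
      exact h_FTI (Fin (3 * k)) (Fin k) D T hT Finset.univ hF Finset.univ (by simp)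
  exact (h_TIL (Fin (3 * k)) (Fin k) D T).2.2.2 Finset.univ ht

end Pool.Agent.MGT
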