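import Pool.Agent.MGT.Targets2

set_option autoImplicit false

/-!
# MGT, part 2: `Fact` gives `Tiles`
-/

open Finset

namespace Pool.Agent.MGT

namespace FTI_

theorem main (h_EMB : T_EMB) (h_TIL : T_TIL) (V ι : Type) [DecidableEq V] [DecidableEq ι]
    [Nonempty V] (D : Digraph V) (T : ι → Digraph (Fin 3)) (hT : ∀ i, Tour (T i))
    (S : Finset V) (hF : Fact (mis D) S) :
    ∀ I : Finset ι, S.card = 3 * I.card → Tiles D T I S := by
  induction hF with
  | nil =>
    intro I hI
    have h0 : I = ∅ := by
      rw [← Finset.card_eq_zero]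
      simp only [Finset.card_empty] at hI
      omega
    subst h0
    obtain ⟨v⟩ := ‹Nonempty V›
    exact ⟨fun _ _ => v, by simp, by simp, by simp⟩
  | add S a b c _ ha hb hc hg ih =>
    intro I hI
    obtain ⟨hab, hac, hbc, -⟩ := id hg
    have hcard : (insert a (insert b (insert c S))).card = S.card + 3 := by
      rw [Finset.card_insert_of_notMem, Finset.card_insert_of_notMem,
        Finset.card_insert_of_notMem hc]
      · simp [hbc, hb]
      · simp [hab, hac, ha]
    have hpos : I.Nonempty := by
      rw [← Finset.card_pos]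
      omega
    obtain ⟨i, hi⟩ := hpos
    have h1 : (I.erase i).card = I.card - 1 := Finset.card_erase_of_mem hi
    have h2 := ih (I.erase i) (by omega)
    obtain ⟨t1, t2, t3, -⟩ := h_TIL V ι D T
    obtain ⟨g, gi, gm, ga⟩ := (h_EMB V D (T i) (hT i)).1 a b c hg
    have h3 := t3 i g {a, b, c} gi gm ga
    have hd : Disjoint S ({a, b, c} : Finset V) := by
      rw [Finset.disjoint_left]
      intro x hx hx'
      simp only [Finset.mem_insert, Finset.mem_singleton] at hx'
      rcases hx' with rfl | rfl | rfl
      · exact ha hx
      · exact hb hx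
      · exact hc hx
    have hdi : Disjoint (I.erase i) ({i} : Finset ι) := by simp
    have h4 := t1 _ _ _ _ h2 h3 hdi hd
    have e1 : I.erase i ∪ {i} = I := by
      ext j
      simp only [Finset.mem_union, Finset.mem_erase, Finset.mem_singleton]
      by_cases hj : j = i
      · subst hj; simp [hi]
      · simp [hj]
    have e2 : S ∪ {a, b, c} = insert a (insert b (insert c S)) := by
      ext x
      simp only [Finset.mem_union, Finset.mem_insert, Finset.mem_singleton]
      tauto
    rw [e1, e2] at h4
    exact h4

end FTI_

theorem p_FTI (h_EMB : T_EMB) (h_TIL : T_TIL) : T_FTI := by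
  intro V ι _ _ _ D T hT S hF I hI
  exact FTI_.main h_EMB h_TIL V ι D T hT S hF I hI

end Pool.Agent.MGT
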