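import Pool.Agent.MGT.Targets2

set_option autoImplicit false

open Finset

namespace Pool.Agent.MGT

namespace RE1_

variable {V : Type} [DecidableEq V]

theorem dg_mono {e : V → V → ℕ} {S T : Finset V} (h : S ⊆ T) (v : V) : dg e S v ≤ dg e T v :=
  Finset.sum_le_sum_of_subset h

theorem card_le_dg {e : V → V → ℕ} {S B : Finset V} {v : V} (h : B ⊆ S)
    (hB : ∀ b ∈ B, 1 ≤ e v b) : B.card ≤ dg e S v := by
  refine le_trans ?_ (dg_mono h v)
  unfold dg
  rw [Finset.card_eq_sum_ones]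
  exact Finset.sum_le_sum hB

theorem fact_of (h : T_MG') {e : V → V → ℕ} (hs : Sym e) (S : Finset V) (a m : ℕ)
    (hc : S.card = 3 * a) (hd : ∀ v ∈ S, dg e S v ≤ m) (h1 : m + 1 ≤ 2 * a)
    (h2 : 2 * m < 3 * a) : Fact e S := by
  refine h V a e S hs hc (fun v hv => by have := hd v hv; omega) ?_
  rintro ⟨A, B, ⟨hA, hB, hdis, hAB, hcp⟩, -⟩
  obtain ⟨x, hx⟩ := hA
  obtain ⟨y, hy⟩ := hB
  have hAS : A ⊆ S := hAB ▸ subset_union_left
  have hBS : B ⊆ S := hAB ▸ subset_union_right
  have e1 : B.card ≤ m := (card_le_dg hBS (fun b hb => hcp x hx b hb)).trans (hd x (hAS hx))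
  have e2 : A.card ≤ m := by
    refine (card_le_dg hAS (fun b hb => ?_)).trans (hd y (hBS hy))
    rw [hs.1 y b]
    exact hcp b hb y hy
  have e3 : A.card + B.card = S.card := by
    rw [← Finset.card_union_of_disjoint hdis, hAB]
  omega

end RE1_

open RE1_ in
theorem p_RE1 (h_MG : T_MG') : T_RE1 := by
  intro V _ e X Y α β hb
  have hm := hb.hmod
  have cX := hb.cX
  have cY := hb.cY
  refine ⟨fun x hx => ?_, fun y hy y' hy' hne => ?_⟩
  · have c1 : (X.erase x).card = 2 * α + β + 2 := by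
      rw [Finset.card_erase_of_mem hx, cX]
      omega
    obtain ⟨a, ha⟩ : ∃ a, 2 * α + β + 2 = 3 * a := ⟨(2 * α + β + 2) / 3, by omega⟩
    refine fact_of h_MG hb.sym _ a α (by rw [c1, ha]) (fun v hv => ?_) (by omega) (by omega)
    have := hb.dX v (Finset.mem_of_mem_erase hv)
    exact (dg_mono (Finset.erase_subset _ _) v).trans (by omega)
  · have hy2 : y' ∈ Y.erase y := Finset.mem_erase.2 ⟨hne.symm, hy'⟩
    have c1 : ((Y.erase y).erase y').card = α + 2 * β + 1 := by
      rw [Finset.card_erase_of_mem hy2, Finset.card_erase_of_mem hy, cY]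
      omega
    obtain ⟨a, ha⟩ : ∃ a, α + 2 * β + 1 = 3 * a := ⟨(α + 2 * β + 1) / 3, by omega⟩
    refine fact_of h_MG hb.sym _ a β (by rw [c1, ha]) (fun v hv => ?_) (by omega) (by omega)
    have hvY : v ∈ Y := Finset.mem_of_mem_erase (Finset.mem_of_mem_erase hv)
    have := hb.dY v hvY
    exact (dg_mono ((Finset.erase_subset _ _).trans (Finset.erase_subset _ _)) v).trans
      (by omega)

end Pool.Agent.MGT
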