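import Pool.Agent.MGT.Defs2

set_option autoImplicit false

/-!
# MGT targets, part 2: (MG) implies the case `s = 3` of MP_1b96da_co (all `k`, all tournaments)

`T_MG'` is the statement of (MG), proved in `Pool.Agent.MGT.Main` (`mg`).
-/

open Finset

namespace Pool.Agent.MGT

/-- (MG), already proved: `Pool.Agent.MGT.mg` in `Main.lean` has exactly this type. -/
def T_MG' : Prop := ∀ (V : Type) [DecidableEq V] (k : ℕ), MGk V k

/-- MIS. PROOF. Unfold. For (3): the number of missing out-arcs and in-arcs of `v` is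
`2(n - 1) - (out + in)`. -/
def T_MIS : Prop := ∀ (V : Type) [DecidableEq V] [Fintype V] (D : Digraph V),
  Sym (mis D) ∧ (∀ u v, mis D u v ≤ 2) ∧
  (∀ u v, u ≠ v → mis D u v = 0 → D.Adj u v ∧ D.Adj v u) ∧
  (∀ u v, u ≠ v → mis D u v = 1 → (D.Adj u v ∧ ¬ D.Adj v u) ∨ (D.Adj v u ∧ ¬ D.Adj u v)) ∧
  (∀ u v, u ≠ v → ¬ D.Adj u v → 1 ≤ mis D u v)

open scoped Classical in
/-- MISD. PROOF. `dg (mis D) univ v + out(v) + in(v) = 2(n - 1)` for a loopless `D`: each `w ≠ v`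
contributes `2` on the left. -/
def T_MISD : Prop := ∀ (V : Type) [DecidableEq V] [Fintype V] (D : Digraph V) (v : V),
  (∀ a, ¬ D.Adj a a) →
  dg (mis D) univ v + ((univ.filter fun w => D.Adj v w).card +
    (univ.filter fun w => D.Adj w v).card) + 2 = 2 * Fintype.card V

/-- TIL. Basic facts on `Tiles`. PROOF. (1) glue the two functions with `if i ∈ I`. (2) clear.
(3) `f` with `f i = g`. (4) uncurry. -/
def T_TIL : Prop := ∀ (V ι : Type) [DecidableEq V] [DecidableEq ι] (D : Digraph V)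
  (T : ι → Digraph (Fin 3)),
  (∀ I J S S', Tiles D T I S → Tiles D T J S' → Disjoint I J → Disjoint S S' →
    Tiles D T (I ∪ J) (S ∪ S')) ∧
  (∀ I S S', Tiles D T I S → S ⊆ S' → Tiles D T I S') ∧
  (∀ (i : ι) (g : Fin 3 → V) (S : Finset V), Function.Injective g → (∀ a, g a ∈ S) →
    (∀ a b, (T i).Adj a b → D.Adj (g a) (g b)) → Tiles D T {i} S) ∧
  (∀ [Fintype ι] (S : Finset V), Tiles D T univ S →
    ∃ f : ι × Fin 3 → V, Function.Injective f ∧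
      ∀ i a b, (T i).Adj a b → D.Adj (f (i, a)) (f (i, b)))

/-- EMB. Embeddings into triples. `D` is loopless. PROOF. (1) At most one arc between the three
vertices is missing, say `u → v`; a tournament on `Fin 3` has an arc `p → q`; send `p` to `v`,
`q` to `u` and the third to the third. (2) `x` is joined to `y` and to `y'` by at least one arc
and `y`, `y'` by both arcs; a transitive `T`: `p` dominates `q`, `r` and `q → r` (say). If
`x → y`, `x → y'`: `p ↦ x`. If `y → x`, `y' → x`: `r ↦ x` (`p ↦ y`, `q ↦ y'`). If `x → y`,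
`y' → x`: `q ↦ x`, `p ↦ y'`, `r ↦ y`; the last case symmetric. (3) A tournament on `Fin 3` which is
not transitive is a cyclic triangle. -/
def T_EMB : Prop := ∀ (V : Type) [DecidableEq V] (D : Digraph V) (T : Digraph (Fin 3)), Tour T →
  (∀ a b c, Good (mis D) a b c → ∃ g : Fin 3 → V, Function.Injective g ∧
    (∀ i, g i ∈ ({a, b, c} : Finset V)) ∧ ∀ i j, T.Adj i j → D.Adj (g i) (g j)) ∧
  (∀ x y y', Trs T → x ≠ y → x ≠ y' → y ≠ y' → mis D x y ≤ 1 → mis D x y' ≤ 1 →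
    mis D y y' = 0 → ∃ g : Fin 3 → V, Function.Injective g ∧
    (∀ i, g i ∈ ({x, y, y'} : Finset V)) ∧ ∀ i j, T.Adj i j → D.Adj (g i) (g j)) ∧
  (∀ x y z, ¬ Trs T → x ≠ y → x ≠ z → y ≠ z → D.Adj x y → D.Adj y z → D.Adj z x →
    ∃ g : Fin 3 → V, Function.Injective g ∧
    (∀ i, g i ∈ ({x, y, z} : Finset V)) ∧ ∀ i j, T.Adj i j → D.Adj (g i) (g j))

/-- FTI. `Fact` gives `Tiles`. PROOF. Induction on `Fact`, EMB (1), TIL (1), (3): for the step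
choose `i ∈ I` and use `I.erase i`. -/
def T_FTI : Prop := ∀ (V ι : Type) [DecidableEq V] [DecidableEq ι] [Nonempty V] (D : Digraph V)
  (T : ι → Digraph (Fin 3)), (∀ i, Tour (T i)) → ∀ (S : Finset V), Fact (mis D) S →
  ∀ I : Finset ι, S.card = 3 * I.card → Tiles D T I S

/-- BAR. From a barrier to `Bar`. PROOF. `S = A + B` complete, `3 ∤ |A|`, `|A| + |B| = 3k`: one of
the parts has size `≡ 1 (mod 3)`, call it `X`, the other `Y`. A vertex of `X` is adjacent to all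
of `Y`, so `|Y| ≤ 2k - 1`; put `α = 2k - 1 - |Y|`, `β = 2k - 1 - |X|`; `|X| + |Y| = 3k` gives
`k = α + β + 2`, `|X| = 2α + β + 3`, `|Y| = α + 2β + 3`. For `x ∈ X`: `d_Y(x) ≥ |Y| + n2(x)`, `n2` the
number of `y` with `e x y ≥ 2`, and `d_X(x) + d_Y(x) ≤ 2k - 1`. Same for `Y`. -/
def T_BAR : Prop := ∀ (V : Type) [DecidableEq V] (e : V → V → ℕ) (S : Finset V) (k : ℕ),
  Sym e → S.card = 3 * k → (∀ v ∈ S, dg e S v + 1 ≤ 2 * k) → Barrier e S →
  ∃ X Y α β, X ∪ Y = S ∧ k = α + β + 2 ∧ Bar e X Y α β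

/-- RE1. PROOF. (MG). (1) `|X - x| = 2α + β + 2 = 3a`; degrees at most `α` and `α + 1 ≤ 2a`. A
complete partition `P + Q` of `X - x` has `|P|, |Q| ≤ α` (degrees), but `2α < 2α + β + 2`.
(2) `|Y - y - y'| = α + 2β + 1 = 3b`, degrees at most `β`, `β + 1 ≤ 2b` (as `(α, β) ≠ (0, 0)` by
`hmod`), and `2β < α + 2β + 1`. -/
def T_RE1 : Prop := ∀ (V : Type) [DecidableEq V] (e : V → V → ℕ) (X Y : Finset V) (α β : ℕ),
  Bar e X Y α β → (∀ x ∈ X, Fact e (X.erase x)) ∧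
  (∀ y ∈ Y, ∀ y' ∈ Y, y ≠ y' → Fact e ((Y.erase y).erase y'))

/-- TR1. PROOF. `x ∈ X` any, `N = {y ∈ Y : e x y ≤ 1}`, `|N| ≥ |Y| - α = 2β + 3`; a vertex `y ∈ N`
has at most `β` neighbours in `Y`, so some `y' ∈ N`, `y' ≠ y`, has `e y y' = 0`. -/
def T_TR1 : Prop := ∀ (V : Type) [DecidableEq V] (e : V → V → ℕ) (X Y : Finset V) (α β : ℕ),
  Bar e X Y α β → ∃ x ∈ X, ∃ y ∈ Y, ∃ y' ∈ Y, y ≠ y' ∧ e x y ≤ 1 ∧ e x y' ≤ 1 ∧ e y y' = 0

/-- SPL. PROOF. If `x ∈ X` had an out-neighbour and an in-neighbour in `Y`: `O`, `I` the sets of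
out- and in-neighbours in `Y`, disjoint (`mis D x y ≥ 1`), `|O| + |I| = |{y : mis D x y ≤ 1}| ≥
|Y| - α = 2β + 3`. No arc from `O` to `I` (cyclic triangle `x → y → y' → x`), so
`mis D y y' ≥ 1`, `|I| ≤ β` and `|O| ≤ β`, contradiction. So `X = P ∪ M`, `P = {x ∈ X : no arc from
Y to x}`, `M = {x ∈ X : no arc from x to Y}`, disjoint (each `x` is joined to `2β + 3` vertices of
`Y`). If `|P| ≤ 1`, take `z ∈ X` with `P ⊆ {z}`; from a vertex of `X - z` (`|X| ≥ 3`) one stays in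
`X - z` when `z` is deleted (induction on `ReflTransGen`), so no vertex of `Y` is reached. If
`|M| ≤ 1`, `M ⊆ {z}`: from a vertex of `Y` one stays in `Y`. -/
def T_SPL : Prop := ∀ (V : Type) [DecidableEq V] [Fintype V] (D : Digraph V) (X Y : Finset V)
  (α β : ℕ), (∀ v, ¬ D.Adj v v) → Bar (mis D) X Y α β → X ∪ Y = univ →
  (∀ x u v : V, u ≠ x → v ≠ x →
    Relation.ReflTransGen (fun a b => a ≠ x ∧ b ≠ x ∧ D.Adj a b) u v) →
  (¬ ∃ x ∈ X, ∃ y ∈ Y, ∃ y' ∈ Y, y ≠ y' ∧ D.Adj x y ∧ D.Adj y y' ∧ D.Adj y' x) →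
  ∃ P M, P ∪ M = X ∧ Disjoint P M ∧ 2 ≤ P.card ∧ 2 ≤ M.card ∧
    (∀ x ∈ P, ∀ y ∈ Y, ¬ D.Adj y x) ∧ (∀ x ∈ M, ∀ y ∈ Y, ¬ D.Adj x y)

/-- TWO. Two disjoint triangles `y → u → w → y`. PROOF. For `u ∈ X`: at most `α` vertices `w ∈ X`
with `e u w ≥ 1` and `N(u) = {y ∈ Y : e u y ≤ 1}` has at least `|Y| - α = 2β + 3` elements; for
`y ∈ Y`: `X(y) = {x ∈ X : e x y ≤ 1}` has at least `|X| - β = 2α + 3` elements.
(i) `|M| ≤ α + 1`: then `|P ∩ X(y)| ≥ α + 2` for all `y`. Take `u1 ≠ u2` in `M`, `y1 ∈ N(u1)`,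
`y2 ∈ N(u2)`, `y2 ≠ y1`, `w1 ∈ P ∩ X(y1)` with `e u1 w1 = 0` (2 choices), `w2 ∈ P ∩ X(y2)`,
`w2 ≠ w1`, `e u2 w2 = 0`. (i') `|P| ≤ α + 1`: the same with `P`, `M` exchanged.
(ii) `|M|, |P| ≥ α + 2` and `α ≤ 2β + 1`: `u1 ≠ u2` in `M`, `w1 ≠ w2` in `P` with `e ui wi = 0` (at
least 2 choices each), `|N(ui) ∩ N(wi)| ≥ |Y| - 2α = 2β + 3 - α ≥ 2`, so different `yi` exist.
(iii) `|M|, |P| ≥ α + 2`, `α ≥ 2β + 2`: take `y1 ≠ y2` in `Y`. `M ∩ X(y1)`, `P ∩ X(y1)` have at least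
`α + 2 - β ≥ 1` elements and together at least `2α + 3`, so one has at least `α + 1`; take a vertex
of the other and a partner with `e = 0` in it. For `y2` the same with `M ∩ X(y2) - u1`,
`P ∩ X(y2) - w1` (at least `α + 1 - β ≥ 1` each, together at least `2α + 1`). -/
def T_TWO : Prop := ∀ (V : Type) [DecidableEq V] (e : V → V → ℕ) (X Y P M : Finset V)
  (α β : ℕ), Bar e X Y α β → P ∪ M = X → Disjoint P M → 2 ≤ P.card → 2 ≤ M.card →
  ∃ u1 ∈ M, ∃ u2 ∈ M, ∃ w1 ∈ P, ∃ w2 ∈ P, ∃ y1 ∈ Y, ∃ y2 ∈ Y, u1 ≠ u2 ∧ w1 ≠ w2 ∧ y1 ≠ y2 ∧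
    e u1 w1 = 0 ∧ e u2 w2 = 0 ∧ e u1 y1 ≤ 1 ∧ e w1 y1 ≤ 1 ∧ e u2 y2 ≤ 1 ∧ e w2 y2 ≤ 1

/-- RE2. PROOF. `|X \ R| = 2α + β - 1 = 3a'`. If `(α, β) = (0, 1)` it is empty. Else
`α + 2β ≥ 5` (`hmod`: `β ≡ α + 1 (mod 3)`, `β ≥ 1`), so `α + 1 ≤ 2a'`. A complete partition `P + Q`
has `|P|, |Q| ≤ α`, so `2α + β - 1 ≤ 2α`, `β = 1`, `|P| = |Q| = α` and `2α = 3a'` gives `3 ∣ α`: no
barrier. (MG). -/
def T_RE2 : Prop := ∀ (V : Type) [DecidableEq V] (e : V → V → ℕ) (X Y R : Finset V)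
  (α β : ℕ), Bar e X Y α β → 1 ≤ β → R ⊆ X → R.card = 4 → Fact e (X \ R)

/-- SPE. The case `β = 0`, `α ≥ 5`. PROOF. Let `R = {u1, u2, w1, w2}`, `|X \ R| = 2α - 1 = 3a'`,
`α + 1 ≤ 2a'`. If there is no barrier in `X \ R`, (MG). Else `X \ R = A + B` complete with
`3 ∤ |A|`; `|A|, |B| ≤ α`, so one (say `A`) has size `α`, the other `α - 1`. A vertex `q ∈ B` is
adjacent to all of `A`, so (`d_X(q) ≤ α`) `e q v = 0` for all `v ∈ X \ A`. A vertex of `A` has at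
most one edge to `X \ B`. Take `q ∈ B`. If `q ∈ P`: for some `i ∈ {1, 2}` there is `p0 ∈ A` with
`e wi p0 = 0` (else a vertex of `A` has two edges to `X \ B`). Replace `wi` by `q` (`e ui q = 0`):
`X \ R' = A ∪ (B - q) ∪ {wi}` has no complete partition `C + D`: say `wi ∈ D`; all vertices of
`B - q` and `p0` are non-neighbours of `wi`, so in `D`; a vertex of `A` in `C` would have edges to
`wi` and to `p0`, two edges to `X \ B`. So `C = ∅`. (MG). If `q ∈ M`: replace `ui` by `q` in the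
same way. -/
def T_SPE : Prop := ∀ (V : Type) [DecidableEq V] (e : V → V → ℕ) (X Y P M : Finset V)
  (α : ℕ) (u1 u2 w1 w2 : V), Bar e X Y α 0 → 5 ≤ α → P ∪ M = X → Disjoint P M → u1 ∈ M →
  u2 ∈ M → w1 ∈ P → w2 ∈ P → u1 ≠ u2 → w1 ≠ w2 → e u1 w1 = 0 → e u2 w2 = 0 →
  ∃ a1 ∈ M, ∃ a2 ∈ M, ∃ b1 ∈ P, ∃ b2 ∈ P, a1 ≠ a2 ∧ b1 ≠ b2 ∧ e a1 b1 = 0 ∧ e a2 b2 = 0 ∧
    Fact e (X \ {a1, a2, b1, b2})

/-- SMA. The case `β = 0`, `α = 2`: seven vertices. `X` has seven vertices and all degrees in `X`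
are at most 2. `A u w` (arc from `u` to `w`) holds if `e u w = 0`. WLOG `|M| ≤ |P|` (the statement
is symmetric under exchange of `P`, `M` with `A` reversed). PROOF. Let `u ≠ v` be in `M`, `Mu` the
set of `w ∈ P` with `e u w ≥ 1`, `Mv` similarly. For a pair `{w, z}` in `P` the needed matching
`u w, v z` or `u z, v w` (with `e = 0`) fails only if `{w, z} ⊆ Mu`, `{w, z} ⊆ Mv`, or one of `w`,
`z` is in `Mu ∩ Mv` (and otherwise, if `w ∈ Mu`, `z ∈ Mv`, use `u z`, `v w`).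
(a) some `w ∈ Mu ∩ Mv`: then `w` has no other edges. If `w' ≠ w` is also in `Mu ∩ Mv`, then
`Mu = Mv = {w, w'}`; take the pair in `P - w - w'` (any two if `|P| = 5`, the two if `|P| = 4`); the
remaining triple contains `w` and `w'` and spans no edge. Else `u` and `v` have at most one
neighbour each in `P - w`, different ones, so the matching exists for every pair in `P - w`; the
remaining triple is `w` and two vertices `t`, `q` (`|P| = 5`: any two of `P - w`; `|P| = 4`: `t` the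
third vertex of `M`, `q ∈ P - w`), it spans `e t q` edges, and `e t q + e t q' ≤ 2`, so `q` can be
chosen with `e t q ≤ 1`.
(b) `Mu ∩ Mv = ∅`, `|P| = 5`: count the ten pairs; a pair is bad if its complement in `P` spans at
least two edges or it is `Mu` or `Mv`. With `m` edges in `P` and `c` edges from `{u, v}` to `P`:
`2m + c ≤ 10`, bad pairs `≤ 3m/2 + c/2 ≤ 7.5`. `|P| = 4`, `t` the third vertex of `M`: six pairs
`{w, z}`, remaining triple `t` and the other two; bad `≤ (m + 3c(t) + c(u) + c(v))/2` with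
`2m + c(t) + c(u) + c(v) ≤ 8`, so at most `2 + (5c(t) + c(u) + c(v))/4 ≤ 5.5`. -/
def T_SMA : Prop := ∀ (V : Type) [DecidableEq V] (e : V → V → ℕ) (X P M : Finset V), Sym e →
  X.card = 7 → (∀ x ∈ X, dg e X x ≤ 2) → P ∪ M = X → Disjoint P M → 2 ≤ P.card →
  2 ≤ M.card → ∃ a1 ∈ M, ∃ a2 ∈ M, ∃ b1 ∈ P, ∃ b2 ∈ P, a1 ≠ a2 ∧ b1 ≠ b2 ∧ e a1 b1 = 0 ∧
    e a2 b2 = 0 ∧ Fact e (X \ {a1, a2, b1, b2})

/-- TRI. Transitive case. PROOF. TR1 gives `x, y, y'`; `T j` goes there (EMB (2)); the rest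
`X - x`, `Y - y - y'` is `Fact` (RE1), so split `univ.erase j` into two parts of sizes
`|X - x|/3`, `|Y - y - y'|/3` and use FTI and TIL. -/
def T_TRI : Prop := ∀ (V : Type) [DecidableEq V] [Fintype V] (D : Digraph V) (X Y : Finset V)
  (α β k : ℕ) (T : Fin k → Digraph (Fin 3)), (∀ v, ¬ D.Adj v v) → Bar (mis D) X Y α β →
  X ∪ Y = univ → Fintype.card V = 3 * k → (∀ i, Tour (T i)) → (∃ j, Trs (T j)) →
  Tiles D T univ univ

/-- CYC1. One crossing cyclic triangle. PROOF. As TRI with EMB (3) for `T ⟨0, _⟩`. -/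
def T_CYC1 : Prop := ∀ (V : Type) [DecidableEq V] [Fintype V] (D : Digraph V) (X Y : Finset V)
  (α β k : ℕ) (T : Fin k → Digraph (Fin 3)), (∀ v, ¬ D.Adj v v) → Bar (mis D) X Y α β →
  X ∪ Y = univ → Fintype.card V = 3 * k → (∀ i, Tour (T i)) → (∀ j, ¬ Trs (T j)) →
  (∃ x ∈ X, ∃ y ∈ Y, ∃ y' ∈ Y, y ≠ y' ∧ D.Adj x y ∧ D.Adj y y' ∧ D.Adj y' x) →
  Tiles D T univ univ

/-- CYC2. Two crossing cyclic triangles. PROOF. `yi → ui → wi → yi` are cyclic triangles; place two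
of the `T i` there (`k = α + β + 2 ≥ 2`, from the cards), the rest is `Fact`
(`X \ {u1, u2, w1, w2}` by hypothesis, `Y - y1 - y2` by RE1). -/
def T_CYC2 : Prop := ∀ (V : Type) [DecidableEq V] [Fintype V] (D : Digraph V) (X Y : Finset V)
  (α β k : ℕ) (T : Fin k → Digraph (Fin 3)) (u1 u2 w1 w2 y1 y2 : V), (∀ v, ¬ D.Adj v v) →
  Bar (mis D) X Y α β → X ∪ Y = univ → Fintype.card V = 3 * k → (∀ i, Tour (T i)) →
  (∀ j, ¬ Trs (T j)) → u1 ∈ X → u2 ∈ X → w1 ∈ X → w2 ∈ X → y1 ∈ Y → y2 ∈ Y → u1 ≠ u2 →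
  w1 ≠ w2 → u1 ≠ w1 → u1 ≠ w2 → u2 ≠ w1 → u2 ≠ w2 → y1 ≠ y2 →
  D.Adj y1 u1 → D.Adj u1 w1 → D.Adj w1 y1 → D.Adj y2 u2 → D.Adj u2 w2 → D.Adj w2 y2 →
  Fact (mis D) (X \ {u1, u2, w1, w2}) → Tiles D T univ univ

/-- BARR. The barrier case. PROOF. If some `T j` is transitive: TRI. Else if there is a crossing
cyclic triangle with one vertex in `X`: CYC1. Else SPL gives `P`, `M`, TWO gives the `ui, wi, yi`.
For `u ∈ M`, `y ∈ Y` with `mis D u y ≤ 1`: `D.Adj y u` (it is `≥ 1` by `cpl`, and `u → y` is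
excluded), for `w ∈ P`: `D.Adj w y`. If `β ≥ 1`: RE2 with `R = {u1, u2, w1, w2}`, CYC2. If
`β = 0`: `hmod` gives `α % 3 = 2`; all cross pairs have `mis = 1` (`dY` with `β = 0`), so any two
different `y1, y2 ∈ Y` do; `α ≥ 5`: SPE, `α = 2`: SMA, then CYC2. -/
def T_BARR : Prop := ∀ (V : Type) [DecidableEq V] [Fintype V] (D : Digraph V) (X Y : Finset V)
  (α β k : ℕ) (T : Fin k → Digraph (Fin 3)), (∀ v, ¬ D.Adj v v) → Bar (mis D) X Y α β →
  X ∪ Y = univ → Fintype.card V = 3 * k → (∀ i, Tour (T i)) →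
  (∀ x u v : V, u ≠ x → v ≠ x →
    Relation.ReflTransGen (fun a b => a ≠ x ∧ b ≠ x ∧ D.Adj a b) u v) →
  Tiles D T univ univ

open scoped Classical in
/-- FIN. The case `s = 3` of Q1. PROOF. `e = mis D`, `S = univ`. Degrees: MISD with
`2 * 3k - 2 - (4k - 1) = 2k - 1`. If no barrier: (MG), FTI with `I = univ`, TIL (4). Else BAR,
BARR, TIL (4). -/
def T_FIN : Prop := ∀ (k : ℕ) (D : Digraph (Fin (3 * k))), (∀ v, ¬ D.Adj v v) → 1 ≤ k →
  (∀ x u v : Fin (3 * k), u ≠ x → v ≠ x →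
    Relation.ReflTransGen (fun a b => a ≠ x ∧ b ≠ x ∧ D.Adj a b) u v) →
  (∀ v : Fin (3 * k), 4 * k - 1 ≤ (univ.filter (fun w => D.Adj v w)).card +
    (univ.filter (fun w => D.Adj w v)).card) →
  ∀ T : Fin k → Digraph (Fin 3), (∀ i, Tour (T i)) →
  ∃ f : Fin k × Fin 3 → Fin (3 * k), Function.Injective f ∧
    ∀ i a b, (T i).Adj a b → D.Adj (f (i, a)) (f (i, b))

end Pool.Agent.MGT
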