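import Pool.Agent.MGT.Targets
import Pool.Agent.MGT.Targets2

set_option autoImplicit false

open Finset

namespace Pool.Agent.MGT

/-- RE2. -/
theorem p_RE2 (h_MG : T_MG') (h_EB : T_EB) : T_RE2 := by
  intro V _ e X Y R α β hB hβ hR hR4
  obtain ⟨hsym, -, hcX, -, hmod, -, hdX, -⟩ := hB
  obtain ⟨-, -, -, -, -, -, -, hmono, hcpl⟩ := h_EB V e hsym
  have hcard : (X \ R).card + 4 = 2 * α + β + 3 := by
    rw [← hR4, card_sdiff_add_card_eq_card hR, hcX]
  have hdeg : ∀ v ∈ X, ∀ T ⊆ X, dg e T v ≤ α := by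
    intro v hv T hT
    have h1 := hmono T X v hT
    have h2 := hdX v hv
    omega
  obtain ⟨a, ha⟩ : ∃ a, (X \ R).card = 3 * a := ⟨(X \ R).card / 3, by omega⟩
  by_cases h0 : a = 0
  · have h1 : X \ R = ∅ := by
      rw [← card_eq_zero]
      omega
    rw [h1]
    exact Fact.nil
  refine h_MG V a e (X \ R) hsym ha ?_ ?_
  · intro v hv
    have h1 := hdeg v (mem_sdiff.mp hv).1 (X \ R) sdiff_subset
    omega
  · rintro ⟨P, Q, ⟨hP, hQ, hd, hu, hc⟩, h3⟩
    have hPX : P ⊆ X := (subset_union_left.trans hu.subset).trans sdiff_subset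
    have hQX : Q ⊆ X := (subset_union_right.trans hu.subset).trans sdiff_subset
    obtain ⟨p, hp⟩ := hP
    obtain ⟨q, hq⟩ := hQ
    have hc' : Cpl e Q P := by
      intro b hb a ha
      rw [hsym.1 b a]
      exact hc a ha b hb
    have h1 := (hcpl P Q p hp hc).trans (hdeg p (hPX hp) Q hQX)
    have h2 := (hcpl Q P q hq hc').trans (hdeg q (hQX hq) P hPX)
    have h4 : P.card + Q.card = (X \ R).card := by
      rw [← hu, card_union_of_disjoint hd]
    exact h3 (by omega)

end Pool.Agent.MGT
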