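import Pool.Agent.MGT.Targets2

set_option autoImplicit false

/-!
# MGT part 2: the seven vertices (SMA)
-/

open Finset

namespace Pool.Agent.MGT

namespace SMA_

/-- The linear arithmetic of the case of two vertices in `M`. -/
lemma ar2 (x02 x03 x04 x05 x06 x12 x13 x14 x15 x16 x23 x24 x25 x26 x34 x35 x36 x45 x46 x56 : ℕ)
    (h0 : x02 + x03 + x04 + x05 + x06 ≤ 2)
    (h1 : x12 + x13 + x14 + x15 + x16 ≤ 2)
    (h2 : x02 + x12 + x23 + x24 + x25 + x26 ≤ 2)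
    (h3 : x03 + x13 + x23 + x34 + x35 + x36 ≤ 2)
    (h4 : x04 + x14 + x24 + x34 + x45 + x46 ≤ 2)
    (h5 : x05 + x15 + x25 + x35 + x45 + x56 ≤ 2)
    (h6 : x06 + x16 + x26 + x36 + x46 + x56 ≤ 2) :
    (x45 + x46 + x56 ≤ 1 ∧ ((x02 = 0 ∧ x13 = 0) ∨ (x03 = 0 ∧ x12 = 0))) ∨
    (x35 + x36 + x56 ≤ 1 ∧ ((x02 = 0 ∧ x14 = 0) ∨ (x04 = 0 ∧ x12 = 0))) ∨
    (x34 + x36 + x46 ≤ 1 ∧ ((x02 = 0 ∧ x15 = 0) ∨ (x05 = 0 ∧ x12 = 0))) ∨
    (x34 + x35 + x45 ≤ 1 ∧ ((x02 = 0 ∧ x16 = 0) ∨ (x06 = 0 ∧ x12 = 0))) ∨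
    (x25 + x26 + x56 ≤ 1 ∧ ((x03 = 0 ∧ x14 = 0) ∨ (x04 = 0 ∧ x13 = 0))) ∨
    (x24 + x26 + x46 ≤ 1 ∧ ((x03 = 0 ∧ x15 = 0) ∨ (x05 = 0 ∧ x13 = 0))) ∨
    (x24 + x25 + x45 ≤ 1 ∧ ((x03 = 0 ∧ x16 = 0) ∨ (x06 = 0 ∧ x13 = 0))) ∨
    (x23 + x26 + x36 ≤ 1 ∧ ((x04 = 0 ∧ x15 = 0) ∨ (x05 = 0 ∧ x14 = 0))) ∨
    (x23 + x25 + x35 ≤ 1 ∧ ((x04 = 0 ∧ x16 = 0) ∨ (x06 = 0 ∧ x14 = 0))) ∨
    (x23 + x24 + x34 ≤ 1 ∧ ((x05 = 0 ∧ x16 = 0) ∨ (x06 = 0 ∧ x15 = 0))) := by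
  omega

/-- The linear arithmetic of the case of three vertices in `M`. -/
lemma ar3 (x03 x04 x05 x06 x13 x14 x15 x16 x23 x24 x25 x26 x34 x35 x36 x45 x46 x56 : ℕ)
    (h0 : x03 + x04 + x05 + x06 ≤ 2)
    (h1 : x13 + x14 + x15 + x16 ≤ 2)
    (h2 : x23 + x24 + x25 + x26 ≤ 2)
    (h3 : x03 + x13 + x23 + x34 + x35 + x36 ≤ 2)
    (h4 : x04 + x14 + x24 + x34 + x45 + x46 ≤ 2)
    (h5 : x05 + x15 + x25 + x35 + x45 + x56 ≤ 2)
    (h6 : x06 + x16 + x26 + x36 + x46 + x56 ≤ 2) :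
    (x25 + x26 + x56 ≤ 1 ∧ ((x03 = 0 ∧ x14 = 0) ∨ (x04 = 0 ∧ x13 = 0))) ∨
    (x24 + x26 + x46 ≤ 1 ∧ ((x03 = 0 ∧ x15 = 0) ∨ (x05 = 0 ∧ x13 = 0))) ∨
    (x24 + x25 + x45 ≤ 1 ∧ ((x03 = 0 ∧ x16 = 0) ∨ (x06 = 0 ∧ x13 = 0))) ∨
    (x23 + x26 + x36 ≤ 1 ∧ ((x04 = 0 ∧ x15 = 0) ∨ (x05 = 0 ∧ x14 = 0))) ∨
    (x23 + x25 + x35 ≤ 1 ∧ ((x04 = 0 ∧ x16 = 0) ∨ (x06 = 0 ∧ x14 = 0))) ∨
    (x23 + x24 + x34 ≤ 1 ∧ ((x05 = 0 ∧ x16 = 0) ∨ (x06 = 0 ∧ x15 = 0))) ∨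
    (x15 + x16 + x56 ≤ 1 ∧ ((x03 = 0 ∧ x24 = 0) ∨ (x04 = 0 ∧ x23 = 0))) ∨
    (x14 + x16 + x46 ≤ 1 ∧ ((x03 = 0 ∧ x25 = 0) ∨ (x05 = 0 ∧ x23 = 0))) ∨
    (x14 + x15 + x45 ≤ 1 ∧ ((x03 = 0 ∧ x26 = 0) ∨ (x06 = 0 ∧ x23 = 0))) ∨
    (x13 + x16 + x36 ≤ 1 ∧ ((x04 = 0 ∧ x25 = 0) ∨ (x05 = 0 ∧ x24 = 0))) ∨
    (x13 + x15 + x35 ≤ 1 ∧ ((x04 = 0 ∧ x26 = 0) ∨ (x06 = 0 ∧ x24 = 0))) ∨
    (x13 + x14 + x34 ≤ 1 ∧ ((x05 = 0 ∧ x26 = 0) ∨ (x06 = 0 ∧ x25 = 0))) ∨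
    (x05 + x06 + x56 ≤ 1 ∧ ((x13 = 0 ∧ x24 = 0) ∨ (x14 = 0 ∧ x23 = 0))) ∨
    (x04 + x06 + x46 ≤ 1 ∧ ((x13 = 0 ∧ x25 = 0) ∨ (x15 = 0 ∧ x23 = 0))) ∨
    (x04 + x05 + x45 ≤ 1 ∧ ((x13 = 0 ∧ x26 = 0) ∨ (x16 = 0 ∧ x23 = 0))) ∨
    (x03 + x06 + x36 ≤ 1 ∧ ((x14 = 0 ∧ x25 = 0) ∨ (x15 = 0 ∧ x24 = 0))) ∨
    (x03 + x05 + x35 ≤ 1 ∧ ((x14 = 0 ∧ x26 = 0) ∨ (x16 = 0 ∧ x24 = 0))) ∨
    (x03 + x04 + x34 ≤ 1 ∧ ((x15 = 0 ∧ x26 = 0) ∨ (x16 = 0 ∧ x25 = 0))) := by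
  omega

variable {V : Type} [DecidableEq V]

/-- The conclusion. -/
def Concl (e : V → V → ℕ) (X P M : Finset V) : Prop :=
  ∃ a1 ∈ M, ∃ a2 ∈ M, ∃ b1 ∈ P, ∃ b2 ∈ P, a1 ≠ a2 ∧ b1 ≠ b2 ∧ e a1 b1 = 0 ∧
    e a2 b2 = 0 ∧ Fact e (X \ {a1, a2, b1, b2})

lemma key {e : V → V → ℕ} {X : Finset V} (hdeg : ∀ v ∈ X, dg e X v ≤ 2)
    (x : Fin 7 → V) (hx : Function.Injective x) (hX : ∀ y, y ∈ X ↔ ∃ i, x i = y) (i : Fin 7) :
    e (x i) (x 0) + e (x i) (x 1) + e (x i) (x 2) + e (x i) (x 3) + e (x i) (x 4) +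
      e (x i) (x 5) + e (x i) (x 6) ≤ 2 := by
  have h1 : X = univ.image x := by
    ext y
    rw [hX]
    simp
  have h2 := hdeg (x i) ((hX _).2 ⟨i, rfl⟩)
  unfold dg at h2
  rw [h1, sum_image (fun a _ b _ h => hx h)] at h2
  simpa [Fin.sum_univ_succ, add_assoc] using h2

lemma fin7 {e : V → V → ℕ} {X : Finset V}
    (x : Fin 7 → V) (hx : Function.Injective x) (hX : ∀ y, y ∈ X ↔ ∃ i, x i = y)
    (a1 a2 b1 b2 c1 c2 c3 : Fin 7)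
    (hcov : ∀ i : Fin 7, i ∉ ({a1, a2, b1, b2} : Finset (Fin 7)) ↔ i ∈ ({c1, c2, c3} : Finset (Fin 7)))
    (hne : c1 ≠ c2 ∧ c1 ≠ c3 ∧ c2 ≠ c3)
    (hg : e (x c1) (x c2) + e (x c1) (x c3) + e (x c2) (x c3) ≤ 1) :
    Fact e (X \ {x a1, x a2, x b1, x b2}) := by
  have h1 : X \ {x a1, x a2, x b1, x b2} = insert (x c1) (insert (x c2) (insert (x c3) ∅)) := by
    ext y
    simp only [mem_sdiff, mem_insert, mem_singleton, hX, not_or, insert_empty_eq]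
    constructor
    · rintro ⟨⟨i, rfl⟩, h⟩
      have h2 : i ∈ ({c1, c2, c3} : Finset (Fin 7)) := by
        rw [← hcov]
        simp only [mem_insert, mem_singleton, not_or]
        exact ⟨fun g => h.1 (by rw [g]), fun g => h.2.1 (by rw [g]), fun g => h.2.2.1 (by rw [g]),
          fun g => h.2.2.2 (by rw [g])⟩
      simp only [mem_insert, mem_singleton] at h2
      rcases h2 with rfl | rfl | rfl
      · exact Or.inl rfl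
      · exact Or.inr (Or.inl rfl)
      · exact Or.inr (Or.inr rfl)
    · intro h
      have h3 : ∃ i, i ∈ ({c1, c2, c3} : Finset (Fin 7)) ∧ x i = y := by
        rcases h with rfl | rfl | rfl
        · exact ⟨c1, by simp, rfl⟩
        · exact ⟨c2, by simp, rfl⟩
        · exact ⟨c3, by simp, rfl⟩
      obtain ⟨i, hi, rfl⟩ := h3
      rw [← hcov] at hi
      simp only [mem_insert, mem_singleton, not_or] at hi
      exact ⟨⟨i, rfl⟩, fun g => hi.1 (hx g), fun g => hi.2.1 (hx g), fun g => hi.2.2.1 (hx g),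
        fun g => hi.2.2.2 (hx g)⟩
  rw [h1]
  refine Fact.add ∅ _ _ _ Fact.nil (by simp) (by simp) (by simp) ?_
  exact ⟨hx.ne hne.1, hx.ne hne.2.1, hx.ne hne.2.2, hg⟩

lemma core2 {e : V → V → ℕ} {X P M : Finset V} (hs : Sym e) (hdeg : ∀ v ∈ X, dg e X v ≤ 2)
    (x : Fin 7 → V) (hx : Function.Injective x) (hX : ∀ y, y ∈ X ↔ ∃ i, x i = y)
    (hM : x 0 ∈ M ∧ x 1 ∈ M)
    (hP : x 2 ∈ P ∧ x 3 ∈ P ∧ x 4 ∈ P ∧ x 5 ∈ P ∧ x 6 ∈ P) : Concl e X P M := by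
  have hk : ∀ i, e (x i) (x 0) + e (x i) (x 1) + e (x i) (x 2) + e (x i) (x 3) + e (x i) (x 4) +
      e (x i) (x 5) + e (x i) (x 6) ≤ 2 := fun i => key hdeg x hx hX i
  have hc : ∀ i j, e (x i) (x j) = e (x j) (x i) := fun i j => hs.1 _ _
  have h0 : e (x 0) (x 2) + e (x 0) (x 3) + e (x 0) (x 4) + e (x 0) (x 5) + e (x 0) (x 6) ≤ 2 := by
    have h := hk 0
    omega
  have h1 : e (x 1) (x 2) + e (x 1) (x 3) + e (x 1) (x 4) + e (x 1) (x 5) + e (x 1) (x 6) ≤ 2 := by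
    have h := hk 1
    omega
  have h2 : e (x 0) (x 2) + e (x 1) (x 2) + e (x 2) (x 3) + e (x 2) (x 4) + e (x 2) (x 5) + e (x 2) (x 6) ≤ 2 := by
    have h := hk 2
    rw [hc 2 0] at h
    rw [hc 2 1] at h
    omega
  have h3 : e (x 0) (x 3) + e (x 1) (x 3) + e (x 2) (x 3) + e (x 3) (x 4) + e (x 3) (x 5) + e (x 3) (x 6) ≤ 2 := by
    have h := hk 3
    rw [hc 3 0] at h
    rw [hc 3 1] at h
    rw [hc 3 2] at h
    omega
  have h4 : e (x 0) (x 4) + e (x 1) (x 4) + e (x 2) (x 4) + e (x 3) (x 4) + e (x 4) (x 5) + e (x 4) (x 6) ≤ 2 := by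
    have h := hk 4
    rw [hc 4 0] at h
    rw [hc 4 1] at h
    rw [hc 4 2] at h
    rw [hc 4 3] at h
    omega
  have h5 : e (x 0) (x 5) + e (x 1) (x 5) + e (x 2) (x 5) + e (x 3) (x 5) + e (x 4) (x 5) + e (x 5) (x 6) ≤ 2 := by
    have h := hk 5
    rw [hc 5 0] at h
    rw [hc 5 1] at h
    rw [hc 5 2] at h
    rw [hc 5 3] at h
    rw [hc 5 4] at h
    omega
  have h6 : e (x 0) (x 6) + e (x 1) (x 6) + e (x 2) (x 6) + e (x 3) (x 6) + e (x 4) (x 6) + e (x 5) (x 6) ≤ 2 := by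
    have h := hk 6
    rw [hc 6 0] at h
    rw [hc 6 1] at h
    rw [hc 6 2] at h
    rw [hc 6 3] at h
    rw [hc 6 4] at h
    rw [hc 6 5] at h
    omega
  have hmain := ar2 _ _ _ _ _ _ _ _ _ _ _ _ _ _ _ _ _ _ _ _ h0 h1 h2 h3 h4 h5 h6
  obtain ⟨m0, m1⟩ := hM
  obtain ⟨p2, p3, p4, p5, p6⟩ := hP
  rcases hmain with h | h | h | h | h | h | h | h | h | h
  · obtain ⟨hg, ⟨y, z⟩ | ⟨y, z⟩⟩ := h
    · exact ⟨x 0, m0, x 1, m1, x 2, p2, x 3, p3, hx.ne (by decide), hx.ne (by decide), y, z,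
        fin7 x hx hX 0 1 2 3 4 5 6 (by decide) (by decide) hg⟩
    · exact ⟨x 0, m0, x 1, m1, x 3, p3, x 2, p2, hx.ne (by decide), hx.ne (by decide), y, z,
        fin7 x hx hX 0 1 3 2 4 5 6 (by decide) (by decide) hg⟩
  · obtain ⟨hg, ⟨y, z⟩ | ⟨y, z⟩⟩ := h
    · exact ⟨x 0, m0, x 1, m1, x 2, p2, x 4, p4, hx.ne (by decide), hx.ne (by decide), y, z,
        fin7 x hx hX 0 1 2 4 3 5 6 (by decide) (by decide) hg⟩
    · exact ⟨x 0, m0, x 1, m1, x 4, p4, x 2, p2, hx.ne (by decide), hx.ne (by decide), y, z,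
        fin7 x hx hX 0 1 4 2 3 5 6 (by decide) (by decide) hg⟩
  · obtain ⟨hg, ⟨y, z⟩ | ⟨y, z⟩⟩ := h
    · exact ⟨x 0, m0, x 1, m1, x 2, p2, x 5, p5, hx.ne (by decide), hx.ne (by decide), y, z,
        fin7 x hx hX 0 1 2 5 3 4 6 (by decide) (by decide) hg⟩
    · exact ⟨x 0, m0, x 1, m1, x 5, p5, x 2, p2, hx.ne (by decide), hx.ne (by decide), y, z,
        fin7 x hx hX 0 1 5 2 3 4 6 (by decide) (by decide) hg⟩
  · obtain ⟨hg, ⟨y, z⟩ | ⟨y, z⟩⟩ := h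
    · exact ⟨x 0, m0, x 1, m1, x 2, p2, x 6, p6, hx.ne (by decide), hx.ne (by decide), y, z,
        fin7 x hx hX 0 1 2 6 3 4 5 (by decide) (by decide) hg⟩
    · exact ⟨x 0, m0, x 1, m1, x 6, p6, x 2, p2, hx.ne (by decide), hx.ne (by decide), y, z,
        fin7 x hx hX 0 1 6 2 3 4 5 (by decide) (by decide) hg⟩
  · obtain ⟨hg, ⟨y, z⟩ | ⟨y, z⟩⟩ := h
    · exact ⟨x 0, m0, x 1, m1, x 3, p3, x 4, p4, hx.ne (by decide), hx.ne (by decide), y, z,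
        fin7 x hx hX 0 1 3 4 2 5 6 (by decide) (by decide) hg⟩
    · exact ⟨x 0, m0, x 1, m1, x 4, p4, x 3, p3, hx.ne (by decide), hx.ne (by decide), y, z,
        fin7 x hx hX 0 1 4 3 2 5 6 (by decide) (by decide) hg⟩
  · obtain ⟨hg, ⟨y, z⟩ | ⟨y, z⟩⟩ := h
    · exact ⟨x 0, m0, x 1, m1, x 3, p3, x 5, p5, hx.ne (by decide), hx.ne (by decide), y, z,
        fin7 x hx hX 0 1 3 5 2 4 6 (by decide) (by decide) hg⟩
    · exact ⟨x 0, m0, x 1, m1, x 5, p5, x 3, p3, hx.ne (by decide), hx.ne (by decide), y, z,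
        fin7 x hx hX 0 1 5 3 2 4 6 (by decide) (by decide) hg⟩
  · obtain ⟨hg, ⟨y, z⟩ | ⟨y, z⟩⟩ := h
    · exact ⟨x 0, m0, x 1, m1, x 3, p3, x 6, p6, hx.ne (by decide), hx.ne (by decide), y, z,
        fin7 x hx hX 0 1 3 6 2 4 5 (by decide) (by decide) hg⟩
    · exact ⟨x 0, m0, x 1, m1, x 6, p6, x 3, p3, hx.ne (by decide), hx.ne (by decide), y, z,
        fin7 x hx hX 0 1 6 3 2 4 5 (by decide) (by decide) hg⟩
  · obtain ⟨hg, ⟨y, z⟩ | ⟨y, z⟩⟩ := h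
    · exact ⟨x 0, m0, x 1, m1, x 4, p4, x 5, p5, hx.ne (by decide), hx.ne (by decide), y, z,
        fin7 x hx hX 0 1 4 5 2 3 6 (by decide) (by decide) hg⟩
    · exact ⟨x 0, m0, x 1, m1, x 5, p5, x 4, p4, hx.ne (by decide), hx.ne (by decide), y, z,
        fin7 x hx hX 0 1 5 4 2 3 6 (by decide) (by decide) hg⟩
  · obtain ⟨hg, ⟨y, z⟩ | ⟨y, z⟩⟩ := h
    · exact ⟨x 0, m0, x 1, m1, x 4, p4, x 6, p6, hx.ne (by decide), hx.ne (by decide), y, z,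
        fin7 x hx hX 0 1 4 6 2 3 5 (by decide) (by decide) hg⟩
    · exact ⟨x 0, m0, x 1, m1, x 6, p6, x 4, p4, hx.ne (by decide), hx.ne (by decide), y, z,
        fin7 x hx hX 0 1 6 4 2 3 5 (by decide) (by decide) hg⟩
  · obtain ⟨hg, ⟨y, z⟩ | ⟨y, z⟩⟩ := h
    · exact ⟨x 0, m0, x 1, m1, x 5, p5, x 6, p6, hx.ne (by decide), hx.ne (by decide), y, z,
        fin7 x hx hX 0 1 5 6 2 3 4 (by decide) (by decide) hg⟩
    · exact ⟨x 0, m0, x 1, m1, x 6, p6, x 5, p5, hx.ne (by decide), hx.ne (by decide), y, z,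
        fin7 x hx hX 0 1 6 5 2 3 4 (by decide) (by decide) hg⟩

lemma core3 {e : V → V → ℕ} {X P M : Finset V} (hs : Sym e) (hdeg : ∀ v ∈ X, dg e X v ≤ 2)
    (x : Fin 7 → V) (hx : Function.Injective x) (hX : ∀ y, y ∈ X ↔ ∃ i, x i = y)
    (hM : x 0 ∈ M ∧ x 1 ∈ M ∧ x 2 ∈ M)
    (hP : x 3 ∈ P ∧ x 4 ∈ P ∧ x 5 ∈ P ∧ x 6 ∈ P) : Concl e X P M := by
  have hk : ∀ i, e (x i) (x 0) + e (x i) (x 1) + e (x i) (x 2) + e (x i) (x 3) + e (x i) (x 4) +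
      e (x i) (x 5) + e (x i) (x 6) ≤ 2 := fun i => key hdeg x hx hX i
  have hc : ∀ i j, e (x i) (x j) = e (x j) (x i) := fun i j => hs.1 _ _
  have h0 : e (x 0) (x 3) + e (x 0) (x 4) + e (x 0) (x 5) + e (x 0) (x 6) ≤ 2 := by
    have h := hk 0
    omega
  have h1 : e (x 1) (x 3) + e (x 1) (x 4) + e (x 1) (x 5) + e (x 1) (x 6) ≤ 2 := by
    have h := hk 1
    omega
  have h2 : e (x 2) (x 3) + e (x 2) (x 4) + e (x 2) (x 5) + e (x 2) (x 6) ≤ 2 := by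
    have h := hk 2
    omega
  have h3 : e (x 0) (x 3) + e (x 1) (x 3) + e (x 2) (x 3) + e (x 3) (x 4) + e (x 3) (x 5) + e (x 3) (x 6) ≤ 2 := by
    have h := hk 3
    rw [hc 3 0] at h
    rw [hc 3 1] at h
    rw [hc 3 2] at h
    omega
  have h4 : e (x 0) (x 4) + e (x 1) (x 4) + e (x 2) (x 4) + e (x 3) (x 4) + e (x 4) (x 5) + e (x 4) (x 6) ≤ 2 := by
    have h := hk 4
    rw [hc 4 0] at h
    rw [hc 4 1] at h
    rw [hc 4 2] at h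
    rw [hc 4 3] at h
    omega
  have h5 : e (x 0) (x 5) + e (x 1) (x 5) + e (x 2) (x 5) + e (x 3) (x 5) + e (x 4) (x 5) + e (x 5) (x 6) ≤ 2 := by
    have h := hk 5
    rw [hc 5 0] at h
    rw [hc 5 1] at h
    rw [hc 5 2] at h
    rw [hc 5 3] at h
    rw [hc 5 4] at h
    omega
  have h6 : e (x 0) (x 6) + e (x 1) (x 6) + e (x 2) (x 6) + e (x 3) (x 6) + e (x 4) (x 6) + e (x 5) (x 6) ≤ 2 := by
    have h := hk 6
    rw [hc 6 0] at h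
    rw [hc 6 1] at h
    rw [hc 6 2] at h
    rw [hc 6 3] at h
    rw [hc 6 4] at h
    rw [hc 6 5] at h
    omega
  have hmain := ar3 _ _ _ _ _ _ _ _ _ _ _ _ _ _ _ _ _ _ h0 h1 h2 h3 h4 h5 h6
  obtain ⟨m0, m1, m2⟩ := hM
  obtain ⟨p3, p4, p5, p6⟩ := hP
  rcases hmain with h | h | h | h | h | h | h | h | h | h | h | h | h | h | h | h | h | h
  · obtain ⟨hg, ⟨y, z⟩ | ⟨y, z⟩⟩ := h
    · exact ⟨x 0, m0, x 1, m1, x 3, p3, x 4, p4, hx.ne (by decide), hx.ne (by decide), y, z,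
        fin7 x hx hX 0 1 3 4 2 5 6 (by decide) (by decide) hg⟩
    · exact ⟨x 0, m0, x 1, m1, x 4, p4, x 3, p3, hx.ne (by decide), hx.ne (by decide), y, z,
        fin7 x hx hX 0 1 4 3 2 5 6 (by decide) (by decide) hg⟩
  · obtain ⟨hg, ⟨y, z⟩ | ⟨y, z⟩⟩ := h
    · exact ⟨x 0, m0, x 1, m1, x 3, p3, x 5, p5, hx.ne (by decide), hx.ne (by decide), y, z,
        fin7 x hx hX 0 1 3 5 2 4 6 (by decide) (by decide) hg⟩
    · exact ⟨x 0, m0, x 1, m1, x 5, p5, x 3, p3, hx.ne (by decide), hx.ne (by decide), y, z,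
        fin7 x hx hX 0 1 5 3 2 4 6 (by decide) (by decide) hg⟩
  · obtain ⟨hg, ⟨y, z⟩ | ⟨y, z⟩⟩ := h
    · exact ⟨x 0, m0, x 1, m1, x 3, p3, x 6, p6, hx.ne (by decide), hx.ne (by decide), y, z,
        fin7 x hx hX 0 1 3 6 2 4 5 (by decide) (by decide) hg⟩
    · exact ⟨x 0, m0, x 1, m1, x 6, p6, x 3, p3, hx.ne (by decide), hx.ne (by decide), y, z,
        fin7 x hx hX 0 1 6 3 2 4 5 (by decide) (by decide) hg⟩
  · obtain ⟨hg, ⟨y, z⟩ | ⟨y, z⟩⟩ := h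
    · exact ⟨x 0, m0, x 1, m1, x 4, p4, x 5, p5, hx.ne (by decide), hx.ne (by decide), y, z,
        fin7 x hx hX 0 1 4 5 2 3 6 (by decide) (by decide) hg⟩
    · exact ⟨x 0, m0, x 1, m1, x 5, p5, x 4, p4, hx.ne (by decide), hx.ne (by decide), y, z,
        fin7 x hx hX 0 1 5 4 2 3 6 (by decide) (by decide) hg⟩
  · obtain ⟨hg, ⟨y, z⟩ | ⟨y, z⟩⟩ := h
    · exact ⟨x 0, m0, x 1, m1, x 4, p4, x 6, p6, hx.ne (by decide), hx.ne (by decide), y, z,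
        fin7 x hx hX 0 1 4 6 2 3 5 (by decide) (by decide) hg⟩
    · exact ⟨x 0, m0, x 1, m1, x 6, p6, x 4, p4, hx.ne (by decide), hx.ne (by decide), y, z,
        fin7 x hx hX 0 1 6 4 2 3 5 (by decide) (by decide) hg⟩
  · obtain ⟨hg, ⟨y, z⟩ | ⟨y, z⟩⟩ := h
    · exact ⟨x 0, m0, x 1, m1, x 5, p5, x 6, p6, hx.ne (by decide), hx.ne (by decide), y, z,
        fin7 x hx hX 0 1 5 6 2 3 4 (by decide) (by decide) hg⟩
    · exact ⟨x 0, m0, x 1, m1, x 6, p6, x 5, p5, hx.ne (by decide), hx.ne (by decide), y, z,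
        fin7 x hx hX 0 1 6 5 2 3 4 (by decide) (by decide) hg⟩
  · obtain ⟨hg, ⟨y, z⟩ | ⟨y, z⟩⟩ := h
    · exact ⟨x 0, m0, x 2, m2, x 3, p3, x 4, p4, hx.ne (by decide), hx.ne (by decide), y, z,
        fin7 x hx hX 0 2 3 4 1 5 6 (by decide) (by decide) hg⟩
    · exact ⟨x 0, m0, x 2, m2, x 4, p4, x 3, p3, hx.ne (by decide), hx.ne (by decide), y, z,
        fin7 x hx hX 0 2 4 3 1 5 6 (by decide) (by decide) hg⟩
  · obtain ⟨hg, ⟨y, z⟩ | ⟨y, z⟩⟩ := h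
    · exact ⟨x 0, m0, x 2, m2, x 3, p3, x 5, p5, hx.ne (by decide), hx.ne (by decide), y, z,
        fin7 x hx hX 0 2 3 5 1 4 6 (by decide) (by decide) hg⟩
    · exact ⟨x 0, m0, x 2, m2, x 5, p5, x 3, p3, hx.ne (by decide), hx.ne (by decide), y, z,
        fin7 x hx hX 0 2 5 3 1 4 6 (by decide) (by decide) hg⟩
  · obtain ⟨hg, ⟨y, z⟩ | ⟨y, z⟩⟩ := h
    · exact ⟨x 0, m0, x 2, m2, x 3, p3, x 6, p6, hx.ne (by decide), hx.ne (by decide), y, z,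
        fin7 x hx hX 0 2 3 6 1 4 5 (by decide) (by decide) hg⟩
    · exact ⟨x 0, m0, x 2, m2, x 6, p6, x 3, p3, hx.ne (by decide), hx.ne (by decide), y, z,
        fin7 x hx hX 0 2 6 3 1 4 5 (by decide) (by decide) hg⟩
  · obtain ⟨hg, ⟨y, z⟩ | ⟨y, z⟩⟩ := h
    · exact ⟨x 0, m0, x 2, m2, x 4, p4, x 5, p5, hx.ne (by decide), hx.ne (by decide), y, z,
        fin7 x hx hX 0 2 4 5 1 3 6 (by decide) (by decide) hg⟩
    · exact ⟨x 0, m0, x 2, m2, x 5, p5, x 4, p4, hx.ne (by decide), hx.ne (by decide), y, z,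
        fin7 x hx hX 0 2 5 4 1 3 6 (by decide) (by decide) hg⟩
  · obtain ⟨hg, ⟨y, z⟩ | ⟨y, z⟩⟩ := h
    · exact ⟨x 0, m0, x 2, m2, x 4, p4, x 6, p6, hx.ne (by decide), hx.ne (by decide), y, z,
        fin7 x hx hX 0 2 4 6 1 3 5 (by decide) (by decide) hg⟩
    · exact ⟨x 0, m0, x 2, m2, x 6, p6, x 4, p4, hx.ne (by decide), hx.ne (by decide), y, z,
        fin7 x hx hX 0 2 6 4 1 3 5 (by decide) (by decide) hg⟩
  · obtain ⟨hg, ⟨y, z⟩ | ⟨y, z⟩⟩ := h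
    · exact ⟨x 0, m0, x 2, m2, x 5, p5, x 6, p6, hx.ne (by decide), hx.ne (by decide), y, z,
        fin7 x hx hX 0 2 5 6 1 3 4 (by decide) (by decide) hg⟩
    · exact ⟨x 0, m0, x 2, m2, x 6, p6, x 5, p5, hx.ne (by decide), hx.ne (by decide), y, z,
        fin7 x hx hX 0 2 6 5 1 3 4 (by decide) (by decide) hg⟩
  · obtain ⟨hg, ⟨y, z⟩ | ⟨y, z⟩⟩ := h
    · exact ⟨x 1, m1, x 2, m2, x 3, p3, x 4, p4, hx.ne (by decide), hx.ne (by decide), y, z,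
        fin7 x hx hX 1 2 3 4 0 5 6 (by decide) (by decide) hg⟩
    · exact ⟨x 1, m1, x 2, m2, x 4, p4, x 3, p3, hx.ne (by decide), hx.ne (by decide), y, z,
        fin7 x hx hX 1 2 4 3 0 5 6 (by decide) (by decide) hg⟩
  · obtain ⟨hg, ⟨y, z⟩ | ⟨y, z⟩⟩ := h
    · exact ⟨x 1, m1, x 2, m2, x 3, p3, x 5, p5, hx.ne (by decide), hx.ne (by decide), y, z,
        fin7 x hx hX 1 2 3 5 0 4 6 (by decide) (by decide) hg⟩
    · exact ⟨x 1, m1, x 2, m2, x 5, p5, x 3, p3, hx.ne (by decide), hx.ne (by decide), y, z,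
        fin7 x hx hX 1 2 5 3 0 4 6 (by decide) (by decide) hg⟩
  · obtain ⟨hg, ⟨y, z⟩ | ⟨y, z⟩⟩ := h
    · exact ⟨x 1, m1, x 2, m2, x 3, p3, x 6, p6, hx.ne (by decide), hx.ne (by decide), y, z,
        fin7 x hx hX 1 2 3 6 0 4 5 (by decide) (by decide) hg⟩
    · exact ⟨x 1, m1, x 2, m2, x 6, p6, x 3, p3, hx.ne (by decide), hx.ne (by decide), y, z,
        fin7 x hx hX 1 2 6 3 0 4 5 (by decide) (by decide) hg⟩
  · obtain ⟨hg, ⟨y, z⟩ | ⟨y, z⟩⟩ := h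
    · exact ⟨x 1, m1, x 2, m2, x 4, p4, x 5, p5, hx.ne (by decide), hx.ne (by decide), y, z,
        fin7 x hx hX 1 2 4 5 0 3 6 (by decide) (by decide) hg⟩
    · exact ⟨x 1, m1, x 2, m2, x 5, p5, x 4, p4, hx.ne (by decide), hx.ne (by decide), y, z,
        fin7 x hx hX 1 2 5 4 0 3 6 (by decide) (by decide) hg⟩
  · obtain ⟨hg, ⟨y, z⟩ | ⟨y, z⟩⟩ := h
    · exact ⟨x 1, m1, x 2, m2, x 4, p4, x 6, p6, hx.ne (by decide), hx.ne (by decide), y, z,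
        fin7 x hx hX 1 2 4 6 0 3 5 (by decide) (by decide) hg⟩
    · exact ⟨x 1, m1, x 2, m2, x 6, p6, x 4, p4, hx.ne (by decide), hx.ne (by decide), y, z,
        fin7 x hx hX 1 2 6 4 0 3 5 (by decide) (by decide) hg⟩
  · obtain ⟨hg, ⟨y, z⟩ | ⟨y, z⟩⟩ := h
    · exact ⟨x 1, m1, x 2, m2, x 5, p5, x 6, p6, hx.ne (by decide), hx.ne (by decide), y, z,
        fin7 x hx hX 1 2 5 6 0 3 4 (by decide) (by decide) hg⟩
    · exact ⟨x 1, m1, x 2, m2, x 6, p6, x 5, p5, hx.ne (by decide), hx.ne (by decide), y, z,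
        fin7 x hx hX 1 2 6 5 0 3 4 (by decide) (by decide) hg⟩

lemma core {e : V → V → ℕ} {X P M : Finset V} (hs : Sym e) (hX7 : X.card = 7)
    (hdeg : ∀ v ∈ X, dg e X v ≤ 2) (hPM : P ∪ M = X) (hdis : Disjoint P M)
    (hM : 2 ≤ M.card) (hM3 : M.card ≤ 3) : Concl e X P M := by
  have hcard : P.card + M.card = 7 := by
    rw [← card_union_of_disjoint hdis, hPM, hX7]
  set L : List V := M.toList ++ P.toList with hL
  have hlen : L.length = 7 := by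
    simp only [hL, List.length_append, length_toList]
    omega
  have hnd : L.Nodup := by
    rw [hL, List.nodup_append]
    refine ⟨nodup_toList M, nodup_toList P, fun a ha b hb h => ?_⟩
    rw [mem_toList] at ha hb
    subst h
    exact (disjoint_left.1 hdis) hb ha
  let x : Fin 7 → V := fun i => L[i.1]'(by rw [hlen]; exact i.2)
  have hx : Function.Injective x := by
    intro i j h
    have := (List.Nodup.getElem_inj_iff hnd).1 h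
    exact Fin.ext this
  have hX : ∀ y, y ∈ X ↔ ∃ i, x i = y := by
    intro y
    have h1 : y ∈ X ↔ y ∈ L := by
      rw [← hPM, hL, mem_union, List.mem_append, mem_toList, mem_toList, or_comm]
    rw [h1, List.mem_iff_getElem]
    constructor
    · rintro ⟨i, hi, h⟩
      exact ⟨⟨i, by rw [← hlen]; exact hi⟩, h⟩
    · rintro ⟨i, h⟩
      exact ⟨i.1, by rw [hlen]; exact i.2, h⟩
  have hxM : ∀ i : Fin 7, i.1 < M.card → x i ∈ M := by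
    intro i hi
    have : x i = M.toList[i.1]'(by rw [length_toList]; exact hi) := by
      simp only [x, hL]
      rw [List.getElem_append_left]
    rw [this, ← mem_toList]
    exact List.getElem_mem _
  have hxP : ∀ i : Fin 7, M.card ≤ i.1 → x i ∈ P := by
    intro i hi
    have hi2 : M.toList.length ≤ i.1 := by rw [length_toList]; exact hi
    have h7 : i.1 < 7 := i.2
    have : x i = P.toList[i.1 - M.toList.length]'(by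
        rw [length_toList, length_toList]
        omega) := by
      simp only [x, hL]
      rw [List.getElem_append_right hi2]
    rw [this, ← mem_toList]
    exact List.getElem_mem _
  rcases (show M.card = 2 ∨ M.card = 3 by omega) with h2 | h3
  · refine core2 hs hdeg x hx hX ⟨hxM 0 ?_, hxM 1 ?_⟩ ⟨hxP 2 ?_, hxP 3 ?_, hxP 4 ?_, hxP 5 ?_, hxP 6 ?_⟩ <;>
      · rw [h2]
        decide
  · refine core3 hs hdeg x hx hX ⟨hxM 0 ?_, hxM 1 ?_, hxM 2 ?_⟩ ⟨hxP 3 ?_, hxP 4 ?_, hxP 5 ?_, hxP 6 ?_⟩ <;>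
      · rw [h3]
        decide

end SMA_

theorem p_SMA : T_SMA := by
  intro V _ e X P M hs hX7 hdeg hPM hdis hP hM
  have hcard : P.card + M.card = 7 := by
    rw [← card_union_of_disjoint hdis, hPM, hX7]
  rcases (show M.card ≤ 3 ∨ P.card ≤ 3 by omega) with h | h
  · exact SMA_.core hs hX7 hdeg hPM hdis hM h
  · obtain ⟨a1, ha1, a2, ha2, b1, hb1, b2, hb2, hne, hne', h1, h2, hf⟩ :=
      SMA_.core hs hX7 hdeg (by rw [union_comm]; exact hPM) hdis.symm hP h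
    refine ⟨b1, hb1, b2, hb2, a1, ha1, a2, ha2, hne', hne, ?_, ?_, ?_⟩
    · rw [hs.1]
      exact h1
    · rw [hs.1]
      exact h2
    · have h3 : ({b1, b2, a1, a2} : Finset V) = {a1, a2, b1, b2} := by
        ext y
        simp only [mem_insert, mem_singleton]
        tauto
      rw [h3]
      exact hf

end Pool.Agent.MGT
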