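import Pool.Agent.MGT.Targets2

set_option autoImplicit false

/-!
# MGT-SPE
-/

open Finset

namespace Pool.Agent.MGT

namespace SPE_

variable {V : Type} [DecidableEq V]

theorem two_le {e : V → V → ℕ} {p a b : V} {S : Finset V} (ha : a ∈ S) (hb : b ∈ S)
    (hab : a ≠ b) (h1 : 1 ≤ e p a) (h2 : 1 ≤ e p b) : 2 ≤ ∑ v ∈ S, e p v := by
  have h := Finset.sum_le_sum_of_subset (f := fun v => e p v) (s := {a, b}) (t := S)
    (by intro x hx; simp only [mem_insert, mem_singleton] at hx; rcases hx with rfl | rfl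
        · exact ha
        · exact hb)
  rw [Finset.sum_pair hab] at h
  omega

theorem noCP {e : V → V → ℕ} {X A B R : Finset V} (hs : Sym e)
    (hR : R ⊆ X) (hAB : A ∪ B = X \ R) (hdis : Disjoint A B)
    (hq : ∀ q ∈ B, ∀ v ∈ X \ A, e q v = 0)
    (hp : ∀ p ∈ A, ∑ v ∈ X \ B, e p v ≤ 1) {w q p0 : V} (hw : w ∈ R) (hqB : q ∈ B)
    (hp0 : p0 ∈ A) (h0 : e w p0 = 0) {C D : Finset V}
    (h : CP e (X \ insert q (R.erase w)) C D) (hwD : w ∈ D) : False := by
  obtain ⟨hC, hD, hCD, hU, hcpl⟩ := h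
  have hAX : ∀ a ∈ A, a ∈ X ∧ a ∉ R := by
    intro a ha
    have : a ∈ X \ R := hAB ▸ mem_union_left B ha
    simpa using this
  have hBX : ∀ a ∈ B, a ∈ X ∧ a ∉ R := by
    intro a ha
    have : a ∈ X \ R := hAB ▸ mem_union_right A ha
    simpa using this
  have hwA : w ∉ A := fun h => (hAX w h).2 hw
  have hwB : w ∉ B := fun h => (hBX w h).2 hw
  have hwX : w ∈ X := hR hw
  have hp0q : p0 ≠ q := fun h => (Finset.disjoint_left.mp hdis hp0) (h ▸ hqB)
  have hp0D : p0 ∈ D := by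
    have h1 : p0 ∈ C ∪ D := by
      rw [hU]
      simp only [mem_sdiff, mem_insert, mem_erase, not_or, not_and]
      exact ⟨(hAX p0 hp0).1, hp0q, fun _ => (hAX p0 hp0).2⟩
    rcases mem_union.mp h1 with h1 | h1
    · have := hcpl p0 h1 w hwD
      rw [hs.1, h0] at this
      omega
    · exact h1
  obtain ⟨c, hc⟩ := hC
  have hcw := hcpl c hc w hwD
  have hcp := hcpl c hc p0 hp0D
  have hcX : c ∈ X \ insert q (R.erase w) := by rw [← hU]; exact mem_union_left D hc
  have hcne : c ≠ w := fun h => (Finset.disjoint_left.mp hCD hc) (h ▸ hwD)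
  simp only [mem_sdiff, mem_insert, mem_erase, not_or, not_and] at hcX
  have hcR : c ∉ R := hcX.2.2 hcne
  have hcAB : c ∈ A ∪ B := by
    rw [hAB, mem_sdiff]
    exact ⟨hcX.1, hcR⟩
  rcases mem_union.mp hcAB with hcA | hcB
  · have h2 := two_le (e := e) (p := c) (S := X \ B) (a := w) (b := p0)
      (by simp [hwX, hwB])
      (by rw [mem_sdiff]; exact ⟨(hAX p0 hp0).1, Finset.disjoint_left.mp hdis hp0⟩)
      (fun h => hwA (h ▸ hp0)) hcw hcp
    have := hp c hcA
    omega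
  · have := hq c hcB w (by simp [hwX, hwA])
    omega

theorem core {e : V → V → ℕ} {X A B R : Finset V} {α a' : ℕ} (hMG : MGk V a') (hs : Sym e)
    (hdeg : ∀ x ∈ X, dg e X x ≤ α)
    (hR : R ⊆ X) (hAB : A ∪ B = X \ R) (hdis : Disjoint A B)
    (hc : (X \ R).card = 3 * a') (ha : α + 1 ≤ 2 * a')
    (hq : ∀ q ∈ B, ∀ v ∈ X \ A, e q v = 0)
    (hp : ∀ p ∈ A, ∑ v ∈ X \ B, e p v ≤ 1) {w q p0 : V} (hw : w ∈ R) (hqB : q ∈ B)
    (hp0 : p0 ∈ A) (h0 : e w p0 = 0) : Fact e (X \ insert q (R.erase w)) := by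
  have hqX : q ∈ X \ R := hAB ▸ mem_union_right A hqB
  rw [mem_sdiff] at hqX
  have hsub : insert q (R.erase w) ⊆ X := by
    intro x hx
    rw [mem_insert] at hx
    rcases hx with rfl | hx
    · exact hqX.1
    · exact hR (Finset.mem_of_mem_erase hx)
  have hcard : (insert q (R.erase w)).card = R.card := by
    rw [Finset.card_insert_of_notMem (fun h => hqX.2 (Finset.mem_of_mem_erase h)),
      Finset.card_erase_of_mem hw]
    have := Finset.card_pos.mpr ⟨w, hw⟩
    omega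
  apply hMG e _ hs
  · rw [Finset.card_sdiff_of_subset hsub, hcard, ← Finset.card_sdiff_of_subset hR, hc]
  · intro v hv
    have h1 : dg e (X \ insert q (R.erase w)) v ≤ dg e X v :=
      Finset.sum_le_sum_of_subset Finset.sdiff_subset
    have h2 := hdeg v (Finset.sdiff_subset hv)
    omega
  · rintro ⟨C, D, hCP, _⟩
    have hwU : w ∈ C ∪ D := by
      rw [hCP.2.2.2.1]
      simp only [mem_sdiff, mem_insert, mem_erase, not_or, not_and]
      exact ⟨hR hw, fun h => hqX.2 (h ▸ hw), fun h => absurd rfl h⟩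
    rcases mem_union.mp hwU with h | h
    · refine noCP hs hR hAB hdis hq hp hw hqB hp0 h0 (C := D) (D := C) ?_ h
      exact ⟨hCP.2.1, hCP.1, hCP.2.2.1.symm, by rw [union_comm]; exact hCP.2.2.2.1,
        fun a ha b hb => by rw [hs.1]; exact hCP.2.2.2.2 b hb a ha⟩
    · exact noCP hs hR hAB hdis hq hp hw hqB hp0 h0 hCP h

/-- the case with `|A| = α`, `|B| = α - 1`. -/
theorem fin {e : V → V → ℕ} {X P M A B : Finset V} {α a' : ℕ} {u1 u2 w1 w2 : V}
    (hMG : MGk V a') (hs : Sym e)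
    (hdeg : ∀ x ∈ X, dg e X x ≤ α) (hPM : P ∪ M = X) (hPMd : Disjoint P M)
    (hu1 : u1 ∈ M) (hu2 : u2 ∈ M) (hw1 : w1 ∈ P) (hw2 : w2 ∈ P) (hu : u1 ≠ u2) (hw : w1 ≠ w2)
    (he1 : e u1 w1 = 0) (he2 : e u2 w2 = 0)
    (hCP : CP e (X \ {u1, u2, w1, w2}) A B) (hA : A.card = α) (hB : B.card + 1 = α)
    (hα : 5 ≤ α) (hc : (X \ {u1, u2, w1, w2}).card = 3 * a') (ha : α + 1 ≤ 2 * a') :
    ∃ a1 ∈ M, ∃ a2 ∈ M, ∃ b1 ∈ P, ∃ b2 ∈ P, a1 ≠ a2 ∧ b1 ≠ b2 ∧ e a1 b1 = 0 ∧ e a2 b2 = 0 ∧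
      Fact e (X \ {a1, a2, b1, b2}) := by
  obtain ⟨hAne, hBne, hdis, hAB, hcpl⟩ := hCP
  set R : Finset V := {u1, u2, w1, w2} with hRdef
  have hRX : R ⊆ X := by
    intro x hx
    rw [← hPM]
    simp only [hRdef, mem_insert, mem_singleton] at hx
    rcases hx with rfl | rfl | rfl | rfl
    · exact mem_union_right _ hu1
    · exact mem_union_right _ hu2
    · exact mem_union_left _ hw1
    · exact mem_union_left _ hw2
  have hAX : ∀ a ∈ A, a ∈ X ∧ a ∉ R := by
    intro a ha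
    have : a ∈ X \ R := hAB ▸ mem_union_left B ha
    simpa using this
  have hBX : ∀ a ∈ B, a ∈ X ∧ a ∉ R := by
    intro a ha
    have : a ∈ X \ R := hAB ▸ mem_union_right A ha
    simpa using this
  have hAsub : A ⊆ X := fun a h => (hAX a h).1
  have hBsub : B ⊆ X := fun a h => (hBX a h).1
  have hq : ∀ q ∈ B, ∀ v ∈ X \ A, e q v = 0 := by
    intro q hqB v hv
    have h1 := hdeg q (hBX q hqB).1
    unfold dg at h1
    rw [← Finset.sum_sdiff hAsub] at h1
    have h2 : A.card ≤ ∑ v ∈ A, e q v := by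
      rw [Finset.card_eq_sum_ones]
      exact Finset.sum_le_sum fun a ha => by rw [hs.1]; exact hcpl a ha q hqB
    have h3 : ∑ v ∈ X \ A, e q v = 0 := by omega
    exact Finset.sum_eq_zero_iff.mp h3 v hv
  have hp : ∀ p ∈ A, ∑ v ∈ X \ B, e p v ≤ 1 := by
    intro p hpA
    have h1 := hdeg p (hAX p hpA).1
    unfold dg at h1
    rw [← Finset.sum_sdiff hBsub] at h1
    have h2 : B.card ≤ ∑ v ∈ B, e p v := by
      rw [Finset.card_eq_sum_ones]
      exact Finset.sum_le_sum fun b hb => hcpl p hpA b hb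
    omega
  have hRA : ∀ r ∈ R, r ∈ X \ A := fun r hr => by
    rw [mem_sdiff]; exact ⟨hRX hr, fun h => (hAX r h).2 hr⟩
  have hRB : ∀ r ∈ R, r ∈ X \ B := fun r hr => by
    rw [mem_sdiff]; exact ⟨hRX hr, fun h => (hBX r h).2 hr⟩
  have hu1R : u1 ∈ R := by simp [hRdef]
  have hu2R : u2 ∈ R := by simp [hRdef]
  have hw1R : w1 ∈ R := by simp [hRdef]
  have hw2R : w2 ∈ R := by simp [hRdef]
  have hne : ∀ u ∈ M, ∀ w ∈ P, u ≠ w := fun u hu w hw h =>
    Finset.disjoint_left.mp hPMd hw (h ▸ hu)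
  have h11 := hne u1 hu1 w1 hw1
  have h12 := hne u1 hu1 w2 hw2
  have h21 := hne u2 hu2 w1 hw1
  have h22 := hne u2 hu2 w2 hw2
  obtain ⟨q, hqB⟩ := hBne
  obtain ⟨p, hpA⟩ := hAne
  have hqR : q ∉ R := (hBX q hqB).2
  have hqne : q ≠ u1 ∧ q ≠ u2 ∧ q ≠ w1 ∧ q ≠ w2 := by
    simpa [hRdef, not_or] using hqR
  have key : ∀ w ∈ R, e w p = 0 → Fact e (X \ insert q (R.erase w)) := fun w hw h0 =>
    core hMG hs hdeg hRX hAB hdis hc ha hq hp hw hqB hpA h0
  have hqU : q ∈ P ∪ M := hPM ▸ (hBX q hqB).1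
  have hzero : ∀ r ∈ R, e r q = 0 := fun r hr => by rw [hs.1]; exact hq q hqB r (hRA r hr)
  have hor : ∀ r ∈ R, ∀ r' ∈ R, r ≠ r' → e r p = 0 ∨ e r' p = 0 := by
    intro r hr r' hr' hne
    by_contra hcon
    push Not at hcon
    have h1 : 1 ≤ e p r := by rw [hs.1]; omega
    have h2 : 1 ≤ e p r' := by rw [hs.1]; omega
    have h3 := two_le (hRB r hr) (hRB r' hr') hne h1 h2
    have h4 := hp p hpA
    omega
  rcases mem_union.mp hqU with hqP | hqM
  · rcases hor w1 hw1R w2 hw2R hw with h0 | h0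
    · refine ⟨u1, hu1, u2, hu2, q, hqP, w2, hw2, hu, hqne.2.2.2, hzero u1 hu1R, he2, ?_⟩
      have hset : ({u1, u2, q, w2} : Finset V) = insert q (R.erase w1) := by
        ext x
        simp only [hRdef, mem_insert, mem_singleton, mem_erase]
        constructor
        · rintro (rfl | rfl | rfl | rfl) <;> tauto
        · rintro (rfl | ⟨h, rfl | rfl | rfl | rfl⟩) <;> tauto
      rw [hset]
      exact key w1 hw1R h0
    · refine ⟨u1, hu1, u2, hu2, w1, hw1, q, hqP, hu, hqne.2.2.1.symm, he1, hzero u2 hu2R, ?_⟩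
      have hset : ({u1, u2, w1, q} : Finset V) = insert q (R.erase w2) := by
        ext x
        simp only [hRdef, mem_insert, mem_singleton, mem_erase]
        constructor
        · rintro (rfl | rfl | rfl | rfl) <;> tauto
        · rintro (rfl | ⟨h, rfl | rfl | rfl | rfl⟩) <;> tauto
      rw [hset]
      exact key w2 hw2R h0
  · rcases hor u1 hu1R u2 hu2R hu with h0 | h0
    · refine ⟨q, hqM, u2, hu2, w1, hw1, w2, hw2, hqne.2.1, hw,
        by rw [hs.1]; exact hzero w1 hw1R, he2, ?_⟩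
      have hset : ({q, u2, w1, w2} : Finset V) = insert q (R.erase u1) := by
        ext x
        simp only [hRdef, mem_insert, mem_singleton, mem_erase]
        constructor
        · rintro (rfl | rfl | rfl | rfl) <;> tauto
        · rintro (rfl | ⟨h, rfl | rfl | rfl | rfl⟩) <;> tauto
      rw [hset]
      exact key u1 hu1R h0
    · refine ⟨u1, hu1, q, hqM, w1, hw1, w2, hw2, hqne.1.symm, hw, he1,
        by rw [hs.1]; exact hzero w2 hw2R, ?_⟩
      have hset : ({u1, q, w1, w2} : Finset V) = insert q (R.erase u2) := by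
        ext x
        simp only [hRdef, mem_insert, mem_singleton, mem_erase]
        constructor
        · rintro (rfl | rfl | rfl | rfl) <;> tauto
        · rintro (rfl | ⟨h, rfl | rfl | rfl | rfl⟩) <;> tauto
      rw [hset]
      exact key u2 hu2R h0

end SPE_

theorem p_SPE (h_MG : T_MG') : T_SPE := by
  intro V _ e X Y P M α u1 u2 w1 w2 hBar hα hPM hPMd hu1 hu2 hw1 hw2 hu hw he1 he2
  have hs := hBar.sym
  have hdeg : ∀ x ∈ X, dg e X x ≤ α := fun x hx => by have := hBar.dX x hx; omega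
  have hcX := hBar.cX
  have hmod := hBar.hmod
  obtain ⟨a', ha'⟩ : ∃ a', 2 * α = 3 * a' + 1 := ⟨(2 * α - 1) / 3, by omega⟩
  have ha : α + 1 ≤ 2 * a' := by omega
  have hne : ∀ u ∈ M, ∀ w ∈ P, u ≠ w := fun u hu w hw h =>
    Finset.disjoint_left.mp hPMd hw (h ▸ hu)
  have hRX : ({u1, u2, w1, w2} : Finset V) ⊆ X := by
    intro x hx
    rw [← hPM]
    simp only [mem_insert, mem_singleton] at hx
    rcases hx with rfl | rfl | rfl | rfl
    · exact mem_union_right _ hu1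
    · exact mem_union_right _ hu2
    · exact mem_union_left _ hw1
    · exact mem_union_left _ hw2
  have hRc : ({u1, u2, w1, w2} : Finset V).card = 4 := by
    rw [Finset.card_insert_of_notMem, Finset.card_insert_of_notMem,
      Finset.card_insert_of_notMem, Finset.card_singleton]
    · simpa using hw
    · simp [hne u2 hu2 w1 hw1, hne u2 hu2 w2 hw2]
    · simp [hu, hne u1 hu1 w1 hw1, hne u1 hu1 w2 hw2]
  have hc : (X \ {u1, u2, w1, w2}).card = 3 * a' := by
    rw [Finset.card_sdiff_of_subset hRX, hRc]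
    omega
  by_cases hb : Barrier e (X \ {u1, u2, w1, w2})
  · obtain ⟨A, B, hCP, _⟩ := hb
    have hCP' : CP e (X \ {u1, u2, w1, w2}) B A :=
      ⟨hCP.2.1, hCP.1, hCP.2.2.1.symm, by rw [union_comm]; exact hCP.2.2.2.1,
        fun a ha b hb => by rw [hs.1]; exact hCP.2.2.2.2 b hb a ha⟩
    have hbd : ∀ A B : Finset V, CP e (X \ {u1, u2, w1, w2}) A B → B.card ≤ α := by
      intro A B h
      obtain ⟨⟨a, haA⟩, _, _, hU, hcpl⟩ := h
      have hsubB : B ⊆ X := fun b hb => by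
        have : b ∈ X \ {u1, u2, w1, w2} := hU ▸ mem_union_right A hb
        exact (mem_sdiff.mp this).1
      have haX : a ∈ X := by
        have : a ∈ X \ {u1, u2, w1, w2} := hU ▸ mem_union_left B haA
        exact (mem_sdiff.mp this).1
      calc B.card = ∑ b ∈ B, 1 := Finset.card_eq_sum_ones B
        _ ≤ ∑ b ∈ B, e a b := Finset.sum_le_sum fun b hb => hcpl a haA b hb
        _ ≤ ∑ b ∈ X, e a b := Finset.sum_le_sum_of_subset hsubB
        _ ≤ α := hdeg a haX
    have h1 := hbd A B hCP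
    have h2 := hbd B A hCP'
    have h3 : A.card + B.card = 3 * a' := by
      rw [← Finset.card_union_of_disjoint hCP.2.2.1, hCP.2.2.2.1, hc]
    by_cases hAα : A.card = α
    · exact SPE_.fin (h_MG V a') hs hdeg hPM hPMd hu1 hu2 hw1 hw2 hu hw he1 he2 hCP hAα
        (by omega) hα hc ha
    · exact SPE_.fin (h_MG V a') hs hdeg hPM hPMd hu1 hu2 hw1 hw2 hu hw he1 he2 hCP'
        (by omega) (by omega) hα hc ha
  · refine ⟨u1, hu1, u2, hu2, w1, hw1, w2, hw2, hu, hw, he1, he2, ?_⟩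
    apply h_MG V a' e _ hs hc _ hb
    intro v hv
    have h1 : dg e (X \ {u1, u2, w1, w2}) v ≤ dg e X v :=
      Finset.sum_le_sum_of_subset Finset.sdiff_subset
    have h2 := hdeg v (Finset.sdiff_subset hv)
    omega

end Pool.Agent.MGT
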