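import Pool.Agent.MGT.Targets2

set_option autoImplicit false

/-!
# MGT: SPL, the two classes of `X`
-/

open Finset

namespace Pool.Agent.MGT

namespace SPL_

variable {V : Type}

theorem mis_pos {D : Digraph V} {u v : V} (huv : u ≠ v) (h : ¬ D.Adj u v) : 1 ≤ mis D u v := by
  unfold mis
  rw [if_neg huv, if_neg h]
  omega

theorem mis_zero {D : Digraph V} {u v : V} (h1 : D.Adj u v) (h2 : D.Adj v u) :
    mis D u v = 0 := by
  unfold mis
  rw [if_pos h1, if_pos h2]
  split_ifs <;> rfl

theorem mis_two {D : Digraph V} {u v : V} (huv : u ≠ v) (h1 : ¬ D.Adj u v)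
    (h2 : ¬ D.Adj v u) : 2 ≤ mis D u v := by
  unfold mis
  rw [if_neg huv, if_neg h1, if_neg h2]

theorem dg_ge [DecidableEq V] {e : V → V → ℕ} {Y O : Finset V} {v : V} (hO : O ⊆ Y)
    (h : ∀ o ∈ O, 1 ≤ e v o) : O.card ≤ dg e Y v := by
  unfold dg
  calc O.card = ∑ o ∈ O, 1 := by rw [Finset.card_eq_sum_ones]
    _ ≤ ∑ o ∈ O, e v o := Finset.sum_le_sum h
    _ ≤ ∑ w ∈ Y, e v w := Finset.sum_le_sum_of_subset hO

/-- a set with at most one element is contained in a singleton -/
theorem exists_z [DecidableEq V] {X P : Finset V} (hP : P ⊆ X) (hX : X.Nonempty)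
    (hc : ¬ 2 ≤ P.card) : ∃ z ∈ X, P ⊆ {z} := by
  have h1 : P.card ≤ 1 := by omega
  rcases Finset.eq_empty_or_nonempty P with h | ⟨z, hz⟩
  · obtain ⟨z, hz⟩ := hX
    exact ⟨z, hz, by rw [h]; exact Finset.empty_subset _⟩
  · refine ⟨z, hP hz, fun w hw => ?_⟩
    rw [Finset.mem_singleton]
    exact Finset.card_le_one.1 h1 w hw z hz

end SPL_

open SPL_

theorem p_SPL : T_SPL := by
  classical
  intro V _ _ D X Y α β hD hB hU hR hC
  have hne : ∀ x ∈ X, ∀ y ∈ Y, x ≠ y := by
    rintro x hx y hy rfl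
    exact Finset.disjoint_left.1 hB.disj hx hy
  -- joined vertices
  have hcnt : ∀ x ∈ X, 2 * β + 3 ≤ (Y.filter fun y => D.Adj x y).card +
      (Y.filter fun y => D.Adj y x).card := by
    intro x hx
    have h1 : Y ⊆ ((Y.filter fun y => D.Adj x y) ∪ (Y.filter fun y => D.Adj y x)) ∪
        (Y.filter fun y => 2 ≤ mis D x y) := by
      intro y hy
      simp only [Finset.mem_union, Finset.mem_filter]
      by_cases ha : D.Adj x y
      · exact Or.inl (Or.inl ⟨hy, ha⟩)
      · by_cases hb : D.Adj y x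
        · exact Or.inl (Or.inr ⟨hy, hb⟩)
        · exact Or.inr ⟨hy, mis_two (hne x hx y hy) ha hb⟩
    have h2 := Finset.card_le_card h1
    have h3 := Finset.card_union_le ((Y.filter fun y => D.Adj x y) ∪
      (Y.filter fun y => D.Adj y x)) (Y.filter fun y => 2 ≤ mis D x y)
    have h4 := Finset.card_union_le (Y.filter fun y => D.Adj x y) (Y.filter fun y => D.Adj y x)
    have h5 := hB.dX x hx
    have h6 := hB.cY
    have h7 : (Y.filter fun y => 2 ≤ mis D x y).card ≤ α := by
      refine le_trans ?_ (le_trans (Nat.le_add_left _ _) h5)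
      exact le_of_eq (by congr)
    omega
  -- no vertex has both kinds of neighbours
  have hone : ∀ x ∈ X, (∀ y ∈ Y, ¬ D.Adj y x) ∨ (∀ y ∈ Y, ¬ D.Adj x y) := by
    intro x hx
    by_contra hno
    push Not at hno
    obtain ⟨⟨i, hiY, hix⟩, o, hoY, hxo⟩ := hno
    have hOI : ∀ o ∈ Y, D.Adj x o → ∀ i ∈ Y, D.Adj i x → 1 ≤ mis D o i ∧ 1 ≤ mis D i o := by
      intro o hoY hxo i hiY hix
      have hoi : o ≠ i := by
        rintro rfl
        have h1 := hB.cpl x hx o hoY
        rw [mis_zero hxo hix] at h1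
        omega
      have h2 : ¬ D.Adj o i := fun h => hC ⟨x, hx, o, hoY, i, hiY, hoi, hxo, h, hix⟩
      have h3 := mis_pos hoi h2
      refine ⟨h3, ?_⟩
      rw [hB.sym.1 i o]
      exact h3
    have h1 : (Y.filter fun y => D.Adj x y).card ≤ β := by
      refine le_trans (dg_ge (Finset.filter_subset _ _) (v := i) (e := mis D) ?_)
        (le_trans (Nat.le_add_right _ _) (hB.dY i hiY))
      intro o ho
      obtain ⟨ho1, ho2⟩ := Finset.mem_filter.1 ho
      exact (hOI o ho1 ho2 i hiY hix).2
    have h2 : (Y.filter fun y => D.Adj y x).card ≤ β := by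
      refine le_trans (dg_ge (Finset.filter_subset _ _) (v := o) (e := mis D) ?_)
        (le_trans (Nat.le_add_right _ _) (hB.dY o hoY))
      intro i hi
      obtain ⟨hi1, hi2⟩ := Finset.mem_filter.1 hi
      exact (hOI o hoY hxo i hi1 hi2).1
    have h3 := hcnt x hx
    omega
  have hXn : X.Nonempty := by
    rw [← Finset.card_pos, hB.cX]
    omega
  have hYn : Y.Nonempty := by
    rw [← Finset.card_pos, hB.cY]
    omega
  have hX1 : ∀ z : V, ∃ u ∈ X, u ≠ z := by
    intro z
    have h1 : 0 < (X.erase z).card := by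
      have := Finset.pred_card_le_card_erase (s := X) (a := z)
      have := hB.cX
      omega
    obtain ⟨u, hu⟩ := Finset.card_pos.1 h1
    obtain ⟨hu1, hu2⟩ := Finset.mem_erase.1 hu
    exact ⟨u, hu2, hu1⟩
  have hXY : ∀ v : V, v ∈ X ∨ v ∈ Y := by
    intro v
    have : v ∈ X ∪ Y := by rw [hU]; exact Finset.mem_univ v
    exact Finset.mem_union.1 this
  refine ⟨X.filter fun x => ∀ y ∈ Y, ¬ D.Adj y x, X.filter fun x => ∀ y ∈ Y, ¬ D.Adj x y,
    ?_, ?_, ?_, ?_, ?_, ?_⟩
  · ext x
    simp only [Finset.mem_union, Finset.mem_filter]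
    constructor
    · rintro (h | h)
      · exact h.1
      · exact h.1
    · intro hx
      rcases hone x hx with h | h
      · exact Or.inl ⟨hx, h⟩
      · exact Or.inr ⟨hx, h⟩
  · rw [Finset.disjoint_left]
    intro x h1 h2
    obtain ⟨hx, h3⟩ := Finset.mem_filter.1 h1
    obtain ⟨-, h4⟩ := Finset.mem_filter.1 h2
    have h5 := hcnt x hx
    rw [Finset.filter_false_of_mem h4, Finset.filter_false_of_mem h3] at h5
    simp at h5
  · by_contra hc
    obtain ⟨z, hz, hPz⟩ := exists_z (Finset.filter_subset _ _) hXn hc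
    obtain ⟨u, hu, huz⟩ := hX1 z
    obtain ⟨v, hv⟩ := hYn
    have hvz : v ≠ z := fun h => hne z hz v hv h.symm
    have key : ∀ w : V, Relation.ReflTransGen (fun a b => a ≠ z ∧ b ≠ z ∧ D.Adj a b) u w →
        w ∈ X ∧ w ≠ z := by
      intro w hw
      induction hw with
      | refl => exact ⟨hu, huz⟩
      | @tail b d _ h2 ih =>
        refine ⟨?_, h2.2.1⟩
        rcases hXY d with h | h
        · exact h
        · exfalso
          rcases hone b ih.1 with h3 | h3
          · have := hPz (Finset.mem_filter.2 ⟨ih.1, h3⟩)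
            exact ih.2 (Finset.mem_singleton.1 this)
          · exact h3 d h h2.2.2
    exact hne v (key v (hR z u v huz hvz)).1 v hv rfl
  · by_contra hc
    obtain ⟨z, hz, hMz⟩ := exists_z (Finset.filter_subset _ _) hXn hc
    obtain ⟨u, hu, huz⟩ := hX1 z
    obtain ⟨v, hv⟩ := hYn
    have hvz : v ≠ z := fun h => hne z hz v hv h.symm
    have key : ∀ w : V, Relation.ReflTransGen (fun a b => a ≠ z ∧ b ≠ z ∧ D.Adj a b) v w →
        w ∈ Y := by
      intro w hw
      induction hw with
      | refl => exact hv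
      | @tail b d _ h2 ih =>
        rcases hXY d with h | h
        · exfalso
          rcases hone d h with h3 | h3
          · exact h3 b ih h2.2.2
          · have := hMz (Finset.mem_filter.2 ⟨h, h3⟩)
            exact h2.2.1 (Finset.mem_singleton.1 this)
        · exact h
    exact hne u hu u (key u (hR z v u hvz huz)) rfl
  · intro x hx
    exact (Finset.mem_filter.1 hx).2
  · intro x hx
    exact (Finset.mem_filter.1 hx).2

end Pool.Agent.MGT
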