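import Pool.Agent.MGT.Targets2

set_option autoImplicit false

/-!
# MGT-TIL: basic facts on tilings
-/

open Finset

namespace Pool.Agent.MGT

/-- Basic facts on `Tiles`. -/
theorem p_TIL : T_TIL := by
  intro V ι _ _ D T
  refine ⟨?_, ?_, ?_, ?_⟩
  · rintro I J S S' ⟨f, hf1, hf2, hf3⟩ ⟨g, hg1, hg2, hg3⟩ hIJ hSS
    have hJ : ∀ j ∈ J, j ∉ I := fun j hj hi => (Finset.disjoint_left.1 hIJ) hi hj
    refine ⟨fun i => if i ∈ I then f i else g i, ?_, ?_, ?_⟩
    · intro i hi a
      rcases Finset.mem_union.1 hi with h | h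
      · simp only [if_pos h]
        exact Finset.mem_union_left _ (hf1 i h a)
      · simp only [if_neg (hJ i h)]
        exact Finset.mem_union_right _ (hg1 i h a)
    · intro i hi j hj a b hab
      rcases Finset.mem_union.1 hi with h | h <;> rcases Finset.mem_union.1 hj with h' | h'
      · simp only [if_pos h, if_pos h'] at hab
        exact hf2 i h j h' a b hab
      · simp only [if_pos h, if_neg (hJ j h')] at hab
        exact absurd (hg1 j h' b) ((Finset.disjoint_left.1 hSS) (hab ▸ hf1 i h a))
      · simp only [if_neg (hJ i h), if_pos h'] at hab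
        exact absurd (hg1 i h a) ((Finset.disjoint_left.1 hSS) (hab ▸ hf1 j h' b))
      · simp only [if_neg (hJ i h), if_neg (hJ j h')] at hab
        exact hg2 i h j h' a b hab
    · intro i hi a b hab
      rcases Finset.mem_union.1 hi with h | h
      · simp only [if_pos h]
        exact hf3 i h a b hab
      · simp only [if_neg (hJ i h)]
        exact hg3 i h a b hab
  · rintro I S S' ⟨f, hf1, hf2, hf3⟩ hSS
    exact ⟨f, fun i hi a => hSS (hf1 i hi a), hf2, hf3⟩
  · intro i g S hg hgS hgD
    refine ⟨fun _ => g, fun j _ a => hgS a, ?_, ?_⟩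
    · intro j hj j' hj' a b hab
      rw [Finset.mem_singleton] at hj hj'
      exact ⟨hj.trans hj'.symm, hg hab⟩
    · intro j hj a b hab
      rw [Finset.mem_singleton] at hj
      subst hj
      exact hgD a b hab
  · rintro _ S ⟨f, _, hf2, hf3⟩
    refine ⟨fun p => f p.1 p.2, ?_, ?_⟩
    · rintro ⟨i, a⟩ ⟨j, b⟩ hab
      obtain ⟨h1, h2⟩ := hf2 i (Finset.mem_univ _) j (Finset.mem_univ _) a b hab
      rw [h1, h2]
    · intro i a b hab
      exact hf3 i (Finset.mem_univ _) a b hab

end Pool.Agent.MGT
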