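import Pool.Agent.MGT.Targets2

set_option autoImplicit false

/-!
# MGT: the target T_TR1
-/

open Finset

namespace Pool.Agent.MGT

namespace TR1_

/-- A set with more than `b + 1` elements, where `y` has degree at most `b`, contains another
element not adjacent to `y`. -/
lemma exists_nonadj {V : Type} [DecidableEq V] (e : V → V → ℕ) (N : Finset V) (y : V) (b : ℕ)
    (hy : y ∈ N) (hN : b + 2 ≤ N.card) (hd : dg e N y ≤ b) : ∃ z ∈ N, y ≠ z ∧ e y z = 0 := by
  by_contra hcon
  push Not at hcon
  have h1 : ∑ _w ∈ N.erase y, 1 ≤ ∑ w ∈ N.erase y, e y w := by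
    refine Finset.sum_le_sum fun w hw => ?_
    have hw' := Finset.mem_erase.mp hw
    exact Nat.one_le_iff_ne_zero.mpr (hcon w hw'.2 (Ne.symm hw'.1))
  have h2 : ∑ w ∈ N.erase y, e y w ≤ dg e N y := by
    unfold dg
    exact Finset.sum_le_sum_of_subset (Finset.erase_subset y N)
  have h3 : ∑ _w ∈ N.erase y, 1 = (N.erase y).card := by simp
  have h4 : (N.erase y).card = N.card - 1 := Finset.card_erase_of_mem hy
  omega

end TR1_

theorem p_TR1 : T_TR1 := by
  intro V _ e X Y α β hB
  have hXc := hB.cX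
  have hYc := hB.cY
  have hXne : X.Nonempty := by
    rw [← Finset.card_pos]
    omega
  obtain ⟨x, hx⟩ := hXne
  have hdx := hB.dX x hx
  have hsplit : (Y.filter fun y => e x y ≤ 1).card + (Y.filter fun y => 2 ≤ e x y).card
      = Y.card := by
    have h := Finset.card_filter_add_card_filter_not (s := Y) (fun y => e x y ≤ 1)
    have h2 : (Y.filter fun y => ¬ e x y ≤ 1) = (Y.filter fun y => 2 ≤ e x y) := by
      refine Finset.filter_congr fun y _ => ?_
      omega
    rw [h2] at h
    exact h
  have hN : 2 * β + 3 ≤ (Y.filter fun y => e x y ≤ 1).card := by omega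
  have hNne : (Y.filter fun y => e x y ≤ 1).Nonempty := by
    rw [← Finset.card_pos]
    omega
  obtain ⟨y, hy⟩ := hNne
  have hyY : y ∈ Y := (Finset.mem_filter.mp hy).1
  have hyx : e x y ≤ 1 := (Finset.mem_filter.mp hy).2
  have hdy := hB.dY y hyY
  have hdN : dg e (Y.filter fun y => e x y ≤ 1) y ≤ β := by
    have h1 : dg e (Y.filter fun y => e x y ≤ 1) y ≤ dg e Y y := by
      unfold dg
      exact Finset.sum_le_sum_of_subset (Finset.filter_subset _ Y)
    omega
  obtain ⟨z, hz, hne, h0⟩ := TR1_.exists_nonadj e _ y β hy (by omega) hdN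
  have hz' := Finset.mem_filter.mp hz
  exact ⟨x, hx, y, hyY, z, hz'.1, hne, hyx, hz'.2, h0⟩

end Pool.Agent.MGT
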