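import Pool.Agent.MGT.Targets2

set_option autoImplicit false

/-!
Two disjoint triangles in the situation of a barrier (MGT, MP_1b96da_co).
-/

open Finset

namespace Pool.Agent.MGT

namespace TWO_

variable {V : Type} [DecidableEq V] {e : V → V → ℕ} {X Y : Finset V} {α β : ℕ}

lemma card_le_dg (e : V → V → ℕ) (S : Finset V) (u : V) :
    (S.filter fun w => e u w ≠ 0).card ≤ dg e S u := by
  rw [dg, Finset.card_eq_sum_ones]
  refine (Finset.sum_le_sum (fun w hw => ?_)).trans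
    (Finset.sum_le_sum_of_subset (Finset.filter_subset _ _))
  have := (Finset.mem_filter.mp hw).2
  omega

/-- A set with more than `α` elements contains a vertex which is not adjacent to `u`. -/
lemma exists_zero (h : Bar e X Y α β) {u : V} (hu : u ∈ X) {S : Finset V} (hS : S ⊆ X)
    (hc : α + 1 ≤ S.card) : ∃ w ∈ S, e u w = 0 := by
  by_contra hcon
  push Not at hcon
  have h1 : S ⊆ X.filter fun w => e u w ≠ 0 := by
    intro w hw
    exact Finset.mem_filter.mpr ⟨hS hw, hcon w hw⟩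
  have h2 := Finset.card_le_card h1
  have h3 := card_le_dg e X u
  have h4 := h.dX u hu
  omega

lemma exists_zero' (h : Bar e X Y α β) {A B : Finset V} (hA : A ⊆ X) (hB : B ⊆ X)
    (hA1 : 1 ≤ A.card) (hB1 : 1 ≤ B.card) (hc : 2 * α + 1 ≤ A.card + B.card) :
    ∃ a ∈ A, ∃ b ∈ B, e a b = 0 := by
  obtain ⟨a, ha⟩ := Finset.card_pos.mp hA1
  obtain ⟨b, hb⟩ := Finset.card_pos.mp hB1
  by_cases hB2 : α + 1 ≤ B.card
  · obtain ⟨w, hw, hw0⟩ := exists_zero h (hA ha) hB hB2
    exact ⟨a, ha, w, hw, hw0⟩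
  · obtain ⟨w, hw, hw0⟩ := exists_zero h (hB hb) hA (by omega)
    exact ⟨w, hw, b, hb, by rw [h.sym.1]; exact hw0⟩

/-- The vertices of `Y` joined to `u` by at most one edge. -/
def N (e : V → V → ℕ) (Y : Finset V) (u : V) : Finset V := Y.filter fun y => e u y ≤ 1

/-- The vertices of `X` joined to `y` by at most one edge. -/
def Q (e : V → V → ℕ) (X : Finset V) (y : V) : Finset V := X.filter fun x => e x y ≤ 1

lemma N_card (h : Bar e X Y α β) {u : V} (hu : u ∈ X) :
    Y.card ≤ (N e Y u).card + α := by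
  have h1 := Finset.card_filter_add_card_filter_not (s := Y) (fun y => e u y ≤ 1)
  have h2 : (Y.filter fun y => ¬ e u y ≤ 1) = Y.filter fun y => 2 ≤ e u y := by
    apply Finset.filter_congr
    intro y _
    omega
  have h3 := h.dX u hu
  rw [h2] at h1
  unfold N
  omega

lemma Q_card (h : Bar e X Y α β) {y : V} (hy : y ∈ Y) :
    X.card ≤ (Q e X y).card + β := by
  have h1 := Finset.card_filter_add_card_filter_not (s := X) (fun x => e x y ≤ 1)
  have h2 : (X.filter fun x => ¬ e x y ≤ 1) = X.filter fun x => 2 ≤ e x y := by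
    apply Finset.filter_congr
    intro x _
    omega
  have h3 := h.dY y hy
  rw [h2] at h1
  unfold Q
  omega

lemma inter_card (S T Z : Finset V) (hS : S ⊆ Z) (hT : T ⊆ Z) :
    S.card + T.card ≤ (S ∩ T).card + Z.card := by
  have h1 := Finset.card_union_add_card_inter S T
  have h2 := Finset.card_le_card (Finset.union_subset hS hT)
  omega

lemma exists_erase {S : Finset V} (w : V) (n : ℕ) (h : n + 1 ≤ S.card) :
    n ≤ (S.erase w).card := by
  have := Finset.pred_card_le_card_erase (s := S) (a := w)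
  omega

/-- The statement for `M`, `P`. -/
def St (e : V → V → ℕ) (Y P M : Finset V) : Prop :=
  ∃ u1 ∈ M, ∃ u2 ∈ M, ∃ w1 ∈ P, ∃ w2 ∈ P, ∃ y1 ∈ Y, ∃ y2 ∈ Y, u1 ≠ u2 ∧ w1 ≠ w2 ∧ y1 ≠ y2 ∧
    e u1 w1 = 0 ∧ e u2 w2 = 0 ∧ e u1 y1 ≤ 1 ∧ e w1 y1 ≤ 1 ∧ e u2 y2 ≤ 1 ∧ e w2 y2 ≤ 1

lemma St_symm (hs : Sym e) {P M : Finset V} (h : St e Y P M) : St e Y M P := by
  obtain ⟨u1, h1, u2, h2, w1, h3, w2, h4, y1, h5, y2, h6, a, b, c, d, f, g, i, j, k⟩ := h
  exact ⟨w1, h3, w2, h4, u1, h1, u2, h2, y1, h5, y2, h6, b, a, c, by rw [hs.1]; exact d,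
    by rw [hs.1]; exact f, i, g, k, j⟩

lemma caseI (h : Bar e X Y α β) {P M : Finset V} (hPM : P ∪ M = X) (hM : 2 ≤ M.card)
    (hM' : M.card ≤ α + 1) : St e Y P M := by
  have hPX : P ⊆ X := by rw [← hPM]; exact Finset.subset_union_left
  have hMX : M ⊆ X := by rw [← hPM]; exact Finset.subset_union_right
  have hcX := h.cX
  have hcY := h.cY
  have key : ∀ y ∈ Y, α + 2 ≤ (P ∩ Q e X y).card := by
    intro y hy
    have h1 := Q_card h hy
    have h2 : Q e X y ⊆ (P ∩ Q e X y) ∪ M := by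
      intro x hx
      have hx' : x ∈ X := (Finset.mem_filter.mp hx).1
      rw [← hPM] at hx'
      rcases Finset.mem_union.mp hx' with hx' | hx'
      · exact Finset.mem_union_left _ (Finset.mem_inter.mpr ⟨hx', hx⟩)
      · exact Finset.mem_union_right _ hx'
    have h3 := Finset.card_le_card h2
    have h4 := Finset.card_union_le (P ∩ Q e X y) M
    omega
  obtain ⟨u1, hu1, u2, hu2, hne⟩ := Finset.one_lt_card.mp (by omega : 1 < M.card)
  have hN1 := N_card h (hMX hu1)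
  have hN2 := N_card h (hMX hu2)
  obtain ⟨y1, hy1⟩ := Finset.card_pos.mp (by omega : 0 < (N e Y u1).card)
  obtain ⟨y2, hy2⟩ := Finset.card_pos.mp
    (by have := exists_erase (S := N e Y u2) y1 1 (by omega); omega :
      0 < ((N e Y u2).erase y1).card)
  rw [Finset.mem_erase] at hy2
  obtain ⟨hy21, hy2⟩ := hy2
  rw [N, Finset.mem_filter] at hy1 hy2
  obtain ⟨w1, hw1, hz1⟩ := exists_zero h (hMX hu1) (S := P ∩ Q e X y1)
    (Finset.inter_subset_left.trans hPX) (by have := key y1 hy1.1; omega)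
  obtain ⟨w2, hw2, hz2⟩ := exists_zero h (hMX hu2) (S := (P ∩ Q e X y2).erase w1)
    ((Finset.erase_subset _ _).trans (Finset.inter_subset_left.trans hPX))
    (exists_erase w1 (α + 1) (key y2 hy2.1))
  rw [Finset.mem_inter] at hw1
  rw [Finset.mem_erase, Finset.mem_inter] at hw2
  exact ⟨u1, hu1, u2, hu2, w1, hw1.1, w2, hw2.2.1, y1, hy1.1, y2, hy2.1, hne, hw2.1.symm,
    hy21.symm, hz1, hz2, hy1.2, (Finset.mem_filter.mp hw1.2).2, hy2.2,
    (Finset.mem_filter.mp hw2.2.2).2⟩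

lemma caseII (h : Bar e X Y α β) {P M : Finset V} (hPM : P ∪ M = X)
    (hM : α + 2 ≤ M.card) (hP : α + 2 ≤ P.card) (hab : α ≤ 2 * β + 1) (hM2 : 2 ≤ M.card) :
    St e Y P M := by
  have hPX : P ⊆ X := by rw [← hPM]; exact Finset.subset_union_left
  have hMX : M ⊆ X := by rw [← hPM]; exact Finset.subset_union_right
  have hcY := h.cY
  obtain ⟨u1, hu1, u2, hu2, hne⟩ := Finset.one_lt_card.mp (by omega : 1 < M.card)
  obtain ⟨w1, hw1, hz1⟩ := exists_zero h (hMX hu1) hPX (by omega)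
  obtain ⟨w2, hw2, hz2⟩ := exists_zero h (hMX hu2) (S := P.erase w1)
    ((Finset.erase_subset _ _).trans hPX) (exists_erase w1 (α + 1) hP)
  rw [Finset.mem_erase] at hw2
  have hN : ∀ u ∈ X, ∀ w ∈ X, 2 ≤ (N e Y u ∩ N e Y w).card := by
    intro u hu w hw
    have h1 := N_card h hu
    have h2 := N_card h hw
    have h3 := inter_card (N e Y u) (N e Y w) Y (Finset.filter_subset _ _)
      (Finset.filter_subset _ _)
    omega
  have h1 := hN u1 (hMX hu1) w1 (hPX hw1)
  have h2 := hN u2 (hMX hu2) w2 (hPX hw2.2)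
  obtain ⟨y1, hy1⟩ := Finset.card_pos.mp (by omega : 0 < (N e Y u1 ∩ N e Y w1).card)
  obtain ⟨y2, hy2⟩ := Finset.card_pos.mp
    (by have := exists_erase (S := N e Y u2 ∩ N e Y w2) y1 1 h2; omega :
      0 < ((N e Y u2 ∩ N e Y w2).erase y1).card)
  rw [Finset.mem_erase] at hy2
  simp only [Finset.mem_inter, N, Finset.mem_filter] at hy1 hy2
  exact ⟨u1, hu1, u2, hu2, w1, hw1, w2, hw2.2, y1, hy1.1.1, y2, hy2.2.1.1, hne, hw2.1.symm,
    hy2.1.symm, hz1, hz2, hy1.1.2, hy1.2.2, hy2.2.1.2, hy2.2.2.2⟩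

lemma caseIII (h : Bar e X Y α β) {P M : Finset V} (hPM : P ∪ M = X) (hd : Disjoint P M)
    (hM : α + 2 ≤ M.card) (hP : α + 2 ≤ P.card) (hab : 2 * β + 2 ≤ α) :
    St e Y P M := by
  have hPX : P ⊆ X := by rw [← hPM]; exact Finset.subset_union_left
  have hMX : M ⊆ X := by rw [← hPM]; exact Finset.subset_union_right
  have hcX := h.cX
  have hcY := h.cY
  have hsum : P.card + M.card = X.card := by
    rw [← hPM, Finset.card_union_of_disjoint hd]
  obtain ⟨y1, hy1, y2, hy2, hne⟩ := Finset.one_lt_card.mp (by omega : 1 < Y.card)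
  have hq : ∀ y ∈ Y, α + 2 ≤ (M ∩ Q e X y).card + β ∧ α + 2 ≤ (P ∩ Q e X y).card + β ∧
      2 * α + 3 ≤ (M ∩ Q e X y).card + (P ∩ Q e X y).card := by
    intro y hy
    have h1 := Q_card h hy
    have hQX : Q e X y ⊆ X := Finset.filter_subset _ _
    have h2 := inter_card M (Q e X y) X hMX hQX
    have h3 := inter_card P (Q e X y) X hPX hQX
    have h4 : Q e X y ⊆ (M ∩ Q e X y) ∪ (P ∩ Q e X y) := by
      intro x hx
      have hx' : x ∈ X := hQX hx
      rw [← hPM] at hx'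
      rcases Finset.mem_union.mp hx' with hx' | hx'
      · exact Finset.mem_union_right _ (Finset.mem_inter.mpr ⟨hx', hx⟩)
      · exact Finset.mem_union_left _ (Finset.mem_inter.mpr ⟨hx', hx⟩)
    have h5 := Finset.card_le_card h4
    have h6 := Finset.card_union_le (M ∩ Q e X y) (P ∩ Q e X y)
    omega
  obtain ⟨a1, a2, a3⟩ := hq y1 hy1
  obtain ⟨b1, b2, b3⟩ := hq y2 hy2
  obtain ⟨u1, hu1, w1, hw1, hz1⟩ := exists_zero' h (A := M ∩ Q e X y1) (B := P ∩ Q e X y1)
    (Finset.inter_subset_left.trans hMX) (Finset.inter_subset_left.trans hPX) (by omega)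
    (by omega) (by omega)
  have c1 : (M ∩ Q e X y2).card ≤ ((M ∩ Q e X y2).erase u1).card + 1 := by
    have := Finset.pred_card_le_card_erase (s := M ∩ Q e X y2) (a := u1)
    omega
  have c2 : (P ∩ Q e X y2).card ≤ ((P ∩ Q e X y2).erase w1).card + 1 := by
    have := Finset.pred_card_le_card_erase (s := P ∩ Q e X y2) (a := w1)
    omega
  obtain ⟨u2, hu2, w2, hw2, hz2⟩ := exists_zero' h (A := (M ∩ Q e X y2).erase u1)
    (B := (P ∩ Q e X y2).erase w1)
    ((Finset.erase_subset _ _).trans (Finset.inter_subset_left.trans hMX))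
    ((Finset.erase_subset _ _).trans (Finset.inter_subset_left.trans hPX)) (by omega)
    (by omega) (by omega)
  simp only [Finset.mem_erase, Finset.mem_inter, Q, Finset.mem_filter] at hu1 hw1 hu2 hw2
  exact ⟨u1, hu1.1, u2, hu2.2.1, w1, hw1.1, w2, hw2.2.1, y1, hy1, y2, hy2, hu2.1.symm,
    hw2.1.symm, hne, hz1, hz2, hu1.2.2, hw1.2.2, hu2.2.2.2, hw2.2.2.2⟩

end TWO_

open TWO_ in
/-- Two disjoint triangles. -/
theorem p_TWO : T_TWO := by
  intro V _ e X Y P M α β h hPM hd hP hM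
  change St e Y P M
  by_cases h1 : M.card ≤ α + 1
  · exact caseI h hPM hM h1
  by_cases h2 : P.card ≤ α + 1
  · exact St_symm h.sym (caseI h (by rw [Finset.union_comm]; exact hPM) hP h2)
  by_cases h3 : α ≤ 2 * β + 1
  · exact caseII h hPM (by omega) (by omega) h3 hM
  · exact caseIII h hPM hd (by omega) (by omega) (by omega)

end Pool.Agent.MGT
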