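import Pool.Agent.MGT.Targets2

set_option autoImplicit false

open Finset

namespace Pool.Agent.MGT

/-- A factor gives a family of good triples indexed by any index set of the right size. -/
theorem fact_parts {V ι : Type} [DecidableEq V] [DecidableEq ι] {e : V → V → ℕ} {S : Finset V}
    (h : Fact e S) : ∀ I : Finset ι, S.card = 3 * I.card →
    ∃ P : ι → Finset V, (∀ i ∈ I, P i ⊆ S) ∧
      (∀ i ∈ I, ∃ a b c, Good e a b c ∧ P i = {a, b, c}) ∧
      (∀ i ∈ I, ∀ j ∈ I, i ≠ j → Disjoint (P i) (P j)) := by
  induction h with
  | nil =>
    intro I hI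
    have hI0 : I = ∅ := by
      rw [Finset.card_empty] at hI
      exact Finset.card_eq_zero.1 (by omega)
    subst hI0
    exact ⟨fun _ => ∅, by simp, by simp, by simp⟩
  | add S a b c hS ha hb hc hg ih =>
    intro I hI
    obtain ⟨hab, hac, hbc, hle⟩ := hg
    have hcard : (insert a (insert b (insert c S))).card = S.card + 3 := by
      rw [Finset.card_insert_of_notMem, Finset.card_insert_of_notMem,
        Finset.card_insert_of_notMem hc]
      · simp [hb, hbc]
      · simp [ha, hab, hac]
    rw [hcard] at hI
    have hne : I.Nonempty := Finset.card_pos.1 (by omega)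
    obtain ⟨i, hi⟩ := hne
    have hIe : S.card = 3 * (I.erase i).card := by
      rw [Finset.card_erase_of_mem hi]
      omega
    obtain ⟨P, h1, h2, h3⟩ := ih (I.erase i) hIe
    refine ⟨fun j => if j = i then {a, b, c} else P j, ?_, ?_, ?_⟩
    · intro j hj
      by_cases hji : j = i
      · simp only [hji, if_true]
        intro x hx
        simp only [Finset.mem_insert, Finset.mem_singleton] at hx ⊢
        tauto
      · simp only [hji, if_false]
        intro x hx
        have := h1 j (Finset.mem_erase.2 ⟨hji, hj⟩) hx
        simp only [Finset.mem_insert]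
        tauto
    · intro j hj
      by_cases hji : j = i
      · exact ⟨a, b, c, ⟨hab, hac, hbc, hle⟩, by simp [hji]⟩
      · obtain ⟨a', b', c', hg', hP⟩ := h2 j (Finset.mem_erase.2 ⟨hji, hj⟩)
        exact ⟨a', b', c', hg', by simp [hji, hP]⟩
    · have key : ∀ j ∈ I, j ≠ i → Disjoint ({a, b, c} : Finset V) (P j) := by
        intro j hj hji
        rw [Finset.disjoint_left]
        intro x hx hxP
        have hxS := h1 j (Finset.mem_erase.2 ⟨hji, hj⟩) hxP
        simp only [Finset.mem_insert, Finset.mem_singleton] at hx
        rcases hx with rfl | rfl | rfl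
        · exact ha hxS
        · exact hb hxS
        · exact hc hxS
      intro j hj l hl hjl
      by_cases hji : j = i
      · have hli : l ≠ i := fun h => hjl (hji.trans h.symm)
        simp only [hji, if_true, hli, if_false]
        exact key l hl hli
      · by_cases hli : l = i
        · simp only [hji, if_false, hli, if_true]
          exact (key j hj hji).symm
        · simp only [hji, if_false, hli]
          exact h3 j (Finset.mem_erase.2 ⟨hji, hj⟩) l (Finset.mem_erase.2 ⟨hli, hl⟩) hjl

open scoped Classical in
/-- A good triple misses at most one arc. -/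
theorem miss_le {V : Type} [DecidableEq V] (D : Digraph V) (a b c : V)
    (h : Good (mis D) a b c) :
    ((({a, b, c} : Finset V) ×ˢ ({a, b, c} : Finset V)).filter
      (fun p => p.1 ≠ p.2 ∧ ¬ D.Adj p.1 p.2)).card ≤ 1 := by
  obtain ⟨hab, hac, hbc, hle⟩ := h
  have hba := hab.symm
  have hca := hac.symm
  have hcb := hbc.symm
  rw [Finset.card_filter, Finset.sum_product]
  have hb' : a ∉ ({b, c} : Finset V) := by simp [hab, hac]
  have hc' : b ∉ ({c} : Finset V) := by simp [hbc]
  simp only [Finset.sum_insert hb', Finset.sum_insert hc', Finset.sum_singleton]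
  simp only [ne_eq, not_true_eq_false, false_and, if_false, hab, hac, hbc, hba, hca, hcb,
    not_false_eq_true, true_and]
  simp only [mis, hab, hac, hbc, if_false] at hle
  by_cases h1 : D.Adj a b <;> by_cases h2 : D.Adj b a <;> by_cases h3 : D.Adj a c <;>
    by_cases h4 : D.Adj c a <;> by_cases h5 : D.Adj b c <;> by_cases h6 : D.Adj c b <;>
    simp [h1, h2, h3, h4, h5, h6] at hle ⊢

end Pool.Agent.MGT
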