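import Pool.Agent.MGT.Main
import Pool.Agent.MGT.Parts
import Pool.Agent.MGT.P_MIS
import Pool.Agent.MGT.P_MISD
import Pool.Agent.MGT.P_TIL
import Pool.Agent.MGT.P_EMB
import Pool.Agent.MGT.P_FTI
import Pool.Agent.MGT.P_BAR
import Pool.Agent.MGT.P_RE1
import Pool.Agent.MGT.P_TR1
import Pool.Agent.MGT.P_SPL
import Pool.Agent.MGT.P_TWO
import Pool.Agent.MGT.P_RE2
import Pool.Agent.MGT.P_SPE
import Pool.Agent.MGT.P_SMA
import Pool.Agent.MGT.P_TRI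
import Pool.Agent.MGT.P_CYC1
import Pool.Agent.MGT.P_CYC2
import Pool.Agent.MGT.P_BARR
import Pool.Agent.MGT.P_FINx

set_option autoImplicit false

open Finset

namespace Pool.Agent.MGT

/-- The case `s = 3` of question Q1 of MP_1b96da_co. -/
theorem fin : T_FIN := by
  have h_MG : T_MG' := fun V _ k => mg V k
  have h_MIS : T_MIS := p_MIS
  have h_TIL : T_TIL := p_TIL
  have h_EMB : T_EMB := p_EMB
  have h_EB : T_EB := p_EB
  have h_FTI : T_FTI := p_FTI h_EMB h_TIL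
  have h_RE1 : T_RE1 := p_RE1 h_MG
  have h_TRI : T_TRI := p_TRI p_TR1 h_RE1 h_EMB h_FTI h_TIL
  have h_CYC1 : T_CYC1 := p_CYC1 h_RE1 h_EMB h_FTI h_TIL
  have h_CYC2 : T_CYC2 := p_CYC2 h_RE1 h_EMB h_FTI h_TIL
  have h_BARR : T_BARR := p_BARR h_MIS h_TRI h_CYC1 h_CYC2 p_SPL p_TWO (p_RE2 h_MG h_EB)
    (p_SPE h_MG) p_SMA
  exact p_FINx h_MG h_MIS p_MISD h_FTI h_TIL (p_BAR h_EB) h_BARR

end Pool.Agent.MGT
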