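import Pool.Agent.MGT.Targets

set_option autoImplicit false

open Finset

namespace Pool.Agent.MGT

variable {V : Type} [DecidableEq V]

omit [DecidableEq V] in
/-- `dg e S v` is at least `S.card` when all multiplicities `e v w`, `w ∈ S`, are positive. -/
theorem B_.card_le_dg (e : V → V → ℕ) (S : Finset V) (v : V) (h : ∀ w ∈ S, 1 ≤ e v w) :
    S.card ≤ dg e S v := by
  unfold dg
  calc S.card = ∑ w ∈ S, 1 := by simp
    _ ≤ ∑ w ∈ S, e v w := Finset.sum_le_sum h

/-- Case B. -/
theorem p_B (h_EB : T_EB) (h_ER : T_ER) (h_C1 : T_C1) : T_B := by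
  intro V _ e X Y p q u hC hp hu hdu hcl
  obtain ⟨hEe, -, -, -, -, hdel, -⟩ := h_EB V e hC.sym
  have hYne : Y.Nonempty := by
    rw [← Finset.card_pos, hC.cY]; omega
  obtain ⟨y1, hy1⟩ := hYne
  have hq : 1 ≤ q := by
    have := hC.dY y1 hy1
    omega
  have hdYu : dg e Y u ≤ 2 * q + 1 := by
    have := hC.dt u (Finset.mem_union_left _ hu)
    omega
  have hy0 : ∃ y0 ∈ Y, e u y0 = 0 := by
    by_contra hno
    push_neg at hno
    have := B_.card_le_dg e Y u (fun w hw => Nat.one_le_iff_ne_zero.mpr (hno w hw))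
    rw [hC.cY] at this
    omega
  obtain ⟨y0, hy0, he0⟩ := hy0
  refine h_C1 V e X Y p q u y0 hC hp hu hy0 he0 ?_ ?_
  · intro v hv
    have hvX : v ∈ X := Finset.mem_of_mem_erase hv
    have hne : v ≠ u := Finset.ne_of_mem_erase hv
    have h1 := hdel X v u hu
    have h2 := hC.dX v hvX
    by_cases h3 : dg e X v = 2 * p
    · have h4 := hcl v hvX h3 hne
      have h5 := hC.sym.1 u v
      omega
    · omega
  · intro A B hCP
    obtain ⟨h1, h2⟩ := (h_ER V e X u hC.sym hC.sX hu).1 A B hCP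
    obtain ⟨-, -, hdisj, hun, -⟩ := hCP
    have h3 : A.card + B.card = 3 * p + 1 := by
      rw [← Finset.card_union_of_disjoint hdisj, hun, Finset.card_erase_of_mem hu, hC.cX]
      omega
    rw [hdu] at h2
    omega

end Pool.Agent.MGT
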