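import Pool.Agent.MGT.Targets

set_option autoImplicit false

open Finset

namespace Pool.Agent.MGT

theorem BAx_ {V : Type} [DecidableEq V] (e : V → V → ℕ) (A B : Finset V) (v : V)
    (hv : v ∈ A) (h : Cpl e A B) : B.card ≤ dg e B v := by
  unfold dg
  calc B.card = ∑ _w ∈ B, 1 := by simp
    _ ≤ ∑ w ∈ B, e v w := Finset.sum_le_sum (fun w hw => h v hv w hw)

theorem BAx2_ {V : Type} [DecidableEq V] (e : V → V → ℕ) (A B : Finset V) (v : V)
    (h : A ⊆ B) : dg e A v ≤ dg e B v := by
  unfold dg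
  exact Finset.sum_le_sum_of_subset h

theorem p_BAx : T_BA := by
  intro V _ e R A B p b hs hR hd hb hcp h3
  obtain ⟨hA, hB, hdis, hun, hc⟩ := hcp
  have hcard : A.card + B.card = 3 * p := by
    have h1 := Finset.card_union_of_disjoint hdis
    rw [hun, Finset.card_erase_of_mem hb, hR] at h1
    omega
  have hAR : A ⊆ R := fun v hv => Finset.mem_of_mem_erase (hun ▸ Finset.mem_union_left B hv)
  have hBR : B ⊆ R := fun v hv => Finset.mem_of_mem_erase (hun ▸ Finset.mem_union_right A hv)
  have hc' : Cpl e B A := fun x hx y hy => by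
    have := hc y hy x hx
    rwa [hs.1 y x] at this
  obtain ⟨a, ha⟩ := hA
  obtain ⟨c, hcB⟩ := hB
  have h1 : B.card ≤ dg e R a := (BAx_ e A B a ha hc).trans (BAx2_ e B R a hBR)
  have h2 : A.card ≤ dg e R c := (BAx_ e B A c hcB hc').trans (BAx2_ e A R c hAR)
  have h1' := hd a (hAR ha)
  have h2' := hd c (hBR hcB)
  have hA1 : p + 1 ≤ A.card := by omega
  have hB1 : p + 1 ≤ B.card := by omega
  refine ⟨?_, hA1, hB1, ?_⟩
  · by_contra hlt
    have : p = 2 := by omega
    subst this
    have : A.card = 3 := by omega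
    exact h3 (by rw [this])
  · intro v hv
    have hv' : v ∈ A ∪ B := hun ▸ hv
    rcases Finset.mem_union.1 hv' with hvA | hvB
    · exact hB1.trans ((BAx_ e A B v hvA hc).trans (BAx2_ e B R v hBR))
    · exact hA1.trans ((BAx_ e B A v hvB hc').trans (BAx2_ e A R v hAR))

end Pool.Agent.MGT
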