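import Pool.Agent.MGT.Targets

set_option autoImplicit false

/-!
# MGT: two barriers (BB)
-/

open Finset

namespace Pool.Agent.MGT

variable {V : Type}

theorem BB_part [DecidableEq V] (e : V → V → ℕ) (R S0 X X' Y Y' : Finset V) (p : ℕ) (v : V)
    (hX : ∀ a ∈ X, ∀ c ∈ X', 1 ≤ e a c) (hY : ∀ a ∈ Y, ∀ c ∈ Y', 1 ≤ e a c)
    (hSX : S0 ⊆ X ∪ X') (hSY : S0 ⊆ Y ∪ Y') (hSR : S0 ⊆ R) (hS : S0.card + 1 = 3 * p)
    (hd : ∀ v ∈ R, dg e R v + 1 ≤ 2 * p) (hv : v ∈ X ∩ Y) (hvR : v ∈ R) :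
    p ≤ (X ∩ Y).card := by
  have h1 : (S0 \ (X ∩ Y)).card ≤ dg e R v := by
    calc (S0 \ (X ∩ Y)).card = ∑ _w ∈ S0 \ (X ∩ Y), 1 := by simp
      _ ≤ ∑ w ∈ S0 \ (X ∩ Y), e v w := by
          refine Finset.sum_le_sum fun w hw => ?_
          rw [mem_sdiff, mem_inter, not_and_or] at hw
          rw [mem_inter] at hv
          rcases hw.2 with h | h
          · have := hSX hw.1
            rw [mem_union] at this
            rcases this with h' | h'
            · exact absurd h' h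
            · exact hX v hv.1 w h'
          · have := hSY hw.1
            rw [mem_union] at this
            rcases this with h' | h'
            · exact absurd h' h
            · exact hY v hv.2 w h'
      _ ≤ ∑ w ∈ R, e v w := by
          refine Finset.sum_le_sum_of_subset ?_
          exact fun w hw => hSR (mem_sdiff.1 hw).1
      _ = dg e R v := rfl
  have h2 := hd v hvR
  have h3 : S0.card ≤ (S0 \ (X ∩ Y)).card + (X ∩ Y).card := by
    have := Finset.card_le_card_sdiff_add_card (s := S0) (t := X ∩ Y)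
    exact this
  omega

theorem BB_three [DecidableEq V] (S0 X Y Z : Finset V) (p : ℕ) (hS : S0.card + 1 = 3 * p)
    (hX : X ⊆ S0) (hY : Y ⊆ S0) (hZ : Z ⊆ S0) (hXY : Disjoint X Y) (hXZ : Disjoint X Z)
    (hYZ : Disjoint Y Z) (h1 : p ≤ X.card) (h2 : p ≤ Y.card) (h3 : p ≤ Z.card) : False := by
  have h4 : (X ∪ Y ∪ Z).card ≤ S0.card :=
    Finset.card_le_card (union_subset (union_subset hX hY) hZ)
  rw [Finset.card_union_of_disjoint (disjoint_union_left.2 ⟨hXZ, hYZ⟩),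
    Finset.card_union_of_disjoint hXY] at h4
  omega

theorem BB_core [DecidableEq V] (h_BA : T_BA) (e : V → V → ℕ) (R A B C D : Finset V) (p : ℕ)
    (b b' : V) (hsym : Sym e) (hR : R.card = 3 * p + 1) (hd : ∀ v ∈ R, dg e R v + 1 ≤ 2 * p)
    (hb : b ∈ R) (hb' : b' ∈ R) (hbb : b ≠ b') (hno : ∀ P Q, ¬ CP e R P Q)
    (hAB : CP e (R.erase b) A B) (h3A : ¬ 3 ∣ A.card) (hCD : CP e (R.erase b') C D)
    (h3C : ¬ 3 ∣ C.card) (hb'A : b' ∈ A) (hbD : b ∈ D) : Cpl e {b} (A.erase b') := by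
  obtain ⟨hp, hAc, hBc, -⟩ := h_BA V e R A B p b hsym hR hd hb hAB h3A
  obtain ⟨-, hCc, hDc, -⟩ := h_BA V e R C D p b' hsym hR hd hb' hCD h3C
  obtain ⟨hAn, hBn, hABd, hABu, hABc⟩ := hAB
  obtain ⟨hCn, hDn, hCDd, hCDu, hCDc⟩ := hCD
  have hBAc : ∀ a ∈ B, ∀ c ∈ A, 1 ≤ e a c := fun a ha c hc => by
    rw [hsym.1 a c]; exact hABc c hc a ha
  have hDCc : ∀ a ∈ D, ∀ c ∈ C, 1 ≤ e a c := fun a ha c hc => by
    rw [hsym.1 a c]; exact hCDc c hc a ha
  set S0 := (R.erase b).erase b' with hS0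
  have hmem : ∀ x, x ∈ S0 ↔ x ≠ b' ∧ x ≠ b ∧ x ∈ R := by
    intro x; rw [hS0, mem_erase, mem_erase]
  have hS : S0.card + 1 = 3 * p := by
    have h1 : b' ∈ R.erase b := mem_erase.2 ⟨hbb.symm, hb'⟩
    rw [hS0, card_erase_of_mem h1, card_erase_of_mem hb, hR]
    omega
  have hSR : S0 ⊆ R := fun x hx => ((hmem x).1 hx).2.2
  have hSAB : S0 ⊆ A ∪ B := by
    intro x hx
    rw [hABu]
    have := (hmem x).1 hx
    exact mem_erase.2 ⟨this.2.1, this.2.2⟩
  have hSCD : S0 ⊆ C ∪ D := by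
    intro x hx
    rw [hCDu]
    have := (hmem x).1 hx
    exact mem_erase.2 ⟨this.1, this.2.2⟩
  have hSBA : S0 ⊆ B ∪ A := by rw [union_comm]; exact hSAB
  have hSDC : S0 ⊆ D ∪ C := by rw [union_comm]; exact hSCD
  have eA : ∀ x ∈ A, x ≠ b ∧ x ∈ R := fun x hx => by
    have : x ∈ R.erase b := by rw [← hABu]; exact mem_union_left _ hx
    exact mem_erase.1 this
  have eB : ∀ x ∈ B, x ≠ b ∧ x ∈ R := fun x hx => by
    have : x ∈ R.erase b := by rw [← hABu]; exact mem_union_right _ hx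
    exact mem_erase.1 this
  have eC : ∀ x ∈ C, x ≠ b' ∧ x ∈ R := fun x hx => by
    have : x ∈ R.erase b' := by rw [← hCDu]; exact mem_union_left _ hx
    exact mem_erase.1 this
  have eD : ∀ x ∈ D, x ≠ b' ∧ x ∈ R := fun x hx => by
    have : x ∈ R.erase b' := by rw [← hCDu]; exact mem_union_right _ hx
    exact mem_erase.1 this
  -- the four parts are inside `S0`
  have s1 : A ∩ C ⊆ S0 := fun x hx => by
    rw [mem_inter] at hx
    exact (hmem x).2 ⟨(eC x hx.2).1, (eA x hx.1).1, (eA x hx.1).2⟩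
  have s2 : A ∩ D ⊆ S0 := fun x hx => by
    rw [mem_inter] at hx
    exact (hmem x).2 ⟨(eD x hx.2).1, (eA x hx.1).1, (eA x hx.1).2⟩
  have s3 : B ∩ C ⊆ S0 := fun x hx => by
    rw [mem_inter] at hx
    exact (hmem x).2 ⟨(eC x hx.2).1, (eB x hx.1).1, (eB x hx.1).2⟩
  have s4 : B ∩ D ⊆ S0 := fun x hx => by
    rw [mem_inter] at hx
    exact (hmem x).2 ⟨(eD x hx.2).1, (eB x hx.1).1, (eB x hx.1).2⟩
  -- sizes of non-empty parts
  have c1 : ∀ v ∈ A ∩ C, p ≤ (A ∩ C).card := fun v hv =>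
    BB_part e R S0 A B C D p v hABc hCDc hSAB hSCD hSR hS hd hv (hSR (s1 hv))
  have c2 : ∀ v ∈ A ∩ D, p ≤ (A ∩ D).card := fun v hv =>
    BB_part e R S0 A B D C p v hABc hDCc hSAB hSDC hSR hS hd hv (hSR (s2 hv))
  have c3 : ∀ v ∈ B ∩ C, p ≤ (B ∩ C).card := fun v hv =>
    BB_part e R S0 B A C D p v hBAc hCDc hSBA hSCD hSR hS hd hv (hSR (s3 hv))
  have c4 : ∀ v ∈ B ∩ D, p ≤ (B ∩ D).card := fun v hv =>
    BB_part e R S0 B A D C p v hBAc hDCc hSBA hSDC hSR hS hd hv (hSR (s4 hv))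
  -- disjointness
  have dAB : ∀ x, x ∈ A → x ∈ B → False := fun x h1 h2 => disjoint_left.1 hABd h1 h2
  have dCD : ∀ x, x ∈ C → x ∈ D → False := fun x h1 h2 => disjoint_left.1 hCDd h1 h2
  have d12 : Disjoint (A ∩ C) (A ∩ D) := disjoint_left.2 fun x h1 h2 =>
    dCD x (mem_inter.1 h1).2 (mem_inter.1 h2).2
  have d13 : Disjoint (A ∩ C) (B ∩ C) := disjoint_left.2 fun x h1 h2 =>
    dAB x (mem_inter.1 h1).1 (mem_inter.1 h2).1
  have d14 : Disjoint (A ∩ C) (B ∩ D) := disjoint_left.2 fun x h1 h2 =>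
    dAB x (mem_inter.1 h1).1 (mem_inter.1 h2).1
  have d23 : Disjoint (A ∩ D) (B ∩ C) := disjoint_left.2 fun x h1 h2 =>
    dAB x (mem_inter.1 h1).1 (mem_inter.1 h2).1
  have d24 : Disjoint (A ∩ D) (B ∩ D) := disjoint_left.2 fun x h1 h2 =>
    dAB x (mem_inter.1 h1).1 (mem_inter.1 h2).1
  have d34 : Disjoint (B ∩ C) (B ∩ D) := disjoint_left.2 fun x h1 h2 =>
    dCD x (mem_inter.1 h1).2 (mem_inter.1 h2).2
  have bB : b ∉ B := fun h => (eB b h).1 rfl
  have b'B : b' ∉ B := fun h => dAB b' hb'A h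
  have bC : b ∉ C := fun h => dCD b h hbD
  -- where the vertices lie
  have lA : ∀ x ∈ A.erase b', x ∈ A ∩ C ∨ x ∈ A ∩ D := by
    intro x hx
    rw [mem_erase] at hx
    have hxS : x ∈ S0 := (hmem x).2 ⟨hx.1, (eA x hx.2).1, (eA x hx.2).2⟩
    have := hSCD hxS
    rw [mem_union] at this
    rcases this with h | h
    · left; exact mem_inter.2 ⟨hx.2, h⟩
    · right; exact mem_inter.2 ⟨hx.2, h⟩
  have lB : ∀ x ∈ B, x ∈ B ∩ C ∨ x ∈ B ∩ D := by
    intro x hx
    have hxS : x ∈ S0 := (hmem x).2 ⟨fun h => b'B (h ▸ hx), (eB x hx).1, (eB x hx).2⟩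
    have := hSCD hxS
    rw [mem_union] at this
    rcases this with h | h
    · left; exact mem_inter.2 ⟨hx, h⟩
    · right; exact mem_inter.2 ⟨hx, h⟩
  have lC : ∀ x ∈ C, x ∈ A ∩ C ∨ x ∈ B ∩ C := by
    intro x hx
    have hxS : x ∈ S0 := (hmem x).2 ⟨(eC x hx).1, fun h => bC (h ▸ hx), (eC x hx).2⟩
    have := hSAB hxS
    rw [mem_union] at this
    rcases this with h | h
    · left; exact mem_inter.2 ⟨h, hx⟩
    · right; exact mem_inter.2 ⟨h, hx⟩
  have lD : ∀ x ∈ D.erase b, x ∈ A ∩ D ∨ x ∈ B ∩ D := by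
    intro x hx
    rw [mem_erase] at hx
    have hxS : x ∈ S0 := (hmem x).2 ⟨(eD x hx.2).1, hx.1, (eD x hx.2).2⟩
    have := hSAB hxS
    rw [mem_union] at this
    rcases this with h | h
    · left; exact mem_inter.2 ⟨h, hx.2⟩
    · right; exact mem_inter.2 ⟨h, hx.2⟩
  have nA : (A.erase b').Nonempty := by
    rw [← card_pos, card_erase_of_mem hb'A]; omega
  have nD : (D.erase b).Nonempty := by
    rw [← card_pos, card_erase_of_mem hbD]; omega
  by_cases n1 : (A ∩ C).Nonempty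
  · obtain ⟨v1, hv1⟩ := n1
    by_cases n4 : (B ∩ D).Nonempty
    · obtain ⟨v4, hv4⟩ := n4
      intro a ha x hx
      rw [mem_singleton] at ha
      subst ha
      rcases lA x hx with h | h
      · exact hDCc a hbD x (mem_inter.1 h).2
      · exact (BB_three S0 _ _ _ p hS s1 s4 s2 d14 d12 d24.symm (c1 v1 hv1) (c4 v4 hv4)
          (c2 x h)).elim
    · exfalso
      obtain ⟨x, hx⟩ := nD
      obtain ⟨y, hy⟩ := hBn
      rcases lD x hx with h | h
      · rcases lB y hy with h' | h'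
        · exact BB_three S0 _ _ _ p hS s1 s2 s3 d12 d13 d23 (c1 v1 hv1) (c2 x h) (c3 y h')
        · exact n4 ⟨y, h'⟩
      · exact n4 ⟨x, h⟩
  · exfalso
    obtain ⟨x, hx⟩ := nA
    obtain ⟨y, hy⟩ := hCn
    have h2 : x ∈ A ∩ D := (lA x hx).resolve_left fun h => n1 ⟨x, h⟩
    have h3 : y ∈ B ∩ C := (lC y hy).resolve_left fun h => n1 ⟨y, h⟩
    have n4 : ∀ z, z ∉ B ∩ D := fun z hz =>
      BB_three S0 _ _ _ p hS s2 s3 s4 d23 d24 d34 (c2 x h2) (c3 y h3) (c4 z hz)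
    apply hno (insert b A) B
    refine ⟨⟨b, mem_insert_self b A⟩, hBn, ?_, ?_, ?_⟩
    · rw [disjoint_left]
      intro z hz hzB
      rw [mem_insert] at hz
      rcases hz with h | h
      · exact bB (h ▸ hzB)
      · exact dAB z h hzB
    · rw [insert_union, hABu, insert_erase hb]
    · intro a ha z hz
      rw [mem_insert] at ha
      rcases ha with h | h
      · rw [h]
        rcases lB z hz with h' | h'
        · exact hDCc b hbD z (mem_inter.1 h').2
        · exact absurd h' (n4 z)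
      · exact hABc a h z hz

theorem p_BB (h_BA : T_BA) : T_BB := by
  intro V _ e R A B C D p b b' hsym hR hd hb hb' hbb hno hAB h3A hCD h3C hb'A
  by_cases hbD : b ∈ D
  · exact BB_core h_BA e R A B C D p b b' hsym hR hd hb hb' hbb hno hAB h3A hCD h3C hb'A hbD
  · have hCD' := hCD
    obtain ⟨hCn, hDn, hCDd, hCDu, hCDc⟩ := hCD'
    have hbC : b ∈ C := by
      have : b ∈ C ∪ D := by rw [hCDu]; exact mem_erase.2 ⟨hbb, hb⟩
      rw [mem_union] at this
      exact this.resolve_right hbD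
    have hDC : CP e (R.erase b') D C := by
      refine ⟨hDn, hCn, hCDd.symm, by rw [union_comm]; exact hCDu, ?_⟩
      intro a ha c hc
      rw [hsym.1 a c]
      exact hCDc c hc a ha
    have hcard : C.card + D.card = 3 * p := by
      rw [← card_union_of_disjoint hCDd, hCDu, card_erase_of_mem hb', hR]
      omega
    have h3D : ¬ 3 ∣ D.card := by omega
    exact BB_core h_BA e R A B D C p b b' hsym hR hd hb hb' hbb hno hAB h3A hDC h3D hb'A hbC

end Pool.Agent.MGT
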