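import Pool.Agent.MGT.Targets

set_option autoImplicit false

/-!
# MGT: proof of T_BC, at most two barriers
-/

open Finset

namespace Pool.Agent.MGT

namespace BC_

variable {V : Type} [DecidableEq V]

lemma cp_symm {e : V → V → ℕ} {S A B : Finset V} (hs : Sym e) (h : CP e S A B) :
    CP e S B A := by
  obtain ⟨h1, h2, h3, h4, h5⟩ := h
  refine ⟨h2, h1, h3.symm, by rw [union_comm]; exact h4, ?_⟩
  intro a ha b hb
  rw [hs.1 a b]
  exact h5 b hb a ha

lemma cp_card {e : V → V → ℕ} {S A B : Finset V} (h : CP e S A B) :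
    A.card + B.card = S.card := by
  obtain ⟨_, _, h3, h4, _⟩ := h
  rw [← h4, card_union_of_disjoint h3]

lemma key (h_EB : T_EB) (h_BA : T_BA) (h_BB : T_BB) (e : V → V → ℕ) (R : Finset V) (p : ℕ)
    (b1 b2 b3 : V) (hs : Sym e) (hc : R.card = 3 * p + 1)
    (hd : ∀ v ∈ R, dg e R v + 1 ≤ 2 * p) (h1 : b1 ∈ R) (h2 : b2 ∈ R) (h3 : b3 ∈ R)
    (h12 : b1 ≠ b2) (h13 : b1 ≠ b3) (h23 : b2 ≠ b3) (hn : ∀ P Q, ¬ CP e R P Q)
    (hB2 : Barrier e (R.erase b2)) (hB3 : Barrier e (R.erase b3)) (A B : Finset V)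
    (hCP : CP e (R.erase b1) A B) (hA : ¬ 3 ∣ A.card) (hb2 : b2 ∈ A) : False := by
  obtain ⟨C2, D2, hCP2, hC2⟩ := hB2
  obtain ⟨C3, D3, hCP3, hC3⟩ := hB3
  have k2 := h_BB V e R A B C2 D2 p b1 b2 hs hc hd h1 h2 h12 hn hCP hA hCP2 hC2 hb2
  have hcard := cp_card hCP
  rw [card_erase_of_mem h1, hc] at hcard
  have hB : ¬ 3 ∣ B.card := by omega
  have hmem3 : b3 ∈ A ∪ B := by
    rw [hCP.2.2.2.1]
    exact mem_erase.mpr ⟨h13.symm, h3⟩
  have hsub : A ∪ B = R.erase b1 := hCP.2.2.2.1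
  rcases mem_union.mp hmem3 with h3A | h3B
  · have k3 := h_BB V e R A B C3 D3 p b1 b3 hs hc hd h1 h3 h13 hn hCP hA hCP3 hC3 h3A
    have hb1A : b1 ∉ A := by
      intro h
      have : b1 ∈ A ∪ B := mem_union_left _ h
      rw [hsub] at this
      exact (notMem_erase b1 R) this
    refine hn A (insert b1 B) ⟨hCP.1, insert_nonempty _ _, ?_, ?_, ?_⟩
    · rw [disjoint_insert_right]
      exact ⟨hb1A, hCP.2.2.1⟩
    · rw [union_insert, hsub, insert_erase h1]
    · intro a ha b hb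
      rcases mem_insert.mp hb with rfl | hb
      · rw [hs.1]
        by_cases hab : a = b2
        · subst hab
          exact k3 b (mem_singleton_self b) a (mem_erase.mpr ⟨h23, ha⟩)
        · exact k2 b (mem_singleton_self b) a (mem_erase.mpr ⟨hab, ha⟩)
      · exact hCP.2.2.2.2 a ha b hb
  · have k3 := h_BB V e R B A C3 D3 p b1 b3 hs hc hd h1 h3 h13 hn (cp_symm hs hCP) hB
      hCP3 hC3 h3B
    obtain ⟨hp, -, -, -⟩ := h_BA V e R A B p b1 hs hc hd h1 hCP hA
    obtain ⟨-, -, -, -, -, -, -, hmono, hcpl⟩ := h_EB V e hs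
    have hdis : Disjoint (A.erase b2) (B.erase b3) :=
      disjoint_of_subset_left (erase_subset _ _)
        (disjoint_of_subset_right (erase_subset _ _) hCP.2.2.1)
    have hC : Cpl e {b1} (A.erase b2 ∪ B.erase b3) := by
      intro a ha b hb
      rcases mem_union.mp hb with hb | hb
      · exact k2 a ha b hb
      · exact k3 a ha b hb
    have hle := hcpl {b1} (A.erase b2 ∪ B.erase b3) b1 (mem_singleton_self b1) hC
    have hsub2 : A.erase b2 ∪ B.erase b3 ⊆ R := by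
      intro x hx
      have : x ∈ A ∪ B := by
        rcases mem_union.mp hx with hx | hx
        · exact mem_union_left _ (mem_of_mem_erase hx)
        · exact mem_union_right _ (mem_of_mem_erase hx)
      rw [hsub] at this
      exact mem_of_mem_erase this
    have hm := hmono _ R b1 hsub2
    have hd1 := hd b1 h1
    have hcA : (A.erase b2).card = A.card - 1 := card_erase_of_mem hb2
    have hcB : (B.erase b3).card = B.card - 1 := card_erase_of_mem h3B
    rw [card_union_of_disjoint hdis, hcA, hcB] at hle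
    omega

end BC_

open BC_

theorem p_BC (h_EB : T_EB) (h_BA : T_BA) (h_BB : T_BB) : T_BC := by
  intro V _ e R p b1 b2 b3 hs hc hd h1 h2 h3 h12 h13 h23 hn hB1 hB2 hB3
  obtain ⟨A, B, hCP, hA⟩ := hB1
  have hcard := cp_card hCP
  rw [card_erase_of_mem h1, hc] at hcard
  have hB : ¬ 3 ∣ B.card := by omega
  have hmem2 : b2 ∈ A ∪ B := by
    rw [hCP.2.2.2.1]
    exact mem_erase.mpr ⟨h12.symm, h2⟩
  rcases mem_union.mp hmem2 with h2A | h2B
  · exact key h_EB h_BA h_BB e R p b1 b2 b3 hs hc hd h1 h2 h3 h12 h13 h23 hn hB2 hB3 A B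
      hCP hA h2A
  · exact key h_EB h_BA h_BB e R p b1 b2 b3 hs hc hd h1 h2 h3 h12 h13 h23 hn hB2 hB3 B A
      (cp_symm hs hCP) hB h2B

end Pool.Agent.MGT
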