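import Pool.Agent.MGT.Targets

set_option autoImplicit false

/-!
# MGT: the target T_C (case C)
-/

open Finset

namespace Pool.Agent.MGT

variable {V : Type}

/-- `dg e S v` is at least `S.card` when all multiplicities `e v w`, `w ∈ S`, are positive. -/
theorem C_.card_le_dg (e : V → V → ℕ) (S : Finset V) (v : V) (h : ∀ w ∈ S, 1 ≤ e v w) :
    S.card ≤ dg e S v := by
  unfold dg
  calc S.card = ∑ w ∈ S, 1 := by simp
    _ ≤ ∑ w ∈ S, e v w := Finset.sum_le_sum h

/-- Case C. -/
theorem p_C (h_EB : T_EB) (h_CC : T_CC) (h_C1 : T_C1) : T_C := by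
  intro V _ e X Y p q hC hp hdeg hbar
  obtain ⟨-, -, -, -, -, -, -, hmono, -⟩ := h_EB V e hC.sym
  have hXne : X.Nonempty := by
    rw [← Finset.card_pos, hC.cX]; omega
  have hYne : Y.Nonempty := by
    rw [← Finset.card_pos, hC.cY]; omega
  -- degrees after removing one vertex
  have hdel : ∀ x ∈ X, ∀ v ∈ X.erase x, dg e (X.erase x) v + 1 ≤ 2 * p := by
    intro x _ v hv
    have h1 := hmono (X.erase x) X v (Finset.erase_subset x X)
    have h2 := hdeg v (Finset.mem_of_mem_erase hv)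
    omega
  have hx0 : ∃ x0 ∈ X, ∃ y0 ∈ Y, e x0 y0 = 0 := by
    by_contra hno
    push Not at hno
    apply hbar
    refine ⟨X, Y, ⟨hXne, hYne, hC.disj, rfl, ?_⟩, ?_⟩
    · intro a ha b hb
      exact Nat.one_le_iff_ne_zero.mpr (hno a ha b hb)
    · rw [hC.cX]; omega
  obtain ⟨x0, hx0, y0, hy0, he0⟩ := hx0
  by_cases hcp : ∃ A B, CP e (X.erase x0) A B
  swap
  · push Not at hcp
    exact h_C1 V e X Y p q x0 y0 hC hp hx0 hy0 he0 (hdel x0 hx0) hcp
  obtain ⟨A, B, hCP⟩ := hcp
  by_cases h1 : ∃ x1 ∈ X.erase x0, ∃ y1 ∈ Y, e x1 y1 = 0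
  · obtain ⟨x1, hx1, y1, hy1, he1⟩ := h1
    have hx1X : x1 ∈ X := Finset.mem_of_mem_erase hx1
    have hne : x0 ≠ x1 := (Finset.ne_of_mem_erase hx1).symm
    refine h_C1 V e X Y p q x1 y1 hC hp hx1X hy1 he1 (hdel x1 hx1X) ?_
    intro C D
    exact h_CC V e X A B C D p x0 x1 hC.sym hC.sX hC.cX hp hdeg hx0 hx1X hne hCP
  · exfalso
    push Not at h1
    obtain ⟨hAne, hBne, hdisj, hun, hcpl⟩ := hCP
    have hcard : A.card + B.card = 3 * p + 1 := by
      rw [← Finset.card_union_of_disjoint hdisj, hun, Finset.card_erase_of_mem hx0, hC.cX]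
      omega
    have hAs : A ⊆ X.erase x0 := by rw [← hun]; exact Finset.subset_union_left
    have hBs : B ⊆ X.erase x0 := by rw [← hun]; exact Finset.subset_union_right
    have hEs : X.erase x0 ⊆ X := Finset.erase_subset x0 X
    obtain ⟨a, ha⟩ := hAne
    obtain ⟨b, hb⟩ := hBne
    obtain ⟨y, hy⟩ := hYne
    have hpos : ∀ x ∈ X.erase x0, ∀ w ∈ Y, 1 ≤ e x w := fun x hx w hw =>
      Nat.one_le_iff_ne_zero.mpr (h1 x hx w hw)
    -- the vertex `a`
    have a1 : B.card ≤ dg e B a := C_.card_le_dg e B a (hcpl a ha)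
    have a2 : Y.card ≤ dg e Y a := C_.card_le_dg e Y a (hpos a (hAs ha))
    have a3 := hmono B X a (hBs.trans hEs)
    have a4 := hC.dt a (Finset.mem_union_left _ (hEs (hAs ha)))
    -- the vertex `b`
    have b1 : A.card ≤ dg e A b := by
      refine C_.card_le_dg e A b fun w hw => ?_
      have := hcpl w hw b hb
      rwa [hC.sym.1 w b] at this
    have b2 : Y.card ≤ dg e Y b := C_.card_le_dg e Y b (hpos b (hBs hb))
    have b3 := hmono A X b (hAs.trans hEs)
    have b4 := hC.dt b (Finset.mem_union_left _ (hEs (hBs hb)))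
    -- the vertex `y`
    have y1 : (X.erase x0).card ≤ dg e (X.erase x0) y := by
      refine C_.card_le_dg e (X.erase x0) y fun w hw => ?_
      have := hpos w hw y hy
      rwa [hC.sym.1 w y] at this
    have y2 : (X.erase x0).card = 3 * p + 1 := by
      rw [Finset.card_erase_of_mem hx0, hC.cX]; omega
    have y3 := hmono (X.erase x0) X y hEs
    have y4 := hC.dt y (Finset.mem_union_right _ hy)
    have y5 := hC.cY
    omega

end Pool.Agent.MGT
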