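import Pool.Agent.MGT.Targets

set_option autoImplicit false

/-!
# MGT, target C1 (Claim 1)
-/

open Finset

namespace Pool.Agent.MGT

namespace C1_

variable {V : Type}

/-- The degree is monotone in the set. -/
theorem dg_mono (e : V → V → ℕ) {S T : Finset V} (h : S ⊆ T) (v : V) : dg e S v ≤ dg e T v :=
  Finset.sum_le_sum_of_subset h

/-- A vertex with small degree into `R` has many non-neighbours in `R`. -/
theorem card_nonnbr (e : V → V → ℕ) (R : Finset V) (x : V) :
    R.card ≤ dg e R x + (R.filter (fun w => e x w = 0)).card := by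
  have h1 : R.card = (R.filter (fun w => e x w = 0)).card +
      (R.filter (fun w => ¬ e x w = 0)).card :=
    (Finset.card_filter_add_card_filter_not (fun w => e x w = 0)).symm
  have h2 : (R.filter (fun w => ¬ e x w = 0)).card ≤ dg e R x := by
    rw [Finset.card_eq_sum_ones]
    refine le_trans ?_ (dg_mono e (Finset.filter_subset (fun w => ¬ e x w = 0) R) x)
    refine Finset.sum_le_sum fun w hw => ?_
    have := (Finset.mem_filter.1 hw).2
    omega
  omega

end C1_

open C1_ in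
/-- Target C1. -/
theorem p_C1 (h_FU : T_FU) (h_BA : T_BA) (h_BC : T_BC) : T_C1 := by
  classical
  intro V _ e X Y p q x y0 c hp hx hy0 hxy0 hdeg hncp
  by_contra hF
  obtain ⟨R, hR⟩ : ∃ R, R = X.erase x := ⟨_, rfl⟩
  rw [← hR] at hdeg hncp
  have hRX : R ⊆ X := by rw [hR]; exact Finset.erase_subset _ _
  have hRc : R.card = 3 * p + 1 := by
    rw [hR, Finset.card_erase_of_mem hx, c.cX]
    rfl
  obtain ⟨Bad, hBad⟩ : ∃ Bad, Bad = R.filter (fun b => Barrier e (R.erase b)) := ⟨_, rfl⟩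
  have hBR : Bad ⊆ R := by rw [hBad]; exact Finset.filter_subset _ _
  have hBmem : ∀ b ∈ Bad, b ∈ R ∧ Barrier e (R.erase b) := by
    intro b hb
    rw [hBad, Finset.mem_filter] at hb
    exact hb
  have hB2 : Bad.card ≤ 2 := by
    by_contra hcon
    obtain ⟨b1, m1, b2, m2, b3, m3, n12, n13, n23⟩ := Finset.two_lt_card.1 (not_le.1 hcon)
    exact h_BC V e R p b1 b2 b3 c.sym hRc hdeg (hBmem _ m1).1 (hBmem _ m2).1 (hBmem _ m3).1
      n12 n13 n23 hncp (hBmem _ m1).2 (hBmem _ m2).2 (hBmem _ m3).2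
  have hBA : ∀ b ∈ Bad, 3 ≤ p ∧ ∀ v ∈ R.erase b, p + 1 ≤ dg e R v := by
    intro b hb
    obtain ⟨hbR, A, B, hcp, h3⟩ := hBmem b hb
    obtain ⟨h1, -, -, h4⟩ := h_BA V e R A B p b c.sym hRc hdeg hbR hcp h3
    exact ⟨h1, h4⟩
  have key : ∀ x' ∈ R \ Bad, ∀ y ∈ Y, 2 ≤ e x x' + e x y + e x' y := by
    intro x' hx' y hy
    by_contra hcon
    apply hF
    obtain ⟨hx'R, hx'B⟩ := Finset.mem_sdiff.1 hx'
    have hx'X : x' ∈ X := hRX hx'R
    have hne : x ≠ x' := by
      rintro rfl
      rw [hR] at hx'R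
      exact Finset.notMem_erase _ _ hx'R
    have hxy : x ≠ y := fun h => Finset.disjoint_left.1 c.disj hx (h ▸ hy)
    have hx'y : x' ≠ y := fun h => Finset.disjoint_left.1 c.disj hx'X (h ▸ hy)
    have hgood : Good e x x' y := ⟨hne, hxy, hx'y, by omega⟩
    refine (h_FU V e e).2.2.1 X Y x x' y c.disj hx hx'X hy hgood ?_ (c.fY y hy)
    rw [← hR]
    refine c.ihp e (R.erase x') c.sym ?_ ?_ ?_
    · rw [Finset.card_erase_of_mem hx'R, hRc]
      rfl
    · intro v hv
      have h1 := dg_mono e (Finset.erase_subset x' R) v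
      have h2 := hdeg v (Finset.mem_of_mem_erase hv)
      omega
    · intro hbar
      apply hx'B
      rw [hBad, Finset.mem_filter]
      exact ⟨hx'R, hbar⟩
  -- first count
  have hcardRB : (R \ Bad).card + Bad.card = 3 * p + 1 := by
    rw [← hRc]
    exact Finset.card_sdiff_add_card_eq_card hBR
  have hx0 : x ∈ X ∪ Y := Finset.mem_union_left _ hx
  have hy00 : y0 ∈ X ∪ Y := Finset.mem_union_right _ hy0
  have s1 : 2 * (R \ Bad).card ≤ dg e X x + dg e X y0 := by
    have t1 : ∑ x' ∈ R \ Bad, 2 ≤ ∑ x' ∈ R \ Bad, (e x x' + e y0 x') := by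
      refine Finset.sum_le_sum fun x' hx' => ?_
      have h1 := key x' hx' y0 hy0
      have h2 := c.sym.1 x' y0
      omega
    rw [Finset.sum_const, smul_eq_mul, Finset.sum_add_distrib] at t1
    have hsub : R \ Bad ⊆ X := Finset.sdiff_subset.trans hRX
    have t2 : ∑ x' ∈ R \ Bad, e x x' ≤ dg e X x := dg_mono e hsub x
    have t3 : ∑ x' ∈ R \ Bad, e y0 x' ≤ dg e X y0 := dg_mono e hsub y0
    omega
  have hdty := c.dt y0 hy00
  -- a non-neighbour of x outside Bad
  have hnb := card_nonnbr e R x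
  have hdx : dg e R x ≤ 2 * p := le_trans (dg_mono e hRX x) (c.dX x hx)
  have hBp : Bad.card < p + 1 := by
    rcases Finset.eq_empty_or_nonempty Bad with h | ⟨b, hb⟩
    · rw [h, Finset.card_empty]
      omega
    · have := (hBA b hb).1
      omega
  obtain ⟨x', hx'1, hx'2⟩ : ∃ x' ∈ R.filter (fun w => e x w = 0), x' ∉ Bad := by
    apply Finset.exists_mem_notMem_of_card_lt_card
    omega
  obtain ⟨hx'R, hx'0⟩ := Finset.mem_filter.1 hx'1
  have hx'X : x' ∈ X := hRX hx'R
  have s2 : 2 * Y.card ≤ dg e Y x + dg e Y x' := by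
    have t1 : ∑ y ∈ Y, 2 ≤ ∑ y ∈ Y, (e x y + e x' y) := by
      refine Finset.sum_le_sum fun y hy => ?_
      have h1 := key x' (Finset.mem_sdiff.2 ⟨hx'R, hx'2⟩) y hy
      omega
    rw [Finset.sum_const, smul_eq_mul, Finset.sum_add_distrib] at t1
    have t2 : ∑ y ∈ Y, e x y = dg e Y x := rfl
    have t3 : ∑ y ∈ Y, e x' y = dg e Y x' := rfl
    omega
  have hdtx := c.dt x hx0
  have hdtx' := c.dt x' (Finset.mem_union_left _ hx'X)
  have hcY := c.cY
  have hfin : dg e X x' + 1 ≤ 2 * Bad.card := by omega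
  rcases Finset.eq_empty_or_nonempty Bad with h | ⟨b, hb⟩
  · rw [h, Finset.card_empty] at hfin
    omega
  · obtain ⟨h3, h4⟩ := hBA b hb
    have hx'b : x' ∈ R.erase b := by
      refine Finset.mem_erase.2 ⟨?_, hx'R⟩
      rintro rfl
      exact hx'2 hb
    have h5 := h4 x' hx'b
    have h6 := dg_mono e hRX x'
    omega

end Pool.Agent.MGT
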