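import Pool.Agent.MGT.Targets

set_option autoImplicit false

/-!
# MGT: CC, two cut vertices of `X`
-/

open Finset

namespace Pool.Agent.MGT

namespace CC_

theorem cp_symm {V : Type} [DecidableEq V] {e : V → V → ℕ} (hs : Sym e) {S A B : Finset V}
    (h : CP e S A B) : CP e S B A := by
  obtain ⟨h1, h2, h3, h4, h5⟩ := h
  refine ⟨h2, h1, h3.symm, by rw [union_comm]; exact h4, fun a ha b hb => ?_⟩
  rw [hs.1 a b]
  exact h5 b hb a ha

/-- A vertex of `A ∩ C` is joined to all of `B ∪ D`. -/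
theorem part {V : Type} [DecidableEq V] {e : V → V → ℕ} (h_EB : T_EB) (hs : Sym e)
    {X A B C D : Finset V} {p : ℕ} {x0 x1 v : V} (hd : ∀ v ∈ X, dg e X v + 1 ≤ 2 * p)
    (h : CP e (X.erase x0) A B) (h' : CP e (X.erase x1) C D) (hB : 2 * B.card = 3 * p + 1)
    (hD : 2 * D.card = 3 * p + 1) (hv : v ∈ A ∩ C) : p + 2 ≤ (B ∩ D).card := by
  obtain ⟨-, -, -, hu, hc⟩ := h
  obtain ⟨-, -, -, hu', hc'⟩ := h'
  obtain ⟨-, -, -, -, -, -, -, h8, h9⟩ := h_EB V e hs
  rw [mem_inter] at hv
  have hAX : A ∪ B ⊆ X := by rw [hu]; exact erase_subset _ _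
  have hCX : C ∪ D ⊆ X := by rw [hu']; exact erase_subset _ _
  have hvX : v ∈ X := hAX (mem_union_left _ hv.1)
  have hsub : B ∪ D ⊆ X := union_subset (subset_union_right.trans hAX)
    (subset_union_right.trans hCX)
  have hcpl : Cpl e {v} (B ∪ D) := by
    intro a ha b hb
    rw [mem_singleton] at ha
    subst ha
    rcases mem_union.1 hb with hb | hb
    · exact hc a hv.1 b hb
    · exact hc' a hv.2 b hb
  have k1 := h9 {v} (B ∪ D) v (mem_singleton_self v) hcpl
  have k2 := h8 (B ∪ D) X v hsub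
  have k3 := hd v hvX
  have k4 := card_union_add_card_inter B D
  omega

theorem core {V : Type} [DecidableEq V] {e : V → V → ℕ} (h_EB : T_EB) (hs : Sym e)
    {X A B C D : Finset V} {p : ℕ} {x0 x1 : V} (hp : 1 ≤ p)
    (hd : ∀ v ∈ X, dg e X v + 1 ≤ 2 * p)
    (h : CP e (X.erase x0) A B) (h' : CP e (X.erase x1) C D) (hA : 2 * A.card = 3 * p + 1)
    (hB : 2 * B.card = 3 * p + 1) (hC : 2 * C.card = 3 * p + 1)
    (hD : 2 * D.card = 3 * p + 1) (hdx : 6 * dg e X x0 ≤ 2 * B.card) (h1A : x1 ∈ A)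
    (h0D : x0 ∈ D) : False := by
  have g := cp_symm hs h
  have g' := cp_symm hs h'
  have hAX : A ∪ B = X.erase x0 := h.2.2.2.1
  have hCX : C ∪ D = X.erase x1 := h'.2.2.2.1
  have dAB : Disjoint A B := h.2.2.1
  have dCD : Disjoint C D := h'.2.2.1
  have h0C : x0 ∉ C := fun h0 => (disjoint_left.1 dCD) h0 h0D
  have h1B : x1 ∉ B := (disjoint_left.1 dAB) h1A
  have memCD : ∀ v ∈ A ∪ B, v ≠ x1 → v ∈ C ∪ D := by
    intro v hv hne
    rw [hCX]
    rw [hAX] at hv
    exact mem_erase.2 ⟨hne, (mem_erase.1 hv).2⟩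
  have memAB : ∀ v ∈ C ∪ D, v ≠ x0 → v ∈ A ∪ B := by
    intro v hv hne
    rw [hAX]
    rw [hCX] at hv
    exact mem_erase.2 ⟨hne, (mem_erase.1 hv).2⟩
  by_cases hAC : (A ∩ C).Nonempty
  · obtain ⟨v, hv⟩ := hAC
    have k1 := part h_EB hs hd h h' hB hD hv
    have hBD : (B ∩ D).Nonempty := card_pos.1 (by omega)
    obtain ⟨w, hw⟩ := hBD
    have k2 := part h_EB hs hd g g' hA hC hw
    have hAD : A ∩ D = ∅ := by
      by_contra hne
      obtain ⟨u, hu⟩ := nonempty_iff_ne_empty.2 hne
      have k3 := part h_EB hs hd h g' hB hC hu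
      have hBC : (B ∩ C).Nonempty := card_pos.1 (by omega)
      obtain ⟨t, ht⟩ := hBC
      have k4 := part h_EB hs hd g h' hA hD ht
      have k5 : (A ∩ C ∪ A ∩ D).card ≤ A.card :=
        card_le_card (union_subset inter_subset_left inter_subset_left)
      have k6 : Disjoint (A ∩ C) (A ∩ D) :=
        disjoint_of_subset_left inter_subset_right
          (disjoint_of_subset_right inter_subset_right dCD)
      rw [card_union_of_disjoint k6] at k5
      omega
    have hBC : B ∩ C = ∅ := by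
      by_contra hne
      obtain ⟨t, ht⟩ := nonempty_iff_ne_empty.2 hne
      have k4 := part h_EB hs hd g h' hA hD ht
      rw [hAD, card_empty] at k4
      omega
    -- `C ⊆ A.erase x1`
    have hsub : C ⊆ A.erase x1 := by
      intro v hv
      have hv0 : v ≠ x0 := fun h => h0C (h ▸ hv)
      have hv1 : v ≠ x1 := by
        intro h1
        have : v ∈ X.erase x1 := by rw [← hCX]; exact mem_union_left _ hv
        exact (mem_erase.1 this).1 h1
      rcases mem_union.1 (memAB v (mem_union_left _ hv) hv0) with ha | hb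
      · exact mem_erase.2 ⟨hv1, ha⟩
      · have : v ∈ B ∩ C := mem_inter.2 ⟨hb, hv⟩
        rw [hBC] at this
        exact absurd this (notMem_empty v)
    have k7 := card_le_card hsub
    rw [card_erase_of_mem h1A] at k7
    omega
  · have hsub : C ⊆ B := by
      intro v hv
      have hv0 : v ≠ x0 := fun h => h0C (h ▸ hv)
      rcases mem_union.1 (memAB v (mem_union_left _ hv) hv0) with ha | hb
      · exact absurd ⟨v, mem_inter.2 ⟨ha, hv⟩⟩ hAC
      · exact hb
    have hCB : C = B := eq_of_subset_of_card_le hsub (by omega)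
    obtain ⟨-, -, -, -, -, -, -, h8, h9⟩ := h_EB V e hs
    have k1 := h9 D C x0 h0D g'.2.2.2.2
    have k2 := h8 C X x0 (by
      intro v hv
      have : v ∈ X.erase x1 := by rw [← hCX]; exact mem_union_left _ hv
      exact (mem_erase.1 this).2)
    omega

end CC_

open CC_ in
theorem p_CC (h_EB : T_EB) (h_ER : T_ER) : T_CC := by
  intro V _ e X A B C D p x0 x1 hs hst hX hp hd hx0 hx1 hne h h'
  obtain ⟨hAB, hdA⟩ := (h_ER V e X x0 hs hst hx0).1 A B h
  obtain ⟨hCD, -⟩ := (h_ER V e X x1 hs hst hx1).1 C D h'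
  have c1 : A.card + B.card = 3 * p + 1 := by
    rw [← card_union_of_disjoint h.2.2.1, h.2.2.2.1, card_erase_of_mem hx0]
    omega
  have c2 : C.card + D.card = 3 * p + 1 := by
    rw [← card_union_of_disjoint h'.2.2.1, h'.2.2.2.1, card_erase_of_mem hx1]
    omega
  have m1 : x1 ∈ A ∪ B := by rw [h.2.2.2.1]; exact mem_erase.2 ⟨hne.symm, hx1⟩
  have m0 : x0 ∈ C ∪ D := by rw [h'.2.2.2.1]; exact mem_erase.2 ⟨hne, hx0⟩
  rcases mem_union.1 m1 with ha | hb <;> rcases mem_union.1 m0 with hc | hd'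
  · exact core h_EB hs hp hd h (cp_symm hs h') (by omega) (by omega) (by omega) (by omega)
      (by omega) ha hc
  · exact core h_EB hs hp hd h h' (by omega) (by omega) (by omega) (by omega)
      (by omega) ha hd'
  · exact core h_EB hs hp hd (cp_symm hs h) (cp_symm hs h') (by omega) (by omega)
      (by omega) (by omega) (by omega) hb hc
  · exact core h_EB hs hp hd (cp_symm hs h) h' (by omega) (by omega) (by omega) (by omega)
      (by omega) hb hd'

end Pool.Agent.MGT
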