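import Pool.Agent.MGT.Targets

set_option autoImplicit false

/-!
# MGT: target D21
-/

open Finset

namespace Pool.Agent.MGT

theorem p_D21 (h_A : T_A) (h_B : T_B) (h_C : T_C) : T_D21 := by
  intro V _ e X Y p q hc hb
  by_cases h : ∃ u1 ∈ X, ∃ u2 ∈ X, u1 ≠ u2 ∧ e u1 u2 = 0 ∧ dg e X u1 = 2 * p ∧ dg e X u2 = 2 * p
  · obtain ⟨u1, h1, u2, h2, hne, he, hd1, hd2⟩ := h
    exact h_A V e X Y p q u1 u2 hc h1 h2 hne he hd1 hd2
  push Not at h
  have hp : 1 ≤ p := by
    rcases Nat.eq_zero_or_pos p with hp | hp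
    · exfalso
      subst hp
      have hX : X.card = 2 := by have := hc.cX; omega
      obtain ⟨u1, u2, hne, rfl⟩ := Finset.card_eq_two.1 hX
      have h1 : u1 ∈ ({u1, u2} : Finset V) := by simp
      have h2 : u2 ∈ ({u1, u2} : Finset V) := by simp
      have d1 := hc.dX u1 h1
      have d2 := hc.dX u2 h2
      have e1 : dg e {u1, u2} u1 = 0 := by omega
      have e2 : dg e {u1, u2} u2 = 0 := by omega
      have e3 : e u1 u2 = 0 := by
        have := (Finset.sum_eq_zero_iff.1 e1) u2 h2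
        exact this
      exact h u1 h1 u2 h2 hne e3 (by rw [e1]) (by rw [e2])
    · exact hp
  by_cases hu : ∃ u ∈ X, dg e X u = 2 * p
  · obtain ⟨u, hu, hd⟩ := hu
    refine h_B V e X Y p q u hc hp hu hd fun v hv hdv hne => ?_
    by_contra h0
    have h0' : e u v = 0 := by omega
    exact h u hu v hv (Ne.symm hne) h0' hd hdv
  · push Not at hu
    refine h_C V e X Y p q hc hp (fun v hv => ?_) hb
    have h1 := hc.dX v hv
    have h2 := hu v hv
    omega

end Pool.Agent.MGT
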