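import Pool.Agent.MGT.Targets

set_option autoImplicit false

open Finset

namespace Pool.Agent.MGT

theorem p_DEG : T_DEG := by
  intro V _ e X x hs hX hx
  have h := hX {x} (by simpa using hx)
  have h0 : E e {x} {x} = 0 := by simp [E, hs.2 x]
  have h1 : E e {x} (X \ {x}) = dg e X x := by
    unfold E dg
    rw [Finset.sum_singleton]
    rw [← Finset.sum_sdiff (Finset.singleton_subset_iff.2 hx)]
    simp [hs.2 x]
  have h2 : (X \ {x}).card + 1 = X.card := by
    rw [Finset.card_sdiff_of_subset (Finset.singleton_subset_iff.2 hx), Finset.card_singleton]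
    have := Finset.card_pos.2 ⟨x, hx⟩
    omega
  rw [h0, h1, Finset.card_singleton] at h
  omega

end Pool.Agent.MGT
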