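import Pool.Agent.MGT.Targets

set_option autoImplicit false

/-!
# MGT: proof of DOM
-/

open Finset

namespace Pool.Agent.MGT

namespace DOM_

theorem dg_split {V : Type} [DecidableEq V] (e : V → V → ℕ) (X P : Finset V) (hP : P ⊆ X) (v : V) :
    dg e X v = dg e P v + dg e (X \ P) v := by
  unfold dg
  rw [add_comm]
  exact (Finset.sum_sdiff hP).symm

theorem sum3 {V : Type} [DecidableEq V] (f : V → ℕ) {a b c : V} (hab : a ≠ b) (hac : a ≠ c)
    (hbc : b ≠ c) : ∑ v ∈ ({a, b, c} : Finset V), f v = f a + f b + f c := by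
  rw [Finset.sum_insert (by simp [hab, hac]), Finset.sum_insert (by simp [hbc]),
    Finset.sum_singleton, add_assoc]

end DOM_

open DOM_ in
theorem p_DOM : T_DOM := by
  intro V _ e X p u1 u2 u3 hs hst hc h1 h2 h3 h12 h13 h23 d1 d2 d3
  by_contra hcon
  have hz : e u1 u2 = 0 ∧ e u1 u3 = 0 ∧ e u2 u3 = 0 := by omega
  obtain ⟨z12, z13, z23⟩ := hz
  have z21 : e u2 u1 = 0 := by rw [hs.1]; exact z12
  have z31 : e u3 u1 = 0 := by rw [hs.1]; exact z13
  have z32 : e u3 u2 = 0 := by rw [hs.1]; exact z23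
  have hP : ({u1, u2, u3} : Finset V) ⊆ X := by
    intro v hv
    simp only [Finset.mem_insert, Finset.mem_singleton] at hv
    rcases hv with rfl | rfl | rfl <;> assumption
  have hPc : ({u1, u2, u3} : Finset V).card = 3 := by
    rw [Finset.card_insert_of_notMem (by simp [h12, h13]),
      Finset.card_insert_of_notMem (by simp [h23]), Finset.card_singleton]
  have hsd : (X \ ({u1, u2, u3} : Finset V)).card + 3 = 3 * p + 2 := by
    have := Finset.card_sdiff_add_card_eq_card hP
    rw [hPc, hc] at this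
    exact this
  have q1 : dg e ({u1, u2, u3} : Finset V) u1 = 0 := by
    unfold dg
    rw [sum3 _ h12 h13 h23, hs.2, z12, z13]
  have q2 : dg e ({u1, u2, u3} : Finset V) u2 = 0 := by
    unfold dg
    rw [sum3 _ h12 h13 h23, hs.2, z21, z23]
  have q3 : dg e ({u1, u2, u3} : Finset V) u3 = 0 := by
    unfold dg
    rw [sum3 _ h12 h13 h23, hs.2, z31, z32]
  have r1 := dg_split e X _ hP u1
  have r2 := dg_split e X _ hP u2
  have r3 := dg_split e X _ hP u3
  rw [q1, d1] at r1
  rw [q2, d2] at r2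
  rw [q3, d3] at r3
  have hE : E e ({u1, u2, u3} : Finset V) (X \ {u1, u2, u3}) = 6 * p := by
    have : E e ({u1, u2, u3} : Finset V) (X \ {u1, u2, u3}) =
        ∑ a ∈ ({u1, u2, u3} : Finset V), dg e (X \ {u1, u2, u3}) a := rfl
    rw [this, sum3 _ h12 h13 h23]
    omega
  have hS := hst {u1, u2, u3} hP
  rw [hE, hPc] at hS
  generalize hm : (X \ ({u1, u2, u3} : Finset V)).card = m at hS hsd
  generalize E e ({u1, u2, u3} : Finset V) {u1, u2, u3} = n at hS
  omega

end Pool.Agent.MGT
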