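import Pool.Agent.MGT.Targets

set_option autoImplicit false

/-!
# MGT: the target T_EB
-/

open Finset

namespace Pool.Agent.MGT

lemma EB_card_le_dg {V : Type} (e : V → V → ℕ) (A B : Finset V) (v : V) (hv : v ∈ A)
    (h : Cpl e A B) : B.card ≤ dg e B v := by
  unfold dg
  have h1 : ∑ _w ∈ B, 1 ≤ ∑ w ∈ B, e v w := Finset.sum_le_sum fun w hw => h v hv w hw
  simpa using h1

theorem p_EB : T_EB := by
  intro V _ e hs
  refine ⟨?_, ?_, ?_, ?_, ?_, ?_, ?_, ?_, ?_⟩
  · intro A B
    unfold E
    rw [Finset.sum_comm]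
    exact Finset.sum_congr rfl fun b _ => Finset.sum_congr rfl fun a _ => hs.1 a b
  · intro A B C h
    unfold E
    rw [← Finset.sum_add_distrib]
    exact Finset.sum_congr rfl fun a _ => Finset.sum_union h
  · intro A B C h
    unfold E
    exact Finset.sum_union h
  · intro A B
    rfl
  · intro A B v h
    unfold dg
    exact Finset.sum_union h
  · intro A v w hw
    unfold dg
    exact (Finset.sum_erase_add A (fun w => e v w) hw).symm
  · intro A B h
    have h1 : ∑ _a ∈ A, B.card ≤ ∑ a ∈ A, dg e B a :=
      Finset.sum_le_sum fun a ha => EB_card_le_dg e A B a ha h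
    rw [Finset.sum_const, smul_eq_mul] at h1
    exact h1
  · intro A B v h
    unfold dg
    exact Finset.sum_le_sum_of_subset h
  · intro A B v hv h
    exact EB_card_le_dg e A B v hv h

end Pool.Agent.MGT
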