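import Pool.Agent.MGT.Targets

set_option autoImplicit false

/-!
# MGT, target ER
-/

open Finset

namespace Pool.Agent.MGT

lemma ER_one {V : Type} [DecidableEq V] (h_EB : T_EB) (e : V → V → ℕ) (X : Finset V) (x : V)
    (hs : Sym e) (hstar : Star e X) (hx : x ∈ X) (A B : Finset V) (h : CP e (X.erase x) A B) :
    B.card ≤ A.card ∧ 6 * dg e A x + 2 * A.card * B.card ≤ 2 * A.card * A.card + A.card := by
  obtain ⟨hA, -, hd, hu, hc⟩ := h
  obtain ⟨b1, b2, -, b4, -, -, b7, -, -⟩ := h_EB V e hs
  have hxA : x ∉ A := fun h => by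
    have : x ∈ X.erase x := hu ▸ Finset.mem_union_left B h
    exact (Finset.notMem_erase x X) this
  have hxB : x ∉ B := fun h => by
    have : x ∈ X.erase x := hu ▸ Finset.mem_union_right A h
    exact (Finset.notMem_erase x X) this
  have hAX : A ⊆ X := fun a ha => Finset.mem_of_mem_erase (hu ▸ Finset.mem_union_left B ha)
  have hdiff : X \ A = B ∪ {x} := by
    ext v
    have hv : v ∈ A ∪ B ↔ v ∈ X.erase x := by rw [hu]
    rw [Finset.mem_union, Finset.mem_erase] at hv
    rw [Finset.mem_sdiff, Finset.mem_union, Finset.mem_singleton]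
    have hdv : v ∈ A → v ∉ B := fun h => Finset.disjoint_left.1 hd h
    by_cases hvx : v = x
    · subst hvx
      simp [hx, hxA]
    · tauto
  have hdj : Disjoint B {x} := by
    rw [Finset.disjoint_singleton_right]
    exact hxB
  have h1 := hstar A hAX
  rw [hdiff, b2 A B {x} hdj, Finset.card_union_of_disjoint hdj, Finset.card_singleton] at h1
  have h2 : E e A {x} = dg e A x := by
    rw [b1, b4, Finset.sum_singleton]
  have h3 := b7 A B hc
  rw [h2] at h1
  have hApos : 0 < A.card := hA.card_pos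
  have h4 : 6 * dg e A x + 2 * A.card * B.card ≤ 2 * A.card * A.card + A.card := by
    nlinarith
  refine ⟨?_, h4⟩
  by_contra hlt
  have h5 : A.card + 1 ≤ B.card := by omega
  have h6 : A.card * (A.card + 1) ≤ A.card * B.card := Nat.mul_le_mul_left _ h5
  nlinarith

theorem p_ER (h_EB : T_EB) : T_ER := by
  intro V _ e X x hs hstar hx
  have key : ∀ A B, CP e (X.erase x) A B → A.card = B.card ∧ 6 * dg e X x ≤ 2 * A.card := by
    intro A B h
    obtain ⟨h1, h2⟩ := ER_one h_EB e X x hs hstar hx A B h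
    have hsw : CP e (X.erase x) B A := by
      obtain ⟨hA, hB, hd, hu, hc⟩ := h
      refine ⟨hB, hA, hd.symm, ?_, ?_⟩
      · rw [Finset.union_comm]
        exact hu
      · intro b hb a ha
        rw [hs.1 b a]
        exact hc a ha b hb
    obtain ⟨h3, h4⟩ := ER_one h_EB e X x hs hstar hx B A hsw
    have hAB : A.card = B.card := le_antisymm h3 h1
    refine ⟨hAB, ?_⟩
    obtain ⟨b1, b2, -, b4, b5, b6, b7, -, -⟩ := h_EB V e hs
    obtain ⟨-, -, hd, hu, -⟩ := h
    have h5 : dg e X x = dg e A x + dg e B x := by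
      rw [b6 X x x hx, ← hu, b5 A B x hd, hs.2 x, Nat.add_zero]
    rw [h5]
    rw [← hAB] at h2 h4
    nlinarith
  refine ⟨key, ?_⟩
  rintro q hq ⟨A, B, h, h3⟩
  obtain ⟨h1, -⟩ := key A B h
  obtain ⟨-, -, hd, hu, -⟩ := h
  have h2 : (X.erase x).card = A.card + B.card := by
    rw [← hu, Finset.card_union_of_disjoint hd]
  rw [Finset.card_erase_of_mem hx, hq, Nat.add_sub_cancel] at h2
  apply h3
  omega

end Pool.Agent.MGT
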