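import Pool.Agent.MGT.Targets

set_option autoImplicit false

/-!
# MGT: basic facts on partitions into good triples (target T_FU)
-/

open Finset

namespace Pool.Agent.MGT

namespace FU_

variable {V : Type} [DecidableEq V]

theorem union (e : V → V → ℕ) (S T : Finset V) (hS : Fact e S) (hT : Fact e T)
    (hd : Disjoint S T) : Fact e (S ∪ T) := by
  induction hS with
  | nil => simpa using hT
  | add S a b c _ ha hb hc hg ih =>
    rw [disjoint_left] at hd
    have haT : a ∉ T := hd (by simp)
    have hbT : b ∉ T := hd (by simp)
    have hcT : c ∉ T := hd (by simp)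
    have hST : Disjoint S T := by
      rw [disjoint_left]
      intro x hx
      exact hd (by simp [hx])
    have h := Fact.add (S ∪ T) a b c (ih hST) (by simp [ha, haT]) (by simp [hb, hbT])
      (by simp [hc, hcT]) hg
    have he : insert a (insert b (insert c S)) ∪ T = insert a (insert b (insert c (S ∪ T))) := by
      simp [insert_union]
    rw [he]
    exact h

theorem mono (e e' : V → V → ℕ) (h : ∀ a b, e a b ≤ e' a b) (S : Finset V) (hS : Fact e' S) :
    Fact e S := by
  induction hS with
  | nil => exact Fact.nil
  | add S a b c _ ha hb hc hg ih =>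
    refine Fact.add S a b c ih ha hb hc ⟨hg.1, hg.2.1, hg.2.2.1, ?_⟩
    have h1 := h a b
    have h2 := h a c
    have h3 := h b c
    have h4 := hg.2.2.2
    omega

end FU_

open FU_

theorem p_FU : T_FU := by
  intro V _ e e'
  refine ⟨union e, fun S h hS => mono e e' h S hS, ?_, ?_⟩
  · intro X Y x x' y hd hx hx' hy hg hX hY
    have hne : x ≠ x' := hg.1
    have hdl := disjoint_left.mp hd
    have hd2 : Disjoint ((X.erase x).erase x') (Y.erase y) := by
      rw [disjoint_left]
      intro z hz hz2
      exact hdl (mem_of_mem_erase (mem_of_mem_erase hz)) (mem_of_mem_erase hz2)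
    have hF := union e _ _ hX hY hd2
    have h := Fact.add _ x x' y hF (by
      have : x ∉ Y := hdl hx
      simp [this]) (by
      have : x' ∉ Y := hdl hx'
      simp [this]) (by
      have : y ∉ X := fun h => hdl h hy
      simp [this]) hg
    have he : X ∪ Y = insert x (insert x' (insert y ((X.erase x).erase x' ∪ Y.erase y))) := by
      ext z
      simp only [mem_union, mem_insert, mem_erase]
      by_cases h1 : z = x
      · simp [h1, hx]
      by_cases h2 : z = x'
      · simp [h2, hx']
      by_cases h3 : z = y
      · simp [h3, hy]
      simp [h1, h2, h3]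
    rw [he]
    exact h
  · intro e S _ hS _ _
    have : S = ∅ := by
      rw [← card_eq_zero]
      omega
    rw [this]
    exact Fact.nil

end Pool.Agent.MGT
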