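import Pool.Agent.MGT.Targets

set_option autoImplicit false

/-!
# MGT, target MAIN: one step from a maximum cut.
-/

open Finset

namespace Pool.Agent.MGT

/-- The case `|X| = 3p + 2`, `|Y| = 3q + 1`. -/
theorem MAIN_.case21 (h_EB : T_EB) (h_DEG : T_DEG) (h_ER : T_ER) (h_D21 : T_D21)
    (V : Type) [DecidableEq V] (e : V → V → ℕ) (X Y : Finset V) (k p q : ℕ)
    (hs : Sym e) (hd : Disjoint X Y) (hX : X.card = 3 * p + 2) (hY : Y.card = 3 * q + 1)
    (hk : k = p + q + 1)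
    (hdeg : ∀ v ∈ X ∪ Y, dg e (X ∪ Y) v + 1 ≤ 2 * k) (sX : Star e X) (sY : Star e Y)
    (hB : ¬ Barrier e (X ∪ Y)) (ih : ∀ j < k, MGk V j) : Fact e (X ∪ Y) := by
  obtain ⟨-, -, -, -, h5, -, -, h8, -⟩ := h_EB V e hs
  have dY : ∀ v ∈ Y, dg e Y v + 1 ≤ 2 * q := by
    intro v hv
    have := h_DEG V e Y v hs sY hv
    omega
  refine h_D21 V e X Y p q ⟨hs, hd, hX, hY, ?_, ?_, dY, sX, ?_, ih p (by omega)⟩ hB
  · intro v hv
    have h1 := hdeg v hv
    rw [h5 X Y v hd] at h1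
    omega
  · intro v hv
    have := h_DEG V e X v hs sX hv
    omega
  · intro y hy
    refine ih q (by omega) e (Y.erase y) hs ?_ ?_ ?_
    · rw [Finset.card_erase_of_mem hy]
      omega
    · intro v hv
      have h1 := dY v (Finset.mem_of_mem_erase hv)
      have h2 := h8 (Y.erase y) Y v (Finset.erase_subset _ _)
      omega
    · exact (h_ER V e Y y hs sY hy).2 q hY

theorem p_MAIN (h_EB : T_EB) (h_FU : T_FU) (h_DEG : T_DEG) (h_NCP : T_NCP) (h_ER : T_ER)
    (h_D21 : T_D21) : T_MAIN := by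
  intro V _ e X Y k hs hd hXn hYn hc hdeg sX sY hB ih
  have hcard : X.card + Y.card = 3 * k := by
    rw [← Finset.card_union_of_disjoint hd, hc]
  have hX0 := hXn.card_pos
  have hY0 := hYn.card_pos
  have hcase : (∃ p q, X.card = 3 * p ∧ Y.card = 3 * q ∧ p < k ∧ q < k) ∨
      (∃ p q, X.card = 3 * p + 2 ∧ Y.card = 3 * q + 1 ∧ k = p + q + 1) ∨
      (∃ p q, Y.card = 3 * p + 2 ∧ X.card = 3 * q + 1 ∧ k = p + q + 1) := by
    have h3 : X.card % 3 = 0 ∨ X.card % 3 = 1 ∨ X.card % 3 = 2 := by omega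
    rcases h3 with h | h | h
    · exact Or.inl ⟨X.card / 3, Y.card / 3, by omega, by omega, by omega, by omega⟩
    · exact Or.inr (Or.inr ⟨Y.card / 3, X.card / 3, by omega, by omega, by omega⟩)
    · exact Or.inr (Or.inl ⟨X.card / 3, Y.card / 3, by omega, by omega, by omega⟩)
  rcases hcase with ⟨p, q, hp, hq, hpk, hqk⟩ | ⟨p, q, hp, hq, hk⟩ | ⟨p, q, hp, hq, hk⟩
  · obtain ⟨f1, -, -, -⟩ := h_FU V e e
    refine f1 X Y ?_ ?_ hd
    · refine ih p hpk e X hs hp ?_ ?_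
      · intro v hv
        have := h_DEG V e X v hs sX hv
        omega
      · rintro ⟨A, B, hAB, -⟩
        exact h_NCP V e X A B hs sX hAB
    · refine ih q hqk e Y hs hq ?_ ?_
      · intro v hv
        have := h_DEG V e Y v hs sY hv
        omega
      · rintro ⟨A, B, hAB, -⟩
        exact h_NCP V e Y A B hs sY hAB
  · exact MAIN_.case21 h_EB h_DEG h_ER h_D21 V e X Y k p q hs hd hp hq hk hdeg sX sY hB ih
  · have hu : X ∪ Y = Y ∪ X := Finset.union_comm X Y
    rw [hu] at hdeg hB ⊢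
    exact MAIN_.case21 h_EB h_DEG h_ER h_D21 V e Y X k p q hs hd.symm hp hq hk hdeg sY sX hB ih

end Pool.Agent.MGT
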