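import Pool.Agent.MGT.Targets

set_option autoImplicit false

/-!
# MGT: the theorem (MG) from the maximum cut (target T_MG)
-/

open Finset

namespace Pool.Agent.MGT

namespace MG_

/-- The case of one triple. -/
theorem one (V : Type) [DecidableEq V] : MGk V 1 := by
  intro e S hs hc hd _
  obtain ⟨a, b, c, hab, hac, hbc, rfl⟩ := Finset.card_eq_three.1 (by omega : S.card = 3)
  have hsum : ∀ v, dg e {a, b, c} v = e v a + (e v b + e v c) := by
    intro v
    unfold dg
    rw [Finset.sum_insert (by simp [hab, hac]), Finset.sum_insert (by simp [hbc]),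
      Finset.sum_singleton]
  have h1 := hd a (by simp)
  have h2 := hd b (by simp)
  have h3 := hd c (by simp)
  rw [hsum] at h1 h2 h3
  have hg : Good e a b c := by
    refine ⟨hab, hac, hbc, ?_⟩
    have e1 := hs.2 a
    have e2 := hs.2 b
    have e3 := hs.2 c
    have e4 := hs.1 a b
    have e5 := hs.1 a c
    have e6 := hs.1 b c
    omega
  exact Fact.add ∅ a b c Fact.nil (Finset.notMem_empty _) (Finset.notMem_empty _)
    (Finset.notMem_empty _) hg

end MG_

/-- MG. -/
theorem p_MG (h_FU : T_FU) (h_POS : T_POS) (h_STAR : T_STAR) (h_MAIN : T_MAIN) : T_MG := by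
  intro V _ k
  induction k using Nat.strong_induction_on with
  | _ k ih =>
    rcases Nat.lt_or_ge k 2 with hk | hk
    · interval_cases k
      · exact (h_FU V (fun _ _ => 0) (fun _ _ => 0)).2.2.2
      · exact MG_.one V
    · intro e S hs hc hd hb
      refine h_POS V S k hk hc ?_ e hs hd hb
      intro f fs fd fb fp
      obtain ⟨X0, hX0, hpos⟩ := fp
      obtain ⟨X, hX, hmax⟩ := Finset.exists_max_image S.powerset
        (fun X => 3 * (E f X (S \ X) : ℤ) - 2 * X.card * (S \ X).card)
        ⟨X0, Finset.mem_powerset.2 hX0⟩
      rw [Finset.mem_powerset] at hX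
      have hgt : (0 : ℤ) < 3 * (E f X (S \ X) : ℤ) - 2 * X.card * (S \ X).card := by
        have h1 := hmax X0 (Finset.mem_powerset.2 hX0)
        have h2 : (2 * X0.card * (S \ X0).card : ℤ) < 3 * (E f X0 (S \ X0) : ℤ) := by
          exact_mod_cast hpos
        linarith
      have hXn : X.Nonempty := by
        rw [Finset.nonempty_iff_ne_empty]
        rintro rfl
        simp [E] at hgt
      have hYn : (S \ X).Nonempty := by
        rw [Finset.nonempty_iff_ne_empty]
        intro h0
        rw [h0] at hgt
        simp [E] at hgt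
      have hu : X ∪ (S \ X) = S := Finset.union_sdiff_of_subset hX
      have hdis : Disjoint X (S \ X) := Finset.disjoint_sdiff
      have hst := h_STAR V f X (S \ X) k fs hdis (by rw [hu]; exact hc) (by rw [hu]; exact fd)
        (by
          rw [hu]
          intro X' hX'
          exact hmax X' (Finset.mem_powerset.2 hX'))
      have hfin := h_MAIN V f X (S \ X) k fs hdis hXn hYn (by rw [hu]; exact hc)
        (by rw [hu]; exact fd) hst.1 hst.2 (by rw [hu]; exact fb) ih
      rwa [hu] at hfin

end Pool.Agent.MGT
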