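import Pool.Agent.MGT.Targets

set_option autoImplicit false

open Finset

namespace Pool.Agent.MGT

namespace NCP_

/-- The estimate from one side. -/
theorem side {a b E1 E2 : ℕ} (ha : 0 < a) (hE : a * b ≤ E2)
    (h : 3 * E1 + 6 * E2 + 3 * a ≤ a * (2 * a + 4 * b)) : 2 * b + 3 ≤ 2 * a := by
  have h1 : a * (2 * b + 3) ≤ a * (2 * a) := by nlinarith
  exact Nat.le_of_mul_le_mul_left h1 ha

end NCP_

theorem p_NCP (h_EB : T_EB) : T_NCP := by
  intro V _ e X A B hS hX hC
  obtain ⟨hA, hB, hd, hU, hc⟩ := hC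
  obtain ⟨e1, -, -, -, -, -, e7, -, -⟩ := h_EB V e hS
  have hAX : A ⊆ X := hU ▸ subset_union_left
  have hBX : B ⊆ X := hU ▸ subset_union_right
  have hXA : X \ A = B := by rw [← hU]; exact union_sdiff_cancel_left hd
  have hXB : X \ B = A := by rw [← hU]; exact union_sdiff_cancel_right hd
  have h1 := hX A hAX
  have h2 := hX B hBX
  rw [hXA] at h1
  rw [hXB] at h2
  have h3 := e7 A B hc
  have h4 : B.card * A.card ≤ E e B A := by rw [e1 B A, mul_comm]; exact h3
  have h5 := NCP_.side hA.card_pos h3 h1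
  have h6 := NCP_.side hB.card_pos h4 h2
  omega

end Pool.Agent.MGT
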