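import Pool.Agent.MGT.Targets

set_option autoImplicit false

open Finset

namespace Pool.Agent.MGT

namespace STAR_

/-- One side. -/
theorem side (h_EB : T_EB) (V : Type) [DecidableEq V] (e : V → V → ℕ) (X Y : Finset V) (k : ℕ)
    (hs : Sym e) (hd : Disjoint X Y) (hc : (X ∪ Y).card = 3 * k)
    (hdeg : ∀ v ∈ X ∪ Y, dg e (X ∪ Y) v + 1 ≤ 2 * k)
    (hmax : ∀ X' ⊆ X ∪ Y, 3 * (E e X' ((X ∪ Y) \ X') : ℤ) - 2 * X'.card * ((X ∪ Y) \ X').card
      ≤ 3 * (E e X Y : ℤ) - 2 * X.card * Y.card) : Star e X := by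
  obtain ⟨hsym, hadd2, hadd1, hsum, hdgadd, -, -, -, -⟩ := h_EB V e hs
  intro P hP
  set Q := X \ P with hQ
  have hPQ : Disjoint P Q := disjoint_sdiff
  have hX : X = P ∪ Q := (Finset.union_sdiff_of_subset hP).symm
  have hPY : Disjoint P Y := Finset.disjoint_of_subset_left hP hd
  have hQY : Disjoint Q Y := Finset.disjoint_of_subset_left sdiff_subset hd
  have hcompl : (X ∪ Y) \ Q = P ∪ Y := by
    ext v
    simp only [hQ, mem_sdiff, mem_union, not_and, not_not]
    constructor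
    · rintro ⟨h1, h2⟩
      rcases h1 with h1 | h1
      · exact Or.inl (h2 h1)
      · exact Or.inr h1
    · rintro (h1 | h1)
      · exact ⟨Or.inl (hP h1), fun _ => h1⟩
      · exact ⟨Or.inr h1, fun h2 => absurd h1 (Finset.disjoint_left.mp hd h2)⟩
  have hm := hmax Q (sdiff_subset.trans subset_union_left)
  rw [hcompl, hadd2 Q P Y hPY, card_union_of_disjoint hPY] at hm
  have hEX : E e X Y = E e P Y + E e Q Y := by
    conv_lhs => rw [hX]
    exact hadd1 P Q Y hPQ
  have hcX : X.card = P.card + Q.card := by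
    conv_lhs => rw [hX]
    exact card_union_of_disjoint hPQ
  have hcS : P.card + Q.card + Y.card = 3 * k := by
    rw [← hc, card_union_of_disjoint hd, hcX]
  have hdegsum : E e P P + E e P Q + E e P Y + P.card ≤ P.card * (2 * k) := by
    have h1 : E e P P + E e P Q + E e P Y = ∑ v ∈ P, dg e (X ∪ Y) v := by
      rw [hsum P P, hsum P Q, hsum P Y, ← Finset.sum_add_distrib, ← Finset.sum_add_distrib]
      apply Finset.sum_congr rfl
      intro v _
      rw [hdgadd X Y v hd]
      congr 1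
      conv_rhs => rw [hX]
      exact (hdgadd P Q v hPQ).symm
    rw [h1]
    have h2 : ∑ v ∈ P, (dg e (X ∪ Y) v + 1) ≤ ∑ _v ∈ P, 2 * k :=
      Finset.sum_le_sum (fun v hv => hdeg v (mem_union_left Y (hP hv)))
    rw [Finset.sum_add_distrib, Finset.sum_const, Finset.sum_const, smul_eq_mul, smul_eq_mul,
      mul_one] at h2
    exact h2
  rw [hEX, hcX, hsym Q P] at hm
  push_cast at hm
  zify at hcS hdegsum ⊢
  have hk : (2 : ℤ) * k * 3 = 2 * (P.card + Q.card + Y.card) := by linarith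
  have h3 : (P.card : ℤ) * (2 * k) * 3 = P.card * (2 * (P.card + Q.card + Y.card)) := by
    rw [mul_assoc, hk]
  nlinarith [h3, hm, hdegsum]

end STAR_

/-- STAR. -/
theorem p_STAR (h_EB : T_EB) : T_STAR := by
  intro V _ e X Y k hs hd hc hdeg hmax
  refine ⟨STAR_.side h_EB V e X Y k hs hd hc hdeg hmax, ?_⟩
  have hu : Y ∪ X = X ∪ Y := union_comm Y X
  refine STAR_.side h_EB V e Y X k hs hd.symm (by rw [hu]; exact hc) (by rw [hu]; exact hdeg) ?_
  rw [hu]
  intro X' hX'
  have h := hmax X' hX'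
  rw [(h_EB V e hs).1 Y X]
  linarith [h, mul_comm (2 * (X.card : ℤ)) (Y.card : ℤ)]

end Pool.Agent.MGT
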