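import Pool.Agent.MGT.P_A
import Pool.Agent.MGT.P_B
import Pool.Agent.MGT.P_BAx
import Pool.Agent.MGT.P_BB
import Pool.Agent.MGT.P_BC
import Pool.Agent.MGT.P_C
import Pool.Agent.MGT.P_C1
import Pool.Agent.MGT.P_CC
import Pool.Agent.MGT.P_D21
import Pool.Agent.MGT.P_DEG
import Pool.Agent.MGT.P_DOM
import Pool.Agent.MGT.P_EB
import Pool.Agent.MGT.P_ER
import Pool.Agent.MGT.P_FU
import Pool.Agent.MGT.P_MAIN
import Pool.Agent.MGT.P_MG
import Pool.Agent.MGT.P_NCP
import Pool.Agent.MGT.P_PAIR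
import Pool.Agent.MGT.P_POS
import Pool.Agent.MGT.P_STAR

set_option autoImplicit false

open Finset

namespace Pool.Agent.MGT

/-- (MG): a multigraph on `3k` vertices with maximum degree at most `2k - 1` and without a barrier
can be partitioned into `k` triples spanning at most one edge each. -/
theorem mg : T_MG := by
  have h_EB : T_EB := p_EB
  have h_FU : T_FU := p_FU
  have h_ER : T_ER := p_ER h_EB
  have h_BA : T_BA := p_BAx
  have h_BB : T_BB := p_BB h_BA
  have h_BC : T_BC := p_BC h_EB h_BA h_BB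
  have h_C1 : T_C1 := p_C1 h_FU h_BA h_BC
  have h_CC : T_CC := p_CC h_EB h_ER
  have h_A : T_A := p_A h_FU h_EB p_DOM (p_PAIR h_EB)
  have h_B : T_B := p_B h_EB h_ER h_C1
  have h_C : T_C := p_C h_EB h_CC h_C1
  have h_MAIN : T_MAIN := p_MAIN h_EB h_FU p_DEG (p_NCP h_EB) h_ER (p_D21 h_A h_B h_C)
  exact p_MG h_FU (p_POS h_EB h_FU) (p_STAR h_EB) h_MAIN

end Pool.Agent.MGT
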