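import Pool.Agent.MGT.Targets

set_option autoImplicit false

open Finset

namespace Pool.Agent.MGT

theorem p_A (h_FU : T_FU) (h_EB : T_EB) (h_DOM : T_DOM) (h_PAIR : T_PAIR) : T_A := by
  intro V _ e X Y p q u1 u2 hc hu1 hu2 hne h12 hd1 hd2
  obtain ⟨hsym, hdisj, hcX, hcY, hdt, hdX, hdY, hsX, hfY, hihp⟩ := hc
  obtain ⟨-, -, -, -, -, hEr, -, -, -⟩ := h_EB V e hsym
  have hu2' : u2 ∈ X.erase u1 := mem_erase.2 ⟨hne.symm, hu2⟩
  have hcard : ((X.erase u1).erase u2).card = 3 * p := by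
    rw [card_erase_of_mem hu2', card_erase_of_mem hu1, hcX]
    omega
  -- the rest of X
  have hX' : Fact e ((X.erase u1).erase u2) := by
    apply hihp e _ hsym hcard
    · intro v hv
      have hv2 : v ≠ u2 := (mem_erase.1 hv).1
      have hv1 : v ≠ u1 := (mem_erase.1 (mem_erase.1 hv).2).1
      have hvX : v ∈ X := (mem_erase.1 (mem_erase.1 hv).2).2
      have h1 := hEr X v u1 hu1
      have h2 := hEr (X.erase u1) v u2 hu2'
      have h3 := hdX v hvX
      by_cases h4 : dg e X v = 2 * p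
      · have h5 := h_DOM V e X p u1 u2 v hsym hsX hcX hu1 hu2 hvX hne hv1.symm hv2.symm hd1 hd2 h4
        have h6 := hsym.1 u1 v
        have h7 := hsym.1 u2 v
        omega
      · omega
    · rintro ⟨A, B, hCP, -⟩
      rcases Nat.eq_zero_or_pos p with hp | hp
      · rw [hp, mul_zero, card_eq_zero] at hcard
        obtain ⟨a, ha⟩ := hCP.1
        have h1 : a ∈ A ∪ B := mem_union_left _ ha
        rw [hCP.2.2.2.1, hcard] at h1
        exact absurd h1 (notMem_empty a)
      · exact h_PAIR V e X p u1 u2 A B hsym hsX hcX hp hu1 hu2 hne h12 hd1 hd2 hCP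
  -- a vertex of Y
  have hYne : Y.Nonempty := by
    rw [← card_pos]
    omega
  obtain ⟨y0, hy0⟩ := hYne
  have hq : 1 ≤ q := by
    have := hdY y0 hy0
    omega
  obtain ⟨y, hy, hyu⟩ : ∃ y ∈ Y, e u1 y + e u2 y ≤ 1 := by
    by_contra hcon
    push Not at hcon
    have h1 : ∑ _y ∈ Y, 2 ≤ ∑ y ∈ Y, (e u1 y + e u2 y) := Finset.sum_le_sum fun y hy => hcon y hy
    rw [Finset.sum_const, smul_eq_mul, Finset.sum_add_distrib] at h1
    have h2 : ∑ y ∈ Y, e u1 y = dg e Y u1 := rfl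
    have h3 : ∑ y ∈ Y, e u2 y = dg e Y u2 := rfl
    rw [h2, h3, hcY] at h1
    have h4 := hdt u1 (mem_union_left _ hu1)
    have h5 := hdt u2 (mem_union_left _ hu2)
    omega
  have hgood : Good e u1 u2 y := by
    refine ⟨hne, ?_, ?_, by omega⟩
    · rintro rfl
      exact Finset.disjoint_left.1 hdisj hu1 hy
    · rintro rfl
      exact Finset.disjoint_left.1 hdisj hu2 hy
  exact (h_FU V e e).2.2.1 X Y u1 u2 y hdisj hu1 hu2 hy hgood hX' (hfY y hy)

end Pool.Agent.MGT
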