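import Pool.Agent.MGT.Targets

set_option autoImplicit false

/-! Target BA of the project MGT: sizes of the two parts of a barrier of `R - b`. -/

open Finset

namespace Pool.Agent.MGT

theorem p_BA (h_EB : T_EB) : T_BA := by
  intro V _ e R A B p b hsym hR hdeg hb hCP hA3
  obtain ⟨hAne, hBne, hdisj, hAB, hcpl⟩ := hCP
  obtain ⟨-, -, -, -, -, -, -, hmono, hcard⟩ := h_EB V e hsym
  have hcplBA : Cpl e B A := by
    intro x hx y hy
    rw [hsym.1 x y]
    exact hcpl y hy x hx
  have hAR : A ⊆ R := by
    intro x hx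
    have : x ∈ R.erase b := by rw [← hAB]; exact mem_union_left _ hx
    exact mem_of_mem_erase this
  have hBR : B ⊆ R := by
    intro x hx
    have : x ∈ R.erase b := by rw [← hAB]; exact mem_union_right _ hx
    exact mem_of_mem_erase this
  have hsum : A.card + B.card = 3 * p := by
    rw [← card_union_of_disjoint hdisj, hAB, card_erase_of_mem hb, hR]
    omega
  have h1 : ∀ v ∈ A, B.card ≤ dg e R v := fun v hv =>
    le_trans (hcard A B v hv hcpl) (hmono B R v hBR)
  have h2 : ∀ v ∈ B, A.card ≤ dg e R v := fun v hv =>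
    le_trans (hcard B A v hv hcplBA) (hmono A R v hAR)
  obtain ⟨a, ha⟩ := hAne
  obtain ⟨c, hc⟩ := hBne
  have ha1 := h1 a ha
  have ha2 := hdeg a (hAR ha)
  have hc1 := h2 c hc
  have hc2 := hdeg c (hBR hc)
  have hp : 3 ≤ p := by
    by_contra hlt
    apply hA3
    have : A.card = 3 := by omega
    rw [this]
  refine ⟨hp, by omega, by omega, ?_⟩
  intro v hv
  rw [← hAB, mem_union] at hv
  rcases hv with hv | hv
  · have := h1 v hv
    omega
  · have := h2 v hv
    omega

end Pool.Agent.MGT
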