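import Pool.Agent.MGT.P_FINx

set_option autoImplicit false

/-!
# MGT, target FIN
-/

open Finset

namespace Pool.Agent.MGT

theorem p_FIN (h_MG : T_MG') (h_MIS : T_MIS) (h_MISD : T_MISD) (h_FTI : T_FTI) (h_TIL : T_TIL)
    (h_BAR : T_BAR) (h_BARR : T_BARR) : T_FIN :=
  p_FINx h_MG h_MIS h_MISD h_FTI h_TIL h_BAR h_BARR

end Pool.Agent.MGT
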