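import Pool.Agent.MGT.Targets

set_option autoImplicit false

/-!
# MGT, target PAIR
-/

open Finset

namespace Pool.Agent.MGT

lemma PAIR_one {V : Type} [DecidableEq V] (h_EB : T_EB) (e : V → V → ℕ) (X : Finset V)
    (u1 u2 : V) (hs : Sym e) (hstar : Star e X) (h1 : u1 ∈ X) (h2 : u2 ∈ X) (h12 : u1 ≠ u2)
    (A B : Finset V) (h : CP e ((X.erase u1).erase u2) A B) :
    6 * (dg e A u1 + dg e A u2) + 2 * A.card * B.card ≤ 2 * A.card * A.card + 5 * A.card ∧
      B.card ≤ A.card + 2 := by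
  obtain ⟨hA, -, hd, hu, hc⟩ := h
  obtain ⟨b1, b2, -, b4, b5, -, b7, -, -⟩ := h_EB V e hs
  have hmem : ∀ v, v ∈ A ∪ B ↔ v ≠ u2 ∧ v ≠ u1 ∧ v ∈ X := fun v => by
    rw [hu, Finset.mem_erase, Finset.mem_erase]
  have hAX : A ⊆ X := fun a ha => ((hmem a).1 (Finset.mem_union_left B ha)).2.2
  have h1A : u1 ∉ A := fun h => ((hmem u1).1 (Finset.mem_union_left B h)).2.1 rfl
  have h2A : u2 ∉ A := fun h => ((hmem u2).1 (Finset.mem_union_left B h)).1 rfl
  have h1B : u1 ∉ B := fun h => ((hmem u1).1 (Finset.mem_union_right A h)).2.1 rfl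
  have h2B : u2 ∉ B := fun h => ((hmem u2).1 (Finset.mem_union_right A h)).1 rfl
  have hdiff : X \ A = B ∪ {u1, u2} := by
    ext v
    have hv := hmem v
    rw [Finset.mem_union] at hv
    rw [Finset.mem_sdiff, Finset.mem_union, Finset.mem_insert, Finset.mem_singleton]
    have hdv : v ∈ A → v ∉ B := fun h => Finset.disjoint_left.1 hd h
    by_cases hv1 : v = u1
    · subst hv1
      simp [h1, h1A]
    · by_cases hv2 : v = u2
      · subst hv2
        simp [h2, h2A]
      · tauto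
  have hdj : Disjoint B {u1, u2} := by
    rw [Finset.disjoint_right]
    intro v hv
    rw [Finset.mem_insert, Finset.mem_singleton] at hv
    rcases hv with rfl | rfl
    · exact h1B
    · exact h2B
  have h3 := hstar A hAX
  rw [hdiff, b2 A B {u1, u2} hdj, Finset.card_union_of_disjoint hdj,
    Finset.card_pair h12] at h3
  have h4 : E e A {u1, u2} = dg e A u1 + dg e A u2 := by
    rw [b1, b4, Finset.sum_pair h12]
  have h5 := b7 A B hc
  rw [h4] at h3
  have hApos : 0 < A.card := hA.card_pos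
  have h6 : 6 * (dg e A u1 + dg e A u2) + 2 * A.card * B.card ≤
      2 * A.card * A.card + 5 * A.card := by
    nlinarith
  refine ⟨h6, ?_⟩
  by_contra hlt
  have h7 : A.card + 3 ≤ B.card := by omega
  have h8 : A.card * (A.card + 3) ≤ A.card * B.card := Nat.mul_le_mul_left _ h7
  nlinarith

theorem p_PAIR (h_EB : T_EB) : T_PAIR := by
  intro V _ e X p u1 u2 A B hs hstar hX hp h1 h2 h12 h0 d1 d2 h
  obtain ⟨i1, i2⟩ := PAIR_one h_EB e X u1 u2 hs hstar h1 h2 h12 A B h
  have hsw : CP e ((X.erase u1).erase u2) B A := by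
    obtain ⟨hA, hB, hd, hu, hc⟩ := h
    refine ⟨hB, hA, hd.symm, ?_, ?_⟩
    · rw [Finset.union_comm]
      exact hu
    · intro b hb a ha
      rw [hs.1 b a]
      exact hc a ha b hb
  obtain ⟨j1, j2⟩ := PAIR_one h_EB e X u1 u2 hs hstar h1 h2 h12 B A hsw
  obtain ⟨-, -, -, -, b5, b6, -, -, -⟩ := h_EB V e hs
  obtain ⟨-, -, hd, hu, -⟩ := h
  have h2' : u2 ∈ X.erase u1 := Finset.mem_erase.2 ⟨h12.symm, h2⟩
  have hcard : A.card + B.card = 3 * p := by
    rw [← Finset.card_union_of_disjoint hd, hu, Finset.card_erase_of_mem h2',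
      Finset.card_erase_of_mem h1, hX]
    omega
  have e1 : dg e A u1 + dg e B u1 = 2 * p := by
    rw [← d1, b6 X u1 u1 h1, b6 (X.erase u1) u1 u2 h2', ← hu, b5 A B u1 hd, hs.2 u1, h0,
      Nat.add_zero]
  have e2 : dg e A u2 + dg e B u2 = 2 * p := by
    rw [← d2, b6 X u2 u1 h1, b6 (X.erase u1) u2 u2 h2', ← hu, b5 A B u2 hd, hs.2 u2,
      hs.1 u2 u1, h0, Nat.add_zero]
  have k1 : (6 * ((dg e A u1 : ℤ) + dg e A u2) + 2 * A.card * B.card) ≤
      2 * A.card * A.card + 5 * A.card := by exact_mod_cast i1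
  have k2 : (6 * ((dg e B u1 : ℤ) + dg e B u2) + 2 * B.card * A.card) ≤
      2 * B.card * B.card + 5 * B.card := by exact_mod_cast j1
  have k3 : (dg e A u1 : ℤ) + dg e B u1 = 2 * p := by exact_mod_cast e1
  have k4 : (dg e A u2 : ℤ) + dg e B u2 = 2 * p := by exact_mod_cast e2
  have k5 : (A.card : ℤ) + B.card = 3 * p := by exact_mod_cast hcard
  have k6 : ((A.card : ℤ) - B.card) ^ 2 ≤ 4 := by
    have l1 : (B.card : ℤ) ≤ A.card + 2 := by exact_mod_cast i2
    have l2 : (A.card : ℤ) ≤ B.card + 2 := by exact_mod_cast j2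
    nlinarith
  have k7 : (1 : ℤ) ≤ p := by exact_mod_cast hp
  nlinarith

end Pool.Agent.MGT
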