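import Pool.Agent.MGT.Targets2

set_option autoImplicit false

/-!
# MGT, part 2: the transitive case of a barrier (TRI)
-/

open Finset

namespace Pool.Agent.MGT

theorem p_TRI (hTR1 : T_TR1) (hRE1 : T_RE1) (hEMB : T_EMB) (hFTI : T_FTI) (hTIL : T_TIL) :
    T_TRI := by
  intro V _ _ D X Y α β k T hloop hb hXY hcard hT hex
  obtain ⟨j, hj⟩ := hex
  obtain ⟨x, hx, y, hy, y', hy', hne, h1, h2, h3⟩ := hTR1 V (mis D) X Y α β hb
  obtain ⟨tU, tM, tS, -⟩ := hTIL V (Fin k) D T
  have hxY : ∀ z ∈ Y, x ≠ z := by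
    rintro z hz rfl
    exact (Finset.disjoint_left.mp hb.disj hx) hz
  obtain ⟨g, g1, g2, g3⟩ := (hEMB V D (T j) (hT j)).2.1 x y y' hj (hxY y hy) (hxY y' hy') hne
    h1 h2 h3
  have hF1 := (hRE1 V (mis D) X Y α β hb).1 x hx
  have hF2 := (hRE1 V (mis D) X Y α β hb).2 y hy y' hy' hne
  have hy'2 : y' ∈ Y.erase y := Finset.mem_erase.mpr ⟨hne.symm, hy'⟩
  -- cardinalities
  have c1 : (X.erase x).card = 2 * α + β + 2 := by
    rw [Finset.card_erase_of_mem hx, hb.cX]
    rfl
  have c2 : ((Y.erase y).erase y').card = α + 2 * β + 1 := by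
    rw [Finset.card_erase_of_mem hy'2, Finset.card_erase_of_mem hy, hb.cY]
    rfl
  have c3 : 3 * k = (2 * α + β + 3) + (α + 2 * β + 3) := by
    rw [← hcard, ← Finset.card_univ, ← hXY, Finset.card_union_of_disjoint hb.disj, hb.cX, hb.cY]
  have hmod := hb.hmod
  obtain ⟨a, ha⟩ : ∃ a, 2 * α + β + 2 = 3 * a := ⟨(2 * α + β + 2) / 3, by omega⟩
  have cU : ((univ : Finset (Fin k)).erase j).card = k - 1 := by
    rw [Finset.card_erase_of_mem (Finset.mem_univ _), Finset.card_univ, Fintype.card_fin]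
  obtain ⟨I1, hI1, cI1⟩ := Finset.exists_subset_card_eq
    (s := (univ : Finset (Fin k)).erase j) (n := a) (by rw [cU]; omega)
  have cI2 : (((univ : Finset (Fin k)).erase j) \ I1).card = k - 1 - a := by
    rw [Finset.card_sdiff_of_subset hI1, cU, cI1]
  -- the three pieces
  haveI : Nonempty V := ⟨x⟩
  have t1 : Tiles D T I1 (X.erase x) := hFTI V (Fin k) D T hT _ hF1 I1 (by rw [c1, cI1, ha])
  have t2 : Tiles D T (((univ : Finset (Fin k)).erase j) \ I1) ((Y.erase y).erase y') :=
    hFTI V (Fin k) D T hT _ hF2 _ (by rw [c2, cI2]; omega)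
  have t3 : Tiles D T {j} ({x, y, y'} : Finset V) := tS j g _ g1 g2 g3
  have d12 : Disjoint (X.erase x) ((Y.erase y).erase y') :=
    hb.disj.mono (Finset.erase_subset _ _)
      ((Finset.erase_subset _ _).trans (Finset.erase_subset _ _))
  have t4 := tU _ _ _ _ t1 t2 Finset.disjoint_sdiff d12
  rw [Finset.union_sdiff_of_subset hI1] at t4
  have d3 : Disjoint (X.erase x ∪ (Y.erase y).erase y') ({x, y, y'} : Finset V) := by
    rw [Finset.disjoint_left]
    intro z hz hz'
    rw [Finset.mem_insert, Finset.mem_insert, Finset.mem_singleton] at hz'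
    rcases Finset.mem_union.mp hz with h | h
    · have hzX := Finset.mem_of_mem_erase h
      rcases hz' with rfl | rfl | rfl
      · exact (Finset.notMem_erase _ _) h
      · exact (Finset.disjoint_left.mp hb.disj hzX) hy
      · exact (Finset.disjoint_left.mp hb.disj hzX) hy'
    · have hzY : z ∈ Y := Finset.mem_of_mem_erase (Finset.mem_of_mem_erase h)
      rcases hz' with rfl | rfl | rfl
      · exact hxY _ hzY rfl
      · exact (Finset.notMem_erase _ _) (Finset.mem_of_mem_erase h)
      · exact (Finset.notMem_erase _ _) h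
  have t5 := tU _ _ _ _ t4 t3
    (Finset.disjoint_singleton_right.mpr (Finset.notMem_erase _ _)) d3
  have e1 : ((univ : Finset (Fin k)).erase j) ∪ {j} = univ := by
    ext i
    by_cases h : i = j <;> simp [h]
  rw [e1] at t5
  exact tM _ _ _ t5 (Finset.subset_univ _)

end Pool.Agent.MGT
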